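import Pool.Agent.Lib.MP_ca56d1_nt.CD.Fld

/-! Assembly of the Galois side over a complex cubic field. -/

namespace Pool.Agent.CD

open NumberField IsDedekindDomain Pool.Agent.Stark Pool.Agent.Stark.AR Pool.Agent.StarkD
  Pool.Agent.CU StarkStmt
open scoped IsMulCommutative Classical

variable {K : Type} [Field K] [NumberField K] {ρ : K →+* ℝ} {σ : K →+* ℂ}
  {H : Type} [Field H] [NumberField H] [Algebra K H] [IsAbelianGalois K H]

theorem asm (hS : SignSt ρ H) (hE : EpsSt ρ σ H) (hU : CD.UnitSt ρ σ H) (hN : CD.EndSt ρ σ H)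
    {u : ∀ (S : Finset (Pr K)) (N : ℕ), Cl ρ S N → ℂ} (hu : CSys ρ σ u) (S : Finset (Pr K))
    (hne : S.Nonempty) (hUn : UnrO H S) (φ : H →+* ℂ) (hφ : ∀ x : K, φ (algebraMap K H x) = σ x) :
    Stark K S (InfinitePlace.mk φ) := by
  obtain ⟨N, τ, h1, h2, h3⟩ := hS S hUn
  obtain ⟨ε, h4, h5⟩ := hE S N (u S N) φ hUn h1 hφ (hu.alg S N hne) (hu.kron S N hne)
  exact hN u hu S N φ ε τ hne h1 h2 h3 hφ h4 (hU u hu S N φ ε hne hUn h1 hφ h4) h5

theorem exists_cc (h3 : Module.finrank ℚ K = 3) (σ : K →+* ℂ)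
    (hσ : (InfinitePlace.mk σ).IsComplex) : ∃ ρ, CC ρ σ := by
  have h1 := InfinitePlace.card_add_two_mul_card_eq_rank K
  have h2 : 0 < InfinitePlace.nrRealPlaces K := by omega
  obtain ⟨w, hw⟩ := Fintype.card_pos_iff.1 h2
  refine ⟨InfinitePlace.embedding_of_isReal hw, h3, ?_⟩
  by_contra h
  push Not at h
  rw [InfinitePlace.isComplex_mk_iff] at hσ
  exact hσ (ComplexEmbedding.isReal_iff.2 (RingHom.ext fun x => Complex.conj_eq_iff_im.2 (h x)))

end Pool.Agent.CD
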