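import Pool.Agent.Lib.MP_ca56d1_nt.CD.Fld

/-! The reciprocity law modulo a decomposition group. -/

namespace Pool.Agent.CD

open NumberField IsDedekindDomain Pool.Agent.Stark Pool.Agent.Stark.AR Pool.Agent.StarkD
  Pool.Agent.CU StarkStmt
open scoped IsMulCommutative Classical Pointwise

namespace DecAux

variable {K F : Type} [Field K] [NumberField K] [Field F] [NumberField F] [Algebra K F]

omit [NumberField K] [NumberField F] in
theorem below_res (Z : IntermediateField K F) [Normal K Z] (g : F ≃ₐ[K] F) (Q : Pr F) :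
    below Z (g • Q) = AlgEquiv.restrictNormalHom Z g • below Z Q := by
  ext x
  change algebraMap (𝓞 Z) (𝓞 F) x ∈ g • Q.asIdeal ↔
    x ∈ AlgEquiv.restrictNormalHom Z g • (below Z Q).asIdeal
  rw [Ideal.mem_pointwise_smul_iff_inv_smul_mem, Ideal.mem_pointwise_smul_iff_inv_smul_mem,
    ← map_inv, show g⁻¹ • algebraMap (𝓞 Z) (𝓞 F) x =
      algebraMap (𝓞 Z) (𝓞 F) (AlgEquiv.restrictNormalHom Z g⁻¹ • x) from
      RingOfIntegers.ext (AlgEquiv.restrictNormal_commutes g⁻¹ Z (x : Z)).symm]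
  rfl

theorem split [IsAbelianGalois K F] (Q : Pr F) (Z : IntermediateField K F)
    (hZ : Z.fixingSubgroup = MulAction.stabilizer (F ≃ₐ[K] F) Q) :
    eI K (below Z Q) = 1 ∧ fI K (below Z Q) = 1 := by
  have h1 : MulAction.stabilizer (Z ≃ₐ[K] Z) (below Z Q) = ⊥ := by
    refine (Subgroup.eq_bot_iff_forall _).2 fun h hh => ?_
    obtain ⟨g, rfl⟩ := AlgEquiv.restrictNormalHom_surjective (F := K) (K₁ := Z) F h
    obtain ⟨k, hk⟩ := GalAux.trans (K := Z) (g • Q) Q ((below_res Z g Q).trans hh)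
    have h2 : k.restrictScalars K ∈ MulAction.stabilizer (F ≃ₐ[K] F) Q := by
      rw [← hZ, IntermediateField.mem_fixingSubgroup_iff]
      exact fun x hx => k.commutes ⟨x, hx⟩
    have h3 : k.restrictScalars K * g ∈ MulAction.stabilizer (F ≃ₐ[K] F) Q := by
      rw [MulAction.mem_stabilizer_iff, mul_smul]
      exact hk
    rw [← MonoidHom.mem_ker, IntermediateField.restrictNormalHom_ker, hZ]
    exact (Subgroup.mul_mem_cancel_left _ h2).1 h3
  have h2 := GalAux.card_stab (K := K) (below Z Q)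
  rw [h1, Subgroup.card_bot] at h2
  exact ⟨Nat.eq_one_of_mul_eq_one_right h2.symm, Nat.eq_one_of_mul_eq_one_left h2.symm⟩

end DecAux

theorem decS : DecA := by
  intro K F _ _ _ _ _ _ S Q hS hl
  obtain ⟨Z, hZ⟩ : ∃ Z : IntermediateField K F,
      Z.fixingSubgroup = MulAction.stabilizer (F ≃ₐ[K] F) Q :=
    ⟨_, IntermediateField.fixingSubgroup_fixedField _⟩
  have hT := hTow K F Z
  obtain ⟨e1, f1⟩ := DecAux.split Q Z hZ
  have hb := hT.below_below Q
  have hU : UnrO Z (S.erase (below K Q)) := fun R hR => by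
    by_cases h : below K R = below K Q
    · rw [GalAux.eI_eq (h.trans hb.symm), e1]
    · exact hT.bot S hS R fun h' => hR (Finset.mem_erase.2 ⟨h, h'⟩)
  have hf : fr K Z (below K Q) = 1 := by
    have := (hFr K Z).ord inferInstance (below Z Q) e1
    rwa [f1, hb, orderOf_eq_one_iff] at this
  obtain ⟨N, hN⟩ := hRec K Z _ hU
  refine ⟨N, fun x hx hp => ?_⟩
  have h4 : AlgEquiv.restrictNormalHom Z (artD F S (dv x)) = 1 := by
    rw [← hN x hx fun χ _ => hp χ]
    refine (map_ev (Γ := F ≃ₐ[K] F) (Γ' := Z ≃ₐ[K] Z) (AlgEquiv.restrictNormalHom Z) _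
      (dv x)).trans (ev_congr fun q hq => ?_)
    by_cases hq' : q ∈ S
    · have h5 : q = below K Q := by
        by_contra h
        exact hq (hx.og_eq (Finset.mem_erase.2 ⟨h, hq'⟩))
      rw [if_pos hq', map_one, h5, hf]
    · rw [if_neg hq']
      ext y
      exact (AlgEquiv.restrictNormal_commutes (fr K F q) Z y).trans
        (hT.res inferInstance S hS q hq' y)
  rwa [← MonoidHom.mem_ker, IntermediateField.restrictNormalHom_ker, hZ] at h4

end Pool.Agent.CD
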