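import Pool.Agent.Lib.MP_ca56d1_nt.CU.StC
import Pool.Agent.Lib.MP_ca56d1_nt.D.Frame
import Pool.Agent.Lib.MP_ca56d1_nt.D.Gen

/-! Definitions for the Galois side of the conjecture over a complex cubic field. -/

namespace Pool.Agent.CD

open NumberField IsDedekindDomain Pool.Agent.Stark Pool.Agent.Stark.AR Pool.Agent.StarkD
  Pool.Agent.CU StarkStmt
open scoped IsMulCommutative Classical

/-- `z` is a root of unity. -/
def Rt {R : Type*} [Monoid R] (z : R) : Prop := ∃ n : ℕ, n ≠ 0 ∧ z ^ n = 1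

theorem mu_iff {z : ℂ} : Mu z ↔ Rt z := Iff.rfl

namespace Rt

variable {R R' : Type*} [Field R] [Field R'] {x y z : R}

theorem one : Rt (1 : R) := ⟨1, one_ne_zero, one_pow _⟩

theorem ne_zero (h : Rt x) : x ≠ 0 := by
  rintro rfl
  obtain ⟨n, h1, h2⟩ := h
  rw [zero_pow h1] at h2
  exact zero_ne_one h2

theorem mul (h : Rt x) (h' : Rt y) : Rt (x * y) := by
  obtain ⟨n, h1, h2⟩ := h
  obtain ⟨m, h3, h4⟩ := h'
  exact ⟨n * m, mul_ne_zero h1 h3, by
    rw [mul_pow, pow_mul, h2, one_pow, mul_comm n, pow_mul, h4, one_pow, one_mul]⟩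

theorem inv (h : Rt x) : Rt x⁻¹ := h.imp fun _ h => ⟨h.1, by rw [inv_pow, h.2, inv_one]⟩

theorem div (h : Rt x) (h' : Rt y) : Rt (x / y) := div_eq_mul_inv x y ▸ h.mul h'.inv

theorem pow (h : Rt x) (k : ℕ) : Rt (x ^ k) :=
  h.imp fun _ h => ⟨h.1, by rw [← pow_mul, mul_comm, pow_mul, h.2, one_pow]⟩

theorem of_pow {k : ℕ} (hk : k ≠ 0) (h : Rt (x ^ k)) : Rt x := by
  obtain ⟨n, h1, h2⟩ := h
  exact ⟨k * n, mul_ne_zero hk h1, by rw [pow_mul, h2]⟩

theorem map {G : Type*} [FunLike G R R'] [RingHomClass G R R'] (f : G) (h : Rt x) : Rt (f x) :=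
  h.imp fun _ h => ⟨h.1, by rw [← map_pow, h.2, map_one]⟩

theorem of_map (f : R →+* R') (h : Rt (f x)) : Rt x :=
  h.imp fun _ h => ⟨h.1, f.injective (by rw [map_pow, h.2, map_one])⟩

theorem prod {ι : Type*} {s : Finset ι} {f : ι → R} (h : ∀ i ∈ s, Rt (f i)) : Rt (∏ i ∈ s, f i) :=
  Finset.prod_induction f Rt (fun _ _ => mul) one h

theorem symm (h : Rt (x / y)) : Rt (y / x) := inv_div x y ▸ h.inv

theorem trans (h : Rt (x / y)) (h' : Rt (y / z)) : Rt (x / z) := by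
  have h1 : y ≠ 0 := fun e => h.ne_zero (by rw [e, div_zero])
  have := h.mul h'
  rwa [div_mul_div_cancel₀ h1] at this

theorem norm_eq {z : ℂ} (h : Rt z) : ‖z‖ = 1 := by
  obtain ⟨n, h1, h2⟩ := h
  exact Complex.norm_eq_one_of_pow_eq_one h2 h1

theorem og_eq {F : Type} [Field F] [NumberField F] {x : F} (h : Rt x) (Q : Pr F) : og Q x = 0 := by
  have h0 := h.ne_zero
  obtain ⟨n, h1, h2⟩ := h
  have h3 := ord_pow (w := Q.valuation F) x n
  rw [h2, ord_one] at h3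
  exact (mul_eq_zero.1 h3.symm).resolve_left (Nat.cast_ne_zero.2 h1)

theorem og_div {F : Type} [Field F] [NumberField F] {x y : F} (h : Rt (x / y)) (Q : Pr F) :
    og Q x = og Q y := by
  have h0 := div_ne_zero_iff.1 h.ne_zero
  have h1 := h.og_eq Q
  rw [og, div_eq_mul_inv, ord_mul h0.1 (inv_ne_zero h0.2), ord_inv] at h1
  rw [og, og]
  omega

end Rt

variable {K : Type} [Field K] [NumberField K]

section Cubic

variable {ρ : K →+* ℝ} {σ : K →+* ℂ}

/-- The complex embeddings of a complex cubic field. -/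
theorem emb_cases (h : CC ρ σ) (ψ : K →+* ℂ) :
    ψ = Complex.ofRealHom.comp ρ ∨ ψ = σ ∨ ψ = (starRingEnd ℂ).comp σ := by
  obtain ⟨x, hx⟩ := h.nonreal
  have h1 : Complex.ofRealHom.comp ρ ≠ σ := fun e => hx (by rw [← e]; simp)
  have h2 : Complex.ofRealHom.comp ρ ≠ (starRingEnd ℂ).comp σ := fun e => hx (by
    simpa using congrArg Complex.im (RingHom.congr_fun e x))
  have h3 : σ ≠ (starRingEnd ℂ).comp σ := fun e => hx (by
    have := congrArg Complex.im (RingHom.congr_fun e x)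
    simp only [RingHom.comp_apply, Complex.conj_im] at this
    linarith)
  have hu : ({Complex.ofRealHom.comp ρ, σ, (starRingEnd ℂ).comp σ} : Finset (K →+* ℂ)) =
      Finset.univ := Finset.eq_univ_of_card _ (by
    rw [Embeddings.card K ℂ, h.three]
    exact Finset.card_eq_three.2 ⟨_, _, _, h1, h2, h3, rfl⟩)
  have := Finset.mem_univ ψ
  rwa [← hu, Finset.mem_insert, Finset.mem_insert, Finset.mem_singleton] at this

/-- A complex cubic field has one real embedding. -/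
theorem real_eq (h : CC ρ σ) (χ : K →+* ℝ) : χ = ρ := by
  obtain ⟨x, hx⟩ := h.nonreal
  rcases emb_cases h (Complex.ofRealHom.comp χ) with e | e | e
  · exact RingHom.ext fun y => Complex.ofReal_injective (RingHom.congr_fun e y)
  · exact absurd (by rw [← e]; simp) hx
  · exact absurd (by simpa using congrArg Complex.im (RingHom.congr_fun e x)) hx

theorem pos_of (h : CC ρ σ) {a : K} (ha : 0 < ρ a) : Pos a := fun χ => real_eq h χ ▸ ha

end Cubic

/-- `q` has degree one and `p = q q'`. -/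
def Gd (p : ℕ) (q : Pr K) : Prop := Ideal.absNorm q.asIdeal = p ∧ ∃ q', Spl p q q'

/-- The Kronecker congruences at the good primes. -/
def Kr (σ : K →+* ℂ) {ρ : K →+* ℝ} {S : Finset (Pr K)} {N : ℕ} (u : Cl ρ S N → ℂ) : Prop :=
  ∃ B : ℕ, ∀ p q, B < p → Gd p q → ∀ c, ∃ ξ : ℂ, Mu ξ ∧ ∀ O, Over σ q O →
    Cg O (u (c + cls ρ S N (pd q))) (ξ * u c ^ p)

/-- The properties of the values attached to ray classes. -/
structure CSys (ρ : K →+* ℝ) (σ : K →+* ℂ)
    (u : ∀ (S : Finset (Pr K)) (N : ℕ), Cl ρ S N → ℂ) : Prop where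
  alg : ∀ S N, S.Nonempty → ∀ c, u S N c ≠ 0 ∧ IsAlgebraic ℚ (u S N c)
  neg : ∀ S N, S.Nonempty → ∀ a c, Ray S N a → ρ a < 0 →
    Mu (u S N (c + cls ρ S N (dv a)) * u S N c)
  zeta : ∀ S N, S.Nonempty → ∀ c, ∃ Z, IsCont (czeta c) Z ∧ Z 0 = 0 ∧
    deriv Z 0 = ((-Real.log (‖u S N c‖ ^ 2) : ℝ) : ℂ)
  kron : ∀ S N, S.Nonempty → Kr σ (u S N)
  dist : ∀ S N, S.Nonempty → ∀ q ∉ S, ∀ d,
    Mu ((∏ᶠ c ∈ {c : Cl ρ (insert q S) N | cls ρ S N (c.out.erase q) = d}, u (insert q S) N c) *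
      u S N (d - cls ρ S N (pd q)) / u S N d)

/-- `γ` acts as the `p`-th power map modulo `Q`. -/
def Fb {M : Type} [Field M] [NumberField M] [Algebra K M] (p : ℕ) (Q : Pr M) (γ : M ≃ₐ[K] M) :
    Prop := ∀ x : 𝓞 M, γ • x - x ^ p ∈ Q.asIdeal

/-- The auxiliary prime `q` of the argument about the valuations at `l`. -/
structure Aux (ρ : K →+* ℝ) (S : Finset (Pr K)) (N : ℕ) (l q : Pr K) (t : K) (p r : ℕ) : Prop where
  pp : p.Prime
  pr : r.Prime
  odd : r ≠ 2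
  norm : Ideal.absNorm q.asIdeal = p
  dvd : r ∣ p - 1
  notMem : q ∉ S
  ne : q ≠ l
  supp : ∀ s, s ≠ l → og s t = 0
  ray : Ray (S.erase l) N t
  pos : 0 < ρ t
  unit : ∀ e, IsU e → e ^ ((p - 1) / r) - 1 ∈ pw (q.valuation K) 1
  npow : t ^ ((p - 1) / r) - 1 ∉ pw (q.valuation K) 1
  card : ¬ r ∣ Nat.card (Cl ρ S N)

variable (H : Type) [Field H] [NumberField H] [Algebra K H] [IsAbelianGalois K H]

/-- The product of the values over the classes with a given Artin symbol. -/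
noncomputable def pv {R : Type} [CommMonoid R] {ρ : K →+* ℝ} {S : Finset (Pr K)} {N : ℕ}
    (u : Cl ρ S N → R) (g : H ≃ₐ[K] H) : R := ∏ᶠ c ∈ {c | art H c = g}, u c

variable {H}

/-- The conjugates of `ε` are the products of the values, up to roots of unity. -/
def Stv (φ : H →+* ℂ) {ρ : K →+* ℝ} {S : Finset (Pr K)} {N : ℕ} (u : Cl ρ S N → ℂ) (ε : H) :
    Prop := ∀ g : H ≃ₐ[K] H, Rt (φ (g ε) / pv H u g ^ Units.torsionOrder H)

/-- The values lie in an extension `M`, whose automorphisms commute on them. -/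
structure Pre (φ : H →+* ℂ) {ρ : K →+* ℝ} {S : Finset (Pr K)} {N : ℕ} (u : Cl ρ S N → ℂ)
    {M : Type} [Field M] [NumberField M] [Algebra K M] [Algebra H M] [IsScalarTower K H M]
    (ι : M →+* ℂ) (U : Cl ρ S N → M) : Prop where
  emb : ∀ y : H, ι (algebraMap H M y) = φ y
  val : ∀ c, ι (U c) = u c
  act : ∀ γ : M ≃ₐ[K] M, ∃ a, art H a = AlgEquiv.restrictNormalHom H γ ∧
    ∀ c, Rt (γ (U c) / U (c + a))
  comm : ∀ (γ η : M ≃ₐ[K] M) c, γ (η (U c)) = η (γ (U c))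
  key : ∃ B : ℕ, ∀ p q, B < p → Gd p q → ∀ c (Q : Pr M) (γ : M ≃ₐ[K] M), below K Q = q →
    Fb p Q γ → Rt (γ (U c) / U (c + cls ρ S N (pd q)))

/-- The values lie in an abelian extension `F`, with the reciprocity law up to roots of unity. -/
structure Law (φ : H →+* ℂ) {ρ : K →+* ℝ} {S : Finset (Pr K)} {N : ℕ} (u : Cl ρ S N → ℂ)
    {F : Type} [Field F] [NumberField F] [Algebra K F] [Algebra H F] [IsScalarTower K H F]
    (ψ : F →+* ℂ) (U : Cl ρ S N → F) : Prop where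
  emb : ∀ y : H, ψ (algebraMap H F y) = φ y
  val : ∀ c, ψ (U c) = u c
  act : ∀ g : F ≃ₐ[K] F, ∃ a, art H a = AlgEquiv.restrictNormalHom H g ∧
    ∀ c, Rt (g (U c) / U (c + a))
  frob : ∃ B : ℕ, ∀ p q, B < p → Gd p q → ∀ c, Rt (fr K F q (U c) / U (c + cls ρ S N (pd q)))

end Pool.Agent.CD
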