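import Pool.Agent.Lib.MP_ca56d1_nt.CD.Fld
import Pool.Agent.Lib.MP_ca56d1_nt.D.Cov

/-! A ray class function of odd order that is trivial on good primes is trivial. -/

namespace Pool.Agent.CD

open NumberField IsDedekindDomain Pool.Agent.Stark Pool.Agent.Stark.AR Pool.Agent.StarkD
  Pool.Agent.CU StarkStmt Filter Topology
open scoped IsMulCommutative Classical

namespace DenGAux

theorem quad {K M : Type} [Field K] [Field M] [Algebra K M] [FiniteDimensional K M] [IsGalois K M]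
    (δ : M) (h1 : ∀ γ : M ≃ₐ[K] M, γ δ = δ ∨ γ δ = -δ) (h2 : ∃ γ : M ≃ₐ[K] M, γ δ ≠ δ) :
    ∃ (L : IntermediateField K M) (_ : IsAbelianGalois K L), Nat.card (L ≃ₐ[K] L) = 2 ∧
      ∀ γ : M ≃ₐ[K] M, γ δ = δ → AlgEquiv.restrictNormalHom L γ = 1 := by
  obtain ⟨a, ha⟩ := h2
  have ha' := (h1 a).resolve_left ha
  let G := MulAction.stabilizer (M ≃ₐ[K] M) δ
  have hi : G.index = 2 := Subgroup.index_eq_two_iff.2 ⟨a, fun b => by
    have e1 : b * a ∈ G ↔ -b δ = δ := by
      change b (a δ) = δ ↔ _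
      rw [ha', map_neg]
    have e2 : b ∈ G ↔ b δ = δ := Iff.rfl
    rw [e1, e2]
    rcases h1 b with e | e <;> rw [e]
    · exact Or.inr ⟨rfl, fun h => ha (ha'.trans h)⟩
    · exact Or.inl ⟨neg_neg _, fun h => ha (ha'.trans h)⟩⟩
  have hn := Subgroup.normal_of_index_eq_two hi
  have hc : Nat.card (IntermediateField.fixedField G ≃ₐ[K] IntermediateField.fixedField G) = 2 :=
    (Nat.card_congr (IsGalois.normalAutEquivQuotient G).toEquiv).symm.trans hi
  have : Fact (Nat.Prime 2) := ⟨Nat.prime_two⟩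
  have hy := isCyclic_of_prime_card hc
  refine ⟨IntermediateField.fixedField G, { toIsMulCommutative := ⟨⟨fun x y => ?_⟩⟩ }, hc,
    fun γ hγ => ?_⟩
  · exact (IsCyclic.commGroup (α := IntermediateField.fixedField G ≃ₐ[K]
      IntermediateField.fixedField G)).mul_comm x y
  · refine AlgEquiv.ext fun x => Subtype.ext ?_
    exact (AlgEquiv.restrictNormal_commutes γ _ x).trans (x.2 ⟨γ, hγ⟩)

variable {K : Type} [Field K] [NumberField K]

theorem half (hL : LocA) (hG : GoodSt (K := K)) (B : ℕ) (P : Set (Pr K)) (S : Finset (Pr K))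
    (hP : ∀ p q, B < p → Gd p q → q ∉ S → q ∈ P) : ∃ f : ℝ → ℝ,
      Tendsto (fun s => f s / Real.log (1 / (s - 1))) (𝓝[>] 1) (𝓝 (1 / (2 : ℕ))) ∧
      ∀ s, 1 < s → f s ≤ ps P s := by
  obtain ⟨φ⟩ : Nonempty (K →+* ℂ) := inferInstance
  obtain ⟨M, _, _, _, -, -, -, hM, -⟩ := exists_fld K φ ∅ Set.finite_empty (by simp)
  have : IsGalois K M := IsGalois.tower_top_of_isGalois ℚ K M
  obtain ⟨δ, h1, h2, B', hB⟩ := hG M hM
  obtain ⟨L, hab, hc, hr⟩ := quad δ h1 h2
  have : NumberField L := NumberField.of_module_finite K L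
  obtain ⟨S1, hS1⟩ : ∃ S1 : Finset (Pr K), UnrO L S1 :=
    ⟨(ram_finite (F := K) (K := L)).toFinset.image (below K), fun Q hQ => by
      by_contra h
      exact hQ (Finset.mem_image_of_mem _ ((Set.Finite.mem_toFinset _).2 h))⟩
  have hT : {q : Pr K | Ideal.absNorm q.asIdeal ≤ max B B'}.Finite :=
    (Ideal.finite_setOfPred_absNorm_le (max B B')).preimage PsAux.inj.injOn
  set T := S ∪ S1 ∪ hT.toFinset with hT'
  set A : Set (Pr K) := {q | q ∉ S1 ∧ fr K L q ∈ (⊥ : Subgroup (L ≃ₐ[K] L))} with hA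
  set C : ℝ := T.card + 2 * (Module.finrank ℤ (𝓞 K) : ℝ) with hC
  refine ⟨fun s => ps (Set.univ : Set (Pr K)) s - ps A s - C, ?_, fun s hs => ?_⟩
  · have h3 := (hSpl K L).lim hab S1 hS1 ⊥
    rw [Subgroup.index_bot, hc] at h3
    have h4 := ((psS K).lim.sub h3).sub (SecAux.log_top.const_div_atTop C)
    convert h4 using 1
    · ext s
      rw [sub_div, sub_div]
    · norm_num
  · have h3 := PsAux.fin T (Set.univ : Set (Pr K)) hs
    have h4 := PsAux.nonprime (F := K) hs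
    have h5 := PsAux.union (P := {q | q ∉ T ∧ q ∈ (Set.univ : Set (Pr K))})
      (A := {q : Pr K | ¬ (Ideal.absNorm q.asIdeal).Prime}) (B := A ∪ P) hs ?_
    · have h6 := PsAux.union (P := A ∪ P) (A := A) (B := P) hs fun _ h => h
      linarith
    rintro q ⟨hq, -⟩
    simp only [hT', Finset.mem_union, Set.Finite.mem_toFinset, Set.mem_ofPred_eq, not_or,
      not_le, max_lt_iff] at hq
    by_cases hp : (Ideal.absNorm q.asIdeal).Prime
    · refine Or.inr (or_iff_not_imp_left.2 fun h => ?_)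
      obtain ⟨Q, rfl⟩ := below_surj (K := M) q
      obtain ⟨γ, hγ⟩ := (hL M).exFb K Q
      have hQ : ((Ideal.absNorm (below K Q).asIdeal : ℕ) : 𝓞 M) ∈ Q.asIdeal := by
        have h6 : algebraMap (𝓞 K) (𝓞 M) (Ideal.absNorm (below K Q).asIdeal : ℕ) ∈ Q.asIdeal :=
          Ideal.absNorm_mem (below K Q).asIdeal
        rwa [map_natCast] at h6
      refine hP _ _ hq.2.1 (hB _ hq.2.2 hp Q γ hQ hγ fun e => h ⟨hq.1.2, ?_⟩) hq.1.1
      rw [← (res_frob hS1 γ Q hp hQ hq.1.2 hγ).2, hr γ e]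
      exact one_mem _
    · exact Or.inl hp

end DenGAux

variable {K : Type} [Field K] [NumberField K] {ρ : K →+* ℝ}

theorem denS (hL : LocA) (hG : GoodSt (K := K)) : DenGSt ρ := by
  intro S N B Γ _ _ d ho hd hg
  set A := Subgroup.closure (d '' {q | q ∉ S}) with hA
  have hm : ∀ q ∉ S, d q ∈ A := fun q hq => Subgroup.subset_closure ⟨q, hq, rfl⟩
  set c : Pr K → A := fun q => if h : q ∈ S then 1 else ⟨d q, hm q h⟩ with hc
  have hc1 : ∀ q ∉ S, (c q).1 = d q := fun q hq => by simp only [hc, dif_neg hq]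
  have hw : WRay S N c := fun a ha => by
    refine Subtype.ext ?_
    have h3 : (ev c (dv a)).1 = ev d (dv a) :=
      (map_ev A.subtype c _).trans (ev_congr fun q hq => hc1 q fun hS => hq (ha.og_eq hS))
    have h4 := hd (a * a) (ha.mul ha) (by
      rw [map_mul]
      exact mul_self_pos.2 ((map_ne_zero ρ).2 ha.1))
    rw [dv_mul ha.1 ha.1, ev_add, ← pow_two] at h4
    rw [h3]
    exact orderOf_eq_one_iff.1 (Nat.eq_one_of_dvd_coprimes (Nat.coprime_two_left.2 ho)
      (orderOf_dvd_of_pow_eq_one h4) (orderOf_dvd_natCard _))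
  have ht : Subgroup.closure (c '' {q | q ∉ S}) = ⊤ := by
    rw [eq_top_iff, ← Subgroup.closure_closure_coe_preimage (k := d '' {q | q ∉ S})]
    refine Subgroup.closure_mono ?_
    rintro x ⟨q, hq, hx⟩
    exact ⟨q, hq, Subtype.ext ((hc1 q hq).trans hx)⟩
  obtain ⟨C, hC⟩ := hDen K S N c hw ht
  obtain ⟨f, hf, hf'⟩ := DenGAux.half hL hG B {q | q ∉ S ∧ c q = 1} S fun p q hp hq hS =>
    ⟨hS, Subtype.ext ((hc1 q hS).trans (hg p q hp hq))⟩
  have h1 : Nat.card A ≤ 2 := SecAux.le_of_lim two_ne_zero hf (C := C) (by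
    filter_upwards [hC, self_mem_nhdsWithin] with s h hs
    exact (mul_le_mul_of_nonneg_left (hf' s hs) (Nat.cast_nonneg _)).trans h)
  have h2 : Odd (Nat.card A) := ho.of_dvd_nat (Subgroup.card_subgroup_dvd_card A)
  have h3 : A = ⊥ := Subgroup.card_eq_one.1 (by
    obtain ⟨k, hk⟩ := h2
    omega)
  exact fun q hq => Subgroup.mem_bot.1 (h3 ▸ hm q hq)

end Pool.Agent.CD
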