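import Pool.Agent.Lib.MP_ca56d1_nt.CD.Fld

/-! Descent of a root of unity that does not depend on the valuation ring. -/

namespace Pool.Agent.CD

open NumberField IsDedekindDomain Pool.Agent.Stark Pool.Agent.Stark.AR Pool.Agent.StarkD
  Pool.Agent.CU StarkStmt
open scoped IsMulCommutative Classical

namespace DescAux

theorem split {p : ℕ} (hp : p.Prime) {ξ : ℂ} (h : Mu ξ) : ∃ (ξ' w : ℂ) (m k : ℕ), ¬ p ∣ m ∧
    ξ' ^ m = 1 ∧ w ^ p ^ k = 1 ∧ ξ = ξ' * w := by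
  have h0 : ξ ≠ 0 := Rt.ne_zero h
  obtain ⟨n, hn, h1⟩ := h
  obtain ⟨k, m, hm, rfl⟩ := Nat.exists_eq_pow_mul_and_not_dvd hn p hp.ne_one
  obtain ⟨a, b, hab⟩ := Nat.isCoprime_iff_coprime.2
    (Nat.Coprime.pow_left k (hp.coprime_iff_not_dvd.2 hm))
  have h2 : ξ ^ ((p ^ k * m : ℕ) : ℤ) = 1 := by rw [zpow_natCast, h1]
  refine ⟨ξ ^ (a * (p ^ k : ℕ)), ξ ^ (b * m), m, k, hm, ?_, ?_, ?_⟩
  · rw [← zpow_natCast, ← zpow_mul, mul_assoc, ← Nat.cast_mul, mul_comm a, zpow_mul, h2, one_zpow]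
  · rw [← zpow_natCast, ← zpow_mul, mul_assoc, ← Nat.cast_mul, mul_comm m, mul_comm b, zpow_mul,
      h2, one_zpow]
  · rw [← zpow_add₀ h0, hab, zpow_one]

theorem val_one (O : ValuationSubring ℂ) {w : ℂ} {n : ℕ} (hn : n ≠ 0) (h : w ^ n = 1) :
    O.valuation w = 1 := by
  have := congrArg O.valuation h
  rw [map_pow, map_one] at this
  exact (pow_eq_one_iff_of_nonneg zero_le hn).1 this

theorem val_sub (O : ValuationSubring ℂ) {p : ℕ} (hp : p.Prime) (hO : O.valuation p < 1) {w : ℂ}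
    {k : ℕ} (h : w ^ p ^ k = 1) : O.valuation (w - 1) < 1 := by
  have : Fact p.Prime := ⟨hp⟩
  have hw : w ∈ O := (O.valuation_le_one_iff w).1 (val_one O (pow_ne_zero k hp.ne_zero) h).le
  have h1 : ((p : O) : ℂ) = p := by simp
  have h2 : IsLocalRing.residue O p = 0 :=
    (IsLocalRing.residue_eq_zero_iff _).2 ((O.valuation_lt_one_iff _).2 (by rwa [h1]))
  rw [map_natCast] at h2
  have : CharP (IsLocalRing.ResidueField O) p := (CharP.charP_iff_prime_eq_zero hp).2 h2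
  have h3 : (⟨w, hw⟩ : O) ^ p ^ k = 1 := Subtype.ext (by simpa using h)
  have h4 : IsLocalRing.residue O (⟨w, hw⟩ - 1) ^ p ^ k = 0 := by
    rw [map_sub, sub_pow_char_pow, ← map_pow, h3, map_one, one_pow, sub_self]
  have h5 := (O.valuation_lt_one_iff _).1
    ((IsLocalRing.residue_eq_zero_iff _).1 (pow_eq_zero_iff (pow_ne_zero k hp.ne_zero) |>.1 h4))
  simpa using h5

end DescAux

open DescAux in
theorem descS (hL : LocA) : DescSt := by
  intro p ξ hp hξ
  obtain ⟨ξ', w, m, k, hm, h1, h2, rfl⟩ := split hp hξ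
  have hm0 : m ≠ 0 := fun e => hm (e ▸ dvd_zero p)
  refine ⟨ξ', ⟨m, hm0, h1⟩, fun M _ _ ι Q y hQ hy => ?_⟩
  have hc : ∀ O, Over ι Q O → O.valuation (ι y - ξ') < 1 := fun O hO => by
    have h3 : O.valuation p < 1 := by simpa using (hO p).2 hQ
    have h4 : O.valuation (ξ' * (w - 1)) < 1 := by
      rw [map_mul, val_one O hm0 h1, one_mul]
      exact val_sub O hp h3 h2
    have h5 := O.valuation.map_add_lt (hy O hO) h4
    convert h5 using 2
    ring
  obtain ⟨M', _, _, _, _, _, ι', hG, h3, h4⟩ := exists_fld M ι {ξ'} (Set.finite_singleton _)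
    (fun z hz => by
      rw [Set.mem_singleton_iff.1 hz]
      exact (IsIntegral.of_pow (Nat.pos_of_ne_zero hm0) (h1 ▸ isIntegral_one)).isAlgebraic)
  rename_i i1 i2 i3
  clear i3 i1
  have : IsGalois M M' := IsGalois.tower_top_of_isGalois ℚ M M'
  obtain ⟨z, hz⟩ := h4 ξ' rfl
  have hzm : z ^ m = 1 := ι'.injective (by rw [map_pow, hz, h1, map_one])
  have hzr : Rt z := ⟨m, hm0, hzm⟩
  have key : ∀ Q₁ : Pr M', below M Q₁ = Q → algebraMap M M' y - z ∈ pw (Q₁.valuation M') 1 := by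
    intro Q₁ hQ₁
    obtain ⟨O, hO⟩ := (hL M').ex ι' Q₁
    refine ((hL M').lt ι' Q₁ O hO _).1 ?_
    rw [map_sub, h3, hz]
    refine hc O fun x => ?_
    have h5 := hO (algebraMap (𝓞 M) (𝓞 M') x)
    rw [← h3, ← hQ₁]
    exact h5
  obtain ⟨Q₁, hQ₁⟩ := below_surj (K := M') Q
  have hfix : ∀ g : M' ≃ₐ[M] M', g z = z := fun g => by
    have e : below M (g • Q₁) = Q := ((gal M M').below_smul g Q₁).trans hQ₁
    have h5 := ((gal M M').pw_smul g Q₁ _ 1).2 (key Q₁ hQ₁)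
    rw [map_sub, g.commutes] at h5
    have h6 := pw_mul (sub_mem (key _ e) h5)
      (ComplAux.mem_pw_zero.2 (hzr.inv.og_eq (g • Q₁)).ge)
    have h7 : g z / z = 1 := by
      refine (hL M').root (g • Q₁) m _ (fun hmem => ?_) ?_ ?_
      · have hpm : (p : 𝓞 M') ∈ (g • Q₁).asIdeal := by
          rw [← e] at hQ
          change algebraMap (𝓞 M) (𝓞 M') p ∈ (g • Q₁).asIdeal at hQ
          rwa [map_natCast] at hQ
        obtain ⟨a, b, hab⟩ := Nat.Coprime.cast (R := 𝓞 M') (hp.coprime_iff_not_dvd.2 hm)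
        exact (g • Q₁).isPrime.ne_top ((Ideal.eq_top_iff_one _).2
          (hab ▸ add_mem (Ideal.mul_mem_left _ _ hpm) (Ideal.mul_mem_left _ _ hmem)))
      · rw [div_pow, ← map_pow, hzm, map_one, div_one]
      · rw [add_zero] at h6
        convert h6 using 1
        have := hzr.ne_zero
        field_simp
        ring
    exact (div_eq_one_iff_eq hzr.ne_zero).1 h7
  obtain ⟨ζ, rfl⟩ := IntermediateField.mem_bot.1 ((IsGalois.mem_bot_iff_fixed z).2 hfix)
  rw [h3] at hz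
  obtain ⟨O, hO⟩ := (hL M).ex ι Q
  exact ⟨ζ, hz, ((hL M).lt ι Q O hO _).1 (by rw [map_sub, hz]; exact hc O hO)⟩

end Pool.Agent.CD
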