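import Pool.Agent.Lib.MP_ca56d1_nt.CD.Fld

/-! The distribution relation over the fibres of the Artin map. -/

namespace Pool.Agent.CD

open NumberField IsDedekindDomain Pool.Agent.Stark Pool.Agent.Stark.AR Pool.Agent.StarkD
  Pool.Agent.CU StarkStmt
open scoped IsMulCommutative Classical

variable {K : Type} [Field K] [NumberField K] {ρ : K →+* ℝ} {σ : K →+* ℂ}
  {H : Type} [Field H] [NumberField H] [Algebra K H] [IsAbelianGalois K H]

namespace DistAux

omit [NumberField H] in
theorem artD_ins (S : Finset (Pr K)) (q : Pr K) (D : Dv K) :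
    artD H (insert q S) D = artD H S (D.erase q) := by
  conv_lhs => rw [← Finsupp.erase_add_single q D]
  rw [artD, ev_add, ev_single, if_pos (Finset.mem_insert_self q S), one_zpow, mul_one]
  refine ev_congr fun s hs => ?_
  have h : s ≠ q := fun e => hs (e ▸ Finsupp.erase_same)
  simp only [Finset.mem_insert, h, false_or]

theorem fp {C : Type} [Fintype C] (P : C → Prop) [DecidablePred P] (f : C → ℂ) :
    ∏ᶠ c ∈ {c | P c}, f c = ∏ c ∈ Finset.univ.filter P, f c :=
  finprod_mem_eq_prod_of_inter_mulSupport_eq _ (by simp)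

end DistAux

open DistAux in
theorem distS : DistSt ρ σ H := by
  intro u hu S N hS hR q hq g
  have := GenAux.fin ρ S N
  have := GenAux.fin ρ (insert q S) N
  have := Fintype.ofFinite (Cl ρ S N)
  have := Fintype.ofFinite (Cl ρ (insert q S) N)
  have h1 : ∀ c : Cl ρ (insert q S) N, art H (cls ρ S N (c.out.erase q)) = art H c := fun c => by
    rw [ArtH.art_cls hR, art, artD_ins]
  have h2 : ∀ d, art H (d - cls ρ S N (pd q)) = art H d * (fr K H q)⁻¹ := fun d => by
    rw [eq_mul_inv_iff_mul_eq, ← ArtH.artS.prime S N hR q hq, ← ArtH.artS.add S N hR,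
      sub_add_cancel]
  have h3 : pv H (u (insert q S) N) g = ∏ d ∈ Finset.univ.filter fun d => art H d = g,
      ∏ᶠ c ∈ {c : Cl ρ (insert q S) N | cls ρ S N (c.out.erase q) = d}, u (insert q S) N c := by
    rw [pv, fp, ← Finset.prod_fiberwise_of_maps_to (g := fun c => cls ρ S N (c.out.erase q))
      (t := Finset.univ.filter fun d => art H d = g) fun c hc => by simpa [h1] using hc]
    refine Finset.prod_congr rfl fun d hd => ?_
    rw [fp, Finset.filter_filter]
    refine Finset.prod_congr (Finset.filter_congr fun c _ => and_iff_right_of_imp fun h => ?_)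
      fun _ _ => rfl
    rw [← h1, h]
    simpa using hd
  have h4 : pv H (u S N) (g * (fr K H q)⁻¹) =
      ∏ d ∈ Finset.univ.filter fun d => art H d = g, u S N (d - cls ρ S N (pd q)) := by
    rw [pv, fp]
    exact (Finset.prod_equiv (Equiv.subRight (cls ρ S N (pd q))) (fun d => by simp [h2])
      fun _ _ => rfl).symm
  rw [div_div_eq_mul_div, h3, h4, pv, fp, ← Finset.prod_mul_distrib, ← Finset.prod_div_distrib]
  exact Rt.prod fun d _ => hu.dist S N hS q hq d

end Pool.Agent.CD
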