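import Pool.Agent.Lib.MP_ca56d1_nt.CD.Fld

/-! Divisibility of the valuations at the auxiliary level. -/

namespace Pool.Agent.CD

open NumberField IsDedekindDomain Pool.Agent.Stark Pool.Agent.Stark.AR Pool.Agent.StarkD
  Pool.Agent.CU StarkStmt
open scoped IsMulCommutative Classical

variable {K : Type} [Field K] [NumberField K] {ρ : K →+* ℝ} {σ : K →+* ℂ}
  {H : Type} [Field H] [NumberField H] [Algebra K H] [IsAbelianGalois K H]

namespace DivAux

omit [NumberField K] in
theorem ev_hom {A : Type} [AddCommGroup A] (f : Dv K →+ A) (D : Dv K) :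
    ev (fun s => Multiplicative.ofAdd (f (pd s))) D = Multiplicative.ofAdd (f D) := by
  induction D using Finsupp.induction_linear with
  | zero => rw [ev_zero, map_zero, ofAdd_zero]
  | add D D' h h' => rw [ev_add, h, h', map_add, ofAdd_add]
  | single q n => rw [ev_single, ← ofAdd_zsmul, ← map_zsmul, Finsupp.smul_single_one]

omit [NumberField K] in
theorem ev_div {Γ : Type} [CommGroup Γ] (c c' : Pr K → Γ) (D : Dv K) :
    ev (fun s => c s / c' s) D = ev c D / ev c' D := by
  simp only [ev, Finsupp.prod, div_zpow, Finset.prod_div_distrib]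

omit [NumberField K] in
theorem ev_one {Γ : Type} [CommGroup Γ] (c : Pr K → Γ) (D : Dv K) (h : ∀ s, D s ≠ 0 → c s = 1) :
    ev c D = 1 := by
  rw [ev_congr h]
  simp only [ev, Finsupp.prod, one_zpow, Finset.prod_const_one]

omit [NumberField H] in
theorem og_pv {F : Type} [Field F] [NumberField F] {S : Finset (Pr K)} {N : ℕ}
    (U : Cl ρ S N → F) (hU : ∀ c, U c ≠ 0) (Q : Pr F) (g : H ≃ₐ[K] H) :
    og Q (pv H U g) = ∑ᶠ c ∈ {c | art H c = g}, og Q (U c) := by
  have := GenAux.fin ρ S N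
  have hf : {c : Cl ρ S N | art H c = g}.Finite := Set.toFinite _
  rw [pv, finprod_mem_eq_finite_toFinset_prod _ hf, finsum_mem_eq_finite_toFinset_sum _ hf,
    GalAux.og_prod Q _ _ hU]

theorem exists_unr (F : Type) [Field F] [NumberField F] [Algebra K F] (T : Finset (Pr K)) :
    ∃ S' : Finset (Pr K), T ⊆ S' ∧ UnrO F S' := by
  refine ⟨T ∪ (ram_finite (F := K) (K := F)).toFinset.image (below K), Finset.subset_union_left,
    fun Q hQ => ?_⟩
  by_contra h
  exact hQ (Finset.mem_union_right _ (Finset.mem_image_of_mem _ ((Set.Finite.mem_toFinset _).2 h)))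

/-- The character of the Galois group attached to a character of the class group. -/
theorem exists_hom {C F : Type} [AddCommGroup C] [Field F] [NumberField F] [Algebra K F]
    {r : ℕ} (U : C → F) (Q : Pr F) (κ : C →+ ZMod r)
    (hκ : ∀ a, (∀ c, og Q (U (c + a)) = og Q (U c)) → κ a = 0)
    (act : ∀ g : F ≃ₐ[K] F, ∃ a, ∀ c, Rt (g (U c) / U (c + a))) :
    ∃ ι : (F ≃ₐ[K] F) →* Multiplicative (ZMod r),
      (∀ g a, (∀ c, Rt (g (U c) / U (c + a))) → ι g = Multiplicative.ofAdd (κ a)) ∧
      ∀ g, g • Q = Q → ι g = 1 := by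
  choose a ha using act
  have wd : ∀ (g : F ≃ₐ[K] F) x, (∀ c, Rt (g (U c) / U (c + x))) → κ (a g) = κ x := by
    intro g x hx
    rw [← sub_eq_zero, ← map_sub]
    refine hκ _ fun c => ?_
    have h1 := ((ha g (c - x)).symm.trans (hx (c - x))).og_div Q
    rwa [sub_add_cancel, show c - x + a g = c + (a g - x) by abel] at h1
  refine ⟨MonoidHom.mk' (fun g => Multiplicative.ofAdd (κ (a g))) fun g h => ?_,
    fun g x hx => congrArg Multiplicative.ofAdd (wd g x hx), fun g hg => ?_⟩
  · rw [← ofAdd_add, ← map_add, add_comm]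
    refine congrArg Multiplicative.ofAdd (wd _ _ fun c => ?_)
    have h1 := (ha h c).map g
    rw [map_div₀] at h1
    have h2 := h1.trans (ha g (c + a h))
    rwa [add_assoc] at h2
  · refine congrArg Multiplicative.ofAdd (hκ _ fun c => ?_)
    have h1 := (gal K F).og_smul g Q (U c)
    rw [hg] at h1
    rw [← (ha g c).og_div Q, h1]

end DivAux

open DivAux

theorem divS (hK : CC ρ σ) (hF : FibSt) (hD : DecA) (hN : DenGSt ρ) (hR : RaySt ρ) :
    DivSt ρ H := by
  intro S N l q t p r u φ F _ _ _ _ _ _ ψ U hA hRc hr hL Q hQ g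
  have hfin := GenAux.fin ρ (insert q S) N
  have hU : ∀ c, U c ≠ 0 := fun c => by
    obtain ⟨a, -, ha⟩ := hL.act 1
    exact (div_ne_zero_iff.1 (ha c).ne_zero).1
  rcases hF (art H) (fun c => og Q (U c)) r hA.pr (ArtH.artS.add _ _ hRc) hr
    (hR.ord S N l q t p r hA) with h | ⟨κ, hκ0, hκ⟩
  · rw [og_pv U hU]
    exact h g
  refine absurd ?_ hκ0
  obtain ⟨ι, hι, hst⟩ := exists_hom (K := K) U Q κ hκ fun g => (hL.act g).imp fun _ h => h.2
  obtain ⟨S', hS', hunr⟩ := exists_unr (K := K) F (insert l (insert q S))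
  have hl : l ∈ S' := hS' (Finset.mem_insert_self _ _)
  have hsub : insert q S ⊆ S' := (Finset.subset_insert _ _).trans hS'
  obtain ⟨N1, hN1⟩ := hRec K F S' hunr
  obtain ⟨B, hB⟩ := hL.frob
  have : Fact r.Prime := ⟨hA.pr⟩
  have hd := hN S' (max N N1) B (fun s => ι (fr K F s) /
      Multiplicative.ofAdd ((κ.comp (cls ρ (insert q S) N)) (pd s))) (by
      rw [Nat.card_congr Multiplicative.toAdd, Nat.card_zmod]
      exact hA.pr.odd_of_ne_two hA.odd) (fun a ha hp => by
      have h1 := hN1 a (ha.mono subset_rfl (le_max_right _ _)) fun χ _ => pos_of hK hp χ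
      have h2 : cls ρ (insert q S) N 0 = cls ρ (insert q S) N (dv a) :=
        cls_eq.2 ⟨a, ha.mono hsub (le_max_left _ _), hp, fun s _ => by simp⟩
      rw [ev_div, ev_hom, ← map_ev ι (fr K F) (dv a), h1, map_one, AddMonoidHom.comp_apply, ← h2,
        map_zero, map_zero, ofAdd_zero, div_one])
    fun p' s hp hs => div_eq_one.2 (hι _ _ (hB p' s hp hs))
  obtain ⟨N3, hN3⟩ := hD K F S' Q hunr (hQ ▸ hl)
  rw [hQ] at hN3
  refine hR.gen S N l q t p r hA κ S' N3 hsub hl fun a ha hx hp => ?_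
  have h1 := hst _ (hN3 _ hx (pos_of hK (by rw [map_div₀]; exact div_pos hp hA.pos)))
  rw [artD, map_ev ι, div_eq_mul_inv, dv_mul ha.1 (inv_ne_zero hA.ray.1), dv_inv, ev_add, ev_neg,
    ev_one _ (dv t) fun s hs => by
      have e : s = l := by_contra fun e => hs (hA.supp s e)
      rw [e, if_pos hl, map_one], inv_one, mul_one] at h1
  have h2 := ev_hom (κ.comp (cls ρ (insert q S) N)) (dv a)
  rw [ev_congr (c' := fun s => ι (if s ∈ S' then 1 else fr K F s)) fun s hs => by
    have e : s ∉ S' := fun e => hs (ha.2 s e)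
    rw [if_neg e]
    exact (div_eq_one.1 (hd s e)).symm, h1] at h2
  exact h2.symm

end Pool.Agent.CD
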