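import Pool.Agent.Lib.MP_ca56d1_nt.CD.Fld

/-! From the explicit data to the statement of the conjecture over a complex cubic field. -/

namespace Pool.Agent.CD

open NumberField IsDedekindDomain Pool.Agent.Stark Pool.Agent.Stark.AR Pool.Agent.StarkD
  Pool.Agent.CU StarkStmt
open scoped IsMulCommutative Classical

variable {K : Type} [Field K] [NumberField K] {ρ : K →+* ℝ} {σ : K →+* ℂ}
  {H : Type} [Field H] [NumberField H] [Algebra K H] [IsAbelianGalois K H]

namespace EndAux

theorem pv_eq {R : Type} [CommMonoid R] {S : Finset (Pr K)} {N : ℕ} [Fintype (Cl ρ S N)]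
    (u : Cl ρ S N → R) (g : H ≃ₐ[K] H) :
    pv H u g = ∏ c ∈ Finset.univ.filter fun c => art H c = g, u c :=
  finprod_mem_eq_prod_of_inter_mulSupport_eq _ (by simp)

theorem lsum_eq {S : Finset (Pr K)} {N : ℕ} [Fintype (Cl ρ S N)]
    (V : Cl ρ S N → ℝ) (g : H ≃ₐ[K] H) :
    lsum H V g = ∑ c ∈ Finset.univ.filter fun c => art H c = g, Real.log (V c) :=
  finsum_mem_eq_sum_of_inter_support_eq _ (by simp)

theorem pv_shift {R : Type} [CommMonoid R] {S : Finset (Pr K)} {N : ℕ} (hR : Rec H ρ S N)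
    (u : Cl ρ S N → R) (a : Cl ρ S N) (g : H ≃ₐ[K] H) :
    pv H u (g * art H a) = pv H (fun c => u (c + a)) g := by
  unfold pv
  refine (finprod_mem_eq_of_bijOn (fun c => c + a) ⟨fun c hc => ?_, fun c _ c' _ h => ?_,
    fun c hc => ⟨c - a, ?_, sub_add_cancel c a⟩⟩ fun c _ => rfl).symm
  · change art H (c + a) = _
    rw [ArtH.artS.add S N hR, show art H c = g from hc]
  · exact add_right_cancel h
  · have h1 := ArtH.artS.add S N hR (c - a) a
    rw [sub_add_cancel, show art H c = g * art H a from hc] at h1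
    exact (mul_right_cancel h1).symm

end EndAux

theorem endS (hK : CC ρ σ) : CD.EndSt ρ σ H := by
  intro u hu S N φ ε τ hS hR hτ hsg hφ hst hog hA
  have hfin := GenAux.fin ρ S N
  have := Fintype.ofFinite (Cl ρ S N)
  have hne : ∀ c, u S N c ≠ 0 := fun c => (hu.alg S N hS c).1
  have hpv : ∀ g, pv H (u S N) g ≠ 0 := fun g => by
    rw [EndAux.pv_eq]
    exact Finset.prod_ne_zero_iff.2 fun c _ => hne c
  choose Z hZ1 hZ2 hZ3 using ArtH.zetaS ArtH.artS S N (fun c => (‖u S N c‖ ^ 2)⁻¹) hR hfin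
    fun c => (hu.zeta S N hS c).imp fun Z h => ⟨h.1, h.2.1, by rw [h.2.2, Real.log_inv]⟩
  obtain ⟨a₀, ha₀, hs₀⟩ := (rayT K).sgn S N fun _ => False
  have hn₀ : ρ a₀ < 0 := by
    have h4 : ρ a₀ ≠ 0 := by simpa using ha₀.1
    exact lt_of_le_of_ne (not_lt.1 (hs₀ ρ).1) h4
  obtain ⟨t, ht⟩ : ∃ t, t = ev (fr K H) (dv a₀) := ⟨_, rfl⟩
  have h1 : Rt (pv H (u S N) t * pv H (u S N) 1) := by
    rw [ht, ← ArtH.artS.prin S N hR a₀ (PS.of_ray ha₀), ← one_mul (art H _), EndAux.pv_shift hR,
      EndAux.pv_eq, EndAux.pv_eq, ← Finset.prod_mul_distrib]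
    exact Rt.prod fun c _ => mu_iff.1 (hu.neg S N hS a₀ c ha₀ hn₀)
  have h2 : Rt (t ε * ε) := by
    refine Rt.of_map φ ?_
    have h3 := ((hst t).mul (hst 1)).mul (h1.pow (Units.torsionOrder H))
    have h4 := hpv t
    have h5 := hpv 1
    rw [AlgEquiv.one_apply] at h3
    convert h3 using 1
    rw [map_mul, mul_pow]
    field_simp
  have h0 := mul_ne_zero_iff.1 h2.ne_zero
  have hU : IsU ε := ⟨h0.2, fun Q => by
    have h3 := h2.og_eq Q
    have h4 := hog Q t
    rw [og, ord_mul h0.1 h0.2] at h3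
    rw [og, og] at h4
    rw [og]
    omega⟩
  have hσ : φ.comp (algebraMap K H) = σ := RingHom.ext hφ
  refine ⟨Z, ε, hZ1, hU.1, ⟨finitePlace_eq_one hU, fun w hw => ?_⟩, fun g => ?_, hA⟩
  · rcases emb_cases hK (w.embedding.comp (algebraMap K H)) with e | e | e
    · have h3 : ‖w.embedding (t ε)‖ = ‖w.embedding ε‖ := by
        rcases hsg a₀ ha₀ with h | h
        · rw [ht, h, AlgEquiv.one_apply]
        · rw [ht, h, hτ w.embedding (fun x => RingHom.congr_fun e x) ε, Complex.norm_conj]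
      have h4 := (h2.map w.embedding).norm_eq
      rw [map_mul, norm_mul, h3, InfinitePlace.norm_embedding_eq] at h4
      exact (mul_self_eq_one_iff.1 h4).resolve_right (by linarith [apply_nonneg w ε])
    · refine absurd ?_ hw
      rw [← w.mk_embedding, InfinitePlace.comap_mk, e, InfinitePlace.comap_mk, hσ]
    · refine absurd ?_ hw
      rw [← w.mk_embedding, InfinitePlace.comap_mk, e, InfinitePlace.comap_mk, hσ]
      exact InfinitePlace.mk_conjugate_eq σ
  · have hc : (InfinitePlace.mk φ).IsComplex := InfinitePlace.isComplex_mk_iff.2 fun h => by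
      obtain ⟨x, hx⟩ := hK.nonreal
      have h3 := RingHom.congr_fun (ComplexEmbedding.isReal_iff.1 h) (algebraMap K H x)
      rw [ComplexEmbedding.conjugate_coe_eq, hφ] at h3
      exact hx (Complex.conj_eq_iff_im.1 h3)
    have h3 := (hst g).norm_eq
    rw [norm_div, div_eq_one_iff_eq (norm_ne_zero_iff.2 (pow_ne_zero _ (hpv g))), norm_pow,
      EndAux.pv_eq, norm_prod] at h3
    rw [hc.mult_eq_two, InfinitePlace.apply, h3, hZ3, EndAux.lsum_eq, ← pow_mul, mul_comm,
      pow_mul, Real.log_pow, ← Finset.prod_pow,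
      Real.log_prod fun c _ => pow_ne_zero _ (norm_ne_zero_iff.2 (hne c))]
    simp only [Real.log_inv, Finset.sum_neg_distrib]
    push_cast
    ring

end Pool.Agent.CD
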