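import Pool.Agent.Lib.MP_ca56d1_nt.CD.Fld

/-! The element of `H` attached to the values. -/

namespace Pool.Agent.CD

open NumberField IsDedekindDomain Pool.Agent.Stark Pool.Agent.Stark.AR Pool.Agent.StarkD
  Pool.Agent.CU StarkStmt
open scoped IsMulCommutative Classical

variable {K : Type} [Field K] [NumberField K] {ρ : K →+* ℝ} {σ : K →+* ℂ}
  {H : Type} [Field H] [NumberField H] [Algebra K H] [IsAbelianGalois K H]

namespace EpsAux

variable {S : Finset (Pr K)} {N : ℕ}

omit [NumberField H] in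
theorem pv_eq {R : Type} [CommMonoid R] [Fintype (Cl ρ S N)] (u : Cl ρ S N → R)
    (g : H ≃ₐ[K] H) : pv H u g = ∏ c ∈ Finset.univ.filter fun c => art H c = g, u c :=
  finprod_mem_eq_prod_of_inter_mulSupport_eq _ (by simp)

omit [NumberField H] in
theorem map_pv {R R' : Type} [Field R] [Field R'] (f : R →+* R') (U : Cl ρ S N → R)
    (g : H ≃ₐ[K] H) : f (pv H U g) = pv H (fun c => f (U c)) g := by
  have := GenAux.fin ρ S N
  have := Fintype.ofFinite (Cl ρ S N)
  rw [pv_eq, pv_eq, map_prod]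

theorem pv_shift {R : Type} [CommMonoid R] (hR : Rec H ρ S N) (u : Cl ρ S N → R) (a : Cl ρ S N)
    (g : H ≃ₐ[K] H) : pv H (fun c => u (c + a)) g = pv H u (g * art H a) := by
  have := GenAux.fin ρ S N
  have := Fintype.ofFinite (Cl ρ S N)
  rw [pv_eq, pv_eq]
  refine Finset.prod_equiv (Equiv.addRight a) (fun c => ?_) fun _ _ => rfl
  simp only [Finset.mem_filter, Finset.mem_univ, true_and, Equiv.coe_addRight,
    ArtH.artS.add S N hR, mul_left_inj]

theorem act_pv {φ : H →+* ℂ} {u : Cl ρ S N → ℂ} {F : Type} [Field F] [NumberField F] [Algebra K F]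
    [Algebra H F] [IsScalarTower K H F] {ψ : F →+* ℂ} {U : Cl ρ S N → F} (hR : Rec H ρ S N)
    (hL : Law φ u ψ U) (g : F ≃ₐ[K] F) (h : H ≃ₐ[K] H) :
    Rt (g (pv H U h) / pv H U (h * AlgEquiv.restrictNormalHom H g)) := by
  have := GenAux.fin ρ S N
  have := Fintype.ofFinite (Cl ρ S N)
  obtain ⟨a, h1, h2⟩ := hL.act g
  rw [← h1, ← pv_shift hR, pv_eq, pv_eq, map_prod, ← Finset.prod_div_distrib]
  exact Rt.prod fun c _ => h2 c

end EpsAux

theorem epsS (hW : LawSt ρ σ H) (hS : SahA) : EpsSt ρ σ H := by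
  intro S N u φ hU hR hφ hu hK
  obtain ⟨F, _, _, _, _, _, ψ, U, hA, hL⟩ := hW S N u φ hU hR hφ hu hK
  obtain ⟨ε, h1, h2⟩ := hS K F hA H (pv H U 1) fun g => by
    have h3 := EpsAux.act_pv hR hL (g.restrictScalars K) 1
    have h4 : AlgEquiv.restrictNormalHom H (g.restrictScalars K) = 1 :=
      AlgEquiv.ext fun x => (algebraMap H F).injective
        (((g.restrictScalars K).restrictNormal_commutes H x).trans (g.commutes x))
    rwa [h4, mul_one] at h3
  refine ⟨ε, fun g => ?_, h2⟩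
  obtain ⟨γ, rfl⟩ := AlgEquiv.restrictNormalHom_surjective F g
  have h3 := (EpsAux.act_pv hR hL γ 1).pow (Units.torsionOrder H)
  have h4 := h1.map γ
  rw [map_div₀, map_pow] at h4
  rw [one_mul, div_pow] at h3
  have h5 := (h4.trans h3).map ψ
  have h6 : γ (algebraMap H F ε) = algebraMap H F (AlgEquiv.restrictNormalHom H γ ε) :=
    (γ.restrictNormal_commutes H ε).symm
  rwa [map_div₀, map_pow, h6, hL.emb, EpsAux.map_pv, funext hL.val] at h5

end Pool.Agent.CD
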