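import Pool.Agent.Lib.MP_ca56d1_nt.CD.End

/-! The element of `H` attached to the values. -/

namespace Pool.Agent.CD

open NumberField IsDedekindDomain Pool.Agent.Stark Pool.Agent.Stark.AR Pool.Agent.StarkD
  Pool.Agent.CU StarkStmt
open scoped IsMulCommutative Classical

variable {K : Type} [Field K] [NumberField K] {ρ : K →+* ℝ} {σ : K →+* ℂ}
  {H : Type} [Field H] [NumberField H] [Algebra K H] [IsAbelianGalois K H]

theorem epsB (hW : LawSt ρ σ H) (hS : SahA) : EpsSt ρ σ H := by
  intro S N u φ hU hR hφ hu hK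
  obtain ⟨F, _, _, _, _, _, ψ, U, hab, hL⟩ := hW S N u φ hU hR hφ hu hK
  have := GenAux.fin ρ S N
  have := Fintype.ofFinite (Cl ρ S N)
  have key : ∀ g : F ≃ₐ[K] F, Rt (g (pv H U 1) / pv H U (AlgEquiv.restrictNormalHom H g)) := by
    intro g
    obtain ⟨a, h1, h2⟩ := hL.act g
    rw [← h1, ← one_mul (art H a), EndAux.pv_shift hR, EndAux.pv_eq, EndAux.pv_eq, map_prod,
      ← Finset.prod_div_distrib]
    exact Rt.prod fun c _ => h2 c
  obtain ⟨ε, h1, h2⟩ := hS K F hab H (pv H U 1) fun g => by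
    have h3 := key (g.restrictScalars K)
    rwa [show AlgEquiv.restrictNormalHom H (g.restrictScalars K) = 1 from AlgEquiv.ext fun x =>
      (algebraMap H F).injective (((g.restrictScalars K).restrictNormal_commutes H x).trans
        (g.commutes x))] at h3
  refine ⟨ε, fun g => ?_, h2⟩
  obtain ⟨γ, rfl⟩ := AlgEquiv.restrictNormalHom_surjective (F := K) (K₁ := H) F g
  have h3 := h1.map γ
  have h4 := (key γ).pow (Units.torsionOrder H)
  rw [map_div₀, map_pow] at h3
  rw [div_pow] at h4
  have h5 := (h3.trans h4).map ψ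
  rw [map_div₀, map_pow, EndAux.pv_eq, map_prod, ← γ.restrictNormal_commutes H, hL.emb] at h5
  simp only [hL.val] at h5
  rwa [EndAux.pv_eq]

end Pool.Agent.CD
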