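import Pool.Agent.Lib.MP_ca56d1_nt.CD.Fld

/-! A stabiliser of order divisible by a prime, or a character of that order. -/

namespace Pool.Agent.CD

open scoped Classical

namespace FibAux

theorem dvd_sum {C : Type} [AddCommGroup C] [Fintype C] (Z : AddSubgroup C) (f : C → ℤ)
    (h : ∀ c, ∀ z ∈ Z, f (c + z) = f c) : (Nat.card Z : ℤ) ∣ ∑ c, f c := by
  rw [← Finset.sum_fiberwise Finset.univ (QuotientAddGroup.mk (s := Z))]
  refine Finset.dvd_sum fun x _ => ?_
  have h1 : ∑ c : C with QuotientAddGroup.mk (s := Z) c = x, f c = ∑ _z : Z, f x.out := by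
    refine (Finset.sum_bij (fun (z : Z) _ => x.out + z.1) (fun z _ => ?_) (fun _ _ _ _ e => ?_)
      (fun c hc => ?_) fun z _ => (h _ _ z.2).symm).symm
    · rw [Finset.mem_filter, QuotientAddGroup.mk_add_of_mem _ z.2]
      exact ⟨Finset.mem_univ _, Quotient.out_eq x⟩
    · exact Subtype.ext (add_left_cancel e)
    · exact ⟨⟨-x.out + c, QuotientAddGroup.eq.1 ((Quotient.out_eq x).trans
        (Finset.mem_filter.1 hc).2.symm)⟩, Finset.mem_univ _, add_neg_cancel_left _ _⟩
  rw [h1, Finset.sum_const, Finset.card_univ, nsmul_eq_mul, Nat.card_eq_fintype_card]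
  exact dvd_mul_right _ _

theorem exists_dual (r : ℕ) [Fact r.Prime] {V : Type} [AddCommGroup V] [Module (ZMod r) V] {y : V}
    (h : y ≠ 0) : ∃ φ : V →+ ZMod r, φ y ≠ 0 :=
  (Module.Projective.exists_dual_ne_zero (ZMod r) h).elim fun φ e => ⟨φ.toAddMonoidHom, e⟩

theorem exists_hom {A : Type} [AddCommGroup A] [Finite A] {r : ℕ} (hr : r.Prime)
    (h : r ∣ Nat.card A) : ∃ κ : A →+ ZMod r, κ ≠ 0 := by
  have := Fact.mk hr
  obtain ⟨x, hx⟩ := exists_prime_addOrderOf_dvd_card' r h
  let T := (nsmulAddMonoidHom r : A →+ A).range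
  obtain ⟨y, hy⟩ : ∃ y, y ∉ T := by
    by_contra hc
    push Not at hc
    have h1 := Finite.injective_iff_surjective.2
      (show Function.Surjective (nsmulAddMonoidHom r : A →+ A) from hc)
    have h2 : x = 0 := h1 (by
      rw [map_zero, nsmulAddMonoidHom_apply, ← hx, addOrderOf_nsmul_eq_zero])
    rw [h2, addOrderOf_zero] at hx
    exact hr.one_lt.ne hx
  let _ : Module (ZMod r) (A ⧸ T) := QuotientAddGroup.zmodModule fun a => ⟨a, rfl⟩
  obtain ⟨φ, hφ⟩ := exists_dual r (V := A ⧸ T) (y := y)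
    fun e => hy ((QuotientAddGroup.eq_zero_iff y).1 e)
  exact ⟨φ.comp (QuotientAddGroup.mk' T), fun e => hφ (DFunLike.congr_fun e y)⟩

end FibAux

theorem fibS : FibSt := by
  intro C G _ _ _ _ ar m r hr har hG hC
  have := Fact.mk hr
  have := Fintype.ofFinite C
  let B : AddSubgroup C :=
    { carrier := {a | ∀ c, m (c + a) = m c}
      zero_mem' := fun c => by rw [add_zero]
      add_mem' := fun {a b} ha hb c => by rw [← add_assoc, hb, ha]
      neg_mem' := fun {a} ha c => by rw [← ha, neg_add_cancel_right] }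
  by_cases hB : r ∣ Nat.card B
  · refine Or.inl fun g => ?_
    obtain ⟨b, hb⟩ := exists_prime_addOrderOf_dvd_card' r hB
    let a : Multiplicative C →* G := MonoidHom.mk' (fun c => ar c.toAdd) fun _ _ => har _ _
    have h1 : addOrderOf (b : C) = r := (AddSubgroup.addOrderOf_coe b).trans hb
    have h2 : a (Multiplicative.ofAdd (b : C)) = 1 := by
      have h3 := orderOf_map_dvd a (Multiplicative.ofAdd (b : C))
      rw [orderOf_ofAdd_eq_addOrderOf, h1] at h3
      rcases (Nat.dvd_prime hr).1 h3 with e | e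
      · exact orderOf_eq_one_iff.1 e
      · exact absurd (e ▸ orderOf_dvd_natCard _) hG
    have h4 := FibAux.dvd_sum (AddSubgroup.zmultiples (b : C)) (fun c => if ar c = g then m c else 0)
      fun c z hz => by
        have h5 : ar z = 1 := by
          obtain ⟨k, rfl⟩ := AddSubgroup.mem_zmultiples_iff.1 hz
          change a (Multiplicative.ofAdd (k • (b : C))) = 1
          rw [ofAdd_zsmul, map_zpow, h2, one_zpow]
        rw [har, h5, mul_one, (AddSubgroup.zmultiples_le.2 b.2 hz :) c]
    rw [Nat.card_zmultiples, h1, ← Finset.sum_filter] at h4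
    rwa [← finsum_mem_coe_finset, Finset.coe_filter_univ] at h4
  · have h1 : r ∣ Nat.card (C ⧸ B) :=
      (hr.dvd_mul.1 (B.card_eq_card_quotient_mul_card_addSubgroup ▸ hC)).resolve_right hB
    obtain ⟨κ, hκ⟩ := FibAux.exists_hom hr h1
    refine Or.inr ⟨κ.comp (QuotientAddGroup.mk' B), fun e => hκ ?_, fun a ha => ?_⟩
    · ext x
      exact DFunLike.congr_fun e x
    · rw [AddMonoidHom.comp_apply, QuotientAddGroup.mk'_apply,
        (QuotientAddGroup.eq_zero_iff (N := B) a).2 ha, map_zero]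

end Pool.Agent.CD
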