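import Pool.Agent.Lib.MP_ca56d1_nt.CD.St
import Pool.Agent.Lib.MP_ca56d1_nt.D.Fld

/-! A large Galois number field over a complex embedding. -/

namespace Pool.Agent.CD

open NumberField Pool.Agent.StarkD

theorem exists_fld (K : Type) [Field K] [NumberField K] {H : Type} [Field H] [NumberField H]
    [Algebra K H] (φ : H →+* ℂ) (T : Set ℂ) (hT : T.Finite) (hA : ∀ z ∈ T, IsAlgebraic ℚ z) :
    ∃ (M : Type) (_ : Field M) (_ : NumberField M) (_ : Algebra K M) (_ : Algebra H M)
      (_ : IsScalarTower K H M) (ι : M →+* ℂ), IsGalois ℚ M ∧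
      (∀ y : H, ι (algebraMap H M y) = φ y) ∧ ∀ z ∈ T, ∃ y, ι y = z := by
  let ψ : H →ₐ[ℚ] ℂ := φ.toRatAlgHom
  have : FiniteDimensional ℚ ψ.fieldRange := ψ.toLinearMap.finiteDimensional_range
  have : Finite T := hT
  have : FiniteDimensional ℚ (IntermediateField.adjoin ℚ T) :=
    IntermediateField.finiteDimensional_adjoin fun z hz => (hA z hz).isIntegral
  obtain ⟨M, h1, h2, h3⟩ := FldAux.exists_gal (ψ.fieldRange ⊔ IntermediateField.adjoin ℚ T)
  have : NumberField M := ⟨⟩
  let _ : Algebra H M := (ψ.toRingHom.codRestrict M.toSubfield fun y =>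
    h3 (le_sup_left (a := ψ.fieldRange) ⟨y, rfl⟩)).toAlgebra
  let _ : Algebra K M := ((algebraMap H M).comp (algebraMap K H)).toAlgebra
  exact ⟨M, inferInstance, inferInstance, inferInstance, inferInstance,
    IsScalarTower.of_algebraMap_eq fun _ => rfl, M.val.toRingHom, h2, fun _ => rfl, fun z hz =>
    ⟨⟨z, h3 (le_sup_right (a := ψ.fieldRange) (IntermediateField.subset_adjoin ℚ T hz))⟩, rfl⟩⟩

end Pool.Agent.CD
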