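import Pool.Agent.Lib.MP_ca56d1_nt.CD.Fld

/-! Frobenius elements that exchange the two other conjugates of a complex cubic field. -/

namespace Pool.Agent.CD

open NumberField IsDedekindDomain Pool.Agent.Stark Pool.Agent.Stark.AR Pool.Agent.StarkD
  Pool.Agent.CU StarkStmt Pool.Agent.Shared
open scoped IsMulCommutative Classical Pointwise

variable {K : Type} [Field K] [NumberField K] {ρ : K →+* ℝ} {σ : K →+* ℂ}

namespace GoodAux

theorem spl_of_eq {p : ℕ} (hp : p.Prime) {q q' : Pr K} (hne : q ≠ q')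
    (hJ : Ideal.span {(p : 𝓞 K)} = q.asIdeal * q'.asIdeal) : Spl p q q' := by
  refine ⟨hp, hne, Finsupp.ext fun r => ?_⟩
  rw [dv_apply, Finsupp.add_apply]
  by_cases e : q = r
  · subst e
    rw [FrameAux.og_of_mul hp.ne_zero hne hJ, Finsupp.single_eq_same, Finsupp.single_eq_of_ne hne,
      add_zero]
  by_cases e' : q' = r
  · subst e'
    rw [FrameAux.og_of_mul hp.ne_zero hne.symm (hJ.trans (mul_comm _ _)), Finsupp.single_eq_same,
      Finsupp.single_eq_of_ne hne.symm, zero_add]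
  rw [Finsupp.single_eq_of_ne' e, Finsupp.single_eq_of_ne' e', add_zero]
  have h3 := GenAux.og_nat r p
  have h4 : ¬ 0 < og r (p : K) := by
    rw [GenAux.og_nat_pos r hp.ne_zero, ← Ideal.dvd_span_singleton, hJ, r.prime.dvd_mul]
    rintro (hd | hd)
    · exact e (HeightOneSpectrum.ext (q.isMaximal.eq_of_le r.isPrime.ne_top
        (Ideal.dvd_iff_le.1 hd)))
    · exact e' (HeightOneSpectrum.ext (q'.isMaximal.eq_of_le r.isPrime.ne_top
        (Ideal.dvd_iff_le.1 hd)))
  omega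

theorem spl_of (h3 : Module.finrank ℚ K = 3) {p : ℕ} (hp : p.Prime) {q q' : Pr K}
    (h : (p : 𝓞 K) ∈ q.asIdeal) (h' : (p : 𝓞 K) ∈ q'.asIdeal) (hN : Ideal.absNorm q.asIdeal = p)
    (hN' : Ideal.absNorm q'.asIdeal ≠ p) : Spl p q q' := by
  have hne : q ≠ q' := fun e => hN' (e ▸ hN)
  obtain ⟨J, hJ⟩ := FrameAux.mul_dvd hne h h'
  obtain ⟨-, -, b, hb, e'⟩ := PrimeZeta.pr_spec q'.asIdeal q'.isMaximal
  rw [minFac_eq q' hp h'] at e'
  have h1 := congrArg Ideal.absNorm hJ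
  rw [Ideal.absNorm_span_natCast, RingOfIntegers.rank, h3, map_mul, map_mul, hN, e',
    ← pow_succ'] at h1
  have h2 := (Nat.pow_dvd_pow_iff_le_right hp.one_lt).1 (Dvd.intro _ h1.symm)
  have h4 : b ≠ 1 := fun e => hN' (by rw [e', e, pow_one])
  obtain rfl : b = 2 := by omega
  rw [eq_comm, mul_eq_left₀ (pow_ne_zero _ hp.ne_zero), Ideal.absNorm_eq_one_iff] at h1
  rw [h1, Ideal.mul_top] at hJ
  exact spl_of_eq hp hne hJ

theorem exists_int (hK : CC ρ σ) : ∃ a : 𝓞 K, (σ a).im ≠ 0 := by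
  by_contra hc
  push Not at hc
  obtain ⟨x, hx⟩ := hK.nonreal
  obtain ⟨a, b, -, rfl⟩ := IsFractionRing.div_surjective (A := 𝓞 K) x
  have h1 : (σ (algebraMap (𝓞 K) K a)).im = 0 := hc a
  have h2 : (σ (algebraMap (𝓞 K) K b)).im = 0 := hc b
  exact hx (by rw [map_div₀, Complex.div_im, h1, h2]; simp)

end GoodAux

open GoodAux in
theorem goodS (_hL : LocA) (hK : CC ρ σ) : GoodSt (K := K) := by
  intro M _ _ _ hG
  have : IsGalois K M := IsGalois.tower_top_of_isGalois ℚ K M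
  let ι : M →+* ℂ := ComplexEmbedding.lift M (Complex.ofRealHom.comp ρ)
  have h0 : ∀ x : K, ι (algebraMap K M x) = ρ x := fun x =>
    ComplexEmbedding.lift_algebraMap_apply _ _ x
  have ht : ∀ ψ : K →+* ℂ, ∃ s : M ≃ₐ[ℚ] M, ∀ x : K, ι (s (algebraMap K M x)) = ψ x := fun ψ => by
    obtain ⟨t, ht⟩ := ComplexEmbedding.exists_comp_symm_eq_of_comp_eq (k := ℚ) ι
      (ComplexEmbedding.lift M ψ) (RingHom.ext_rat _ _)
    exact ⟨t⁻¹, fun x =>
      (RingHom.congr_fun ht _).trans (ComplexEmbedding.lift_algebraMap_apply _ _ x)⟩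
  obtain ⟨s, hs⟩ := ht σ
  obtain ⟨s', hs'⟩ := ht ((starRingEnd ℂ).comp σ)
  obtain ⟨a, ha⟩ := exists_int hK
  set x := algebraMap K M a with hx
  have e1 : ι (s x) = σ a := hs a
  have e2 : ι (s' x) = (starRingEnd ℂ) (σ a) := hs' a
  have hc : ∀ (γ : M ≃ₐ[K] M) (t : M ≃ₐ[ℚ] M), (ι (t x)).im ≠ 0 →
      γ (t x) = s x ∨ γ (t x) = s' x := fun γ t h => by
    rcases emb_cases hK ((ι.comp ((γ : M →+* M).comp (t : M →+* M))).comp (algebraMap K M)) with
      e | e | e
    · have h1 : γ (t x) = γ x := by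
        rw [hx, γ.commutes]
        exact ι.injective ((RingHom.congr_fun e a).trans (h0 a).symm)
      rw [γ.injective h1, hx, h0] at h
      exact absurd (Complex.ofReal_im _) h
    · exact Or.inl (ι.injective ((RingHom.congr_fun e a).trans e1.symm))
    · exact Or.inr (ι.injective ((RingHom.congr_fun e a).trans e2.symm))
  have hne : s x ≠ s' x := fun e => ha (by
    have := congrArg Complex.im (e1.symm.trans ((congrArg ι e).trans e2))
    rw [Complex.conj_im] at this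
    linarith)
  have hd : ∀ γ : M ≃ₐ[K] M, (γ (s x) = s x ∧ γ (s' x) = s' x) ∨
      (γ (s x) = s' x ∧ γ (s' x) = s x) := fun γ => by
    rcases hc γ s (e1 ▸ ha) with h1 | h1 <;>
      rcases hc γ s' (by rw [e2, Complex.conj_im]; exact neg_ne_zero.2 ha) with h2 | h2
    · exact absurd (γ.injective (h1.trans h2.symm)) hne
    · exact Or.inl ⟨h1, h2⟩
    · exact Or.inr ⟨h1, h2⟩
    · exact absurd (γ.injective (h1.trans h2.symm)) hne
  refine ⟨s x - s' x, fun γ => ?_, ?_, ?_⟩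
  · rw [map_sub]
    exact (hd γ).imp (fun h => by rw [h.1, h.2]) fun h => by rw [h.1, h.2, neg_sub]
  · obtain ⟨c, hc⟩ := ComplexEmbedding.exists_comp_symm_eq_of_comp_eq (k := K) ι
      (ComplexEmbedding.conjugate ι) (by
        ext y
        simp [h0])
    refine ⟨c⁻¹, fun e => ha ?_⟩
    have h1 : ι (c⁻¹ (s x - s' x)) = (starRingEnd ℂ) (ι (s x - s' x)) := RingHom.congr_fun hc _
    have h2 := congrArg Complex.im h1
    rw [e, Complex.conj_im, map_sub, e1, e2, Complex.sub_im, Complex.conj_im] at h2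
    linarith
  · set y := algebraMap (𝓞 K) (𝓞 M) a with hy
    have h1 : s' • y - s • y ≠ 0 := fun e => hne (congrArg Subtype.val (sub_eq_zero.1 e)).symm
    obtain ⟨B, hB⟩ := Filter.eventually_atTop.1 (FrobeniusDensity.eventually_notMem h1)
    refine ⟨B, fun p hp hpp Q γ hQ hγ hm => ?_⟩
    have h2 : γ • s • y = s' • y := RingOfIntegers.ext ((hd γ).resolve_left fun h => hm (by
      rw [map_sub, h.1, h.2])).1
    have hN : Ideal.absNorm (below K Q).asIdeal = p := by
      refine FrobeniusDensity.absNorm_eq_of_pow (below K Q).isPrime hpp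
        ((FrameAux.nat_below Q p).2 hQ) fun z => ?_
      change algebraMap (𝓞 K) (𝓞 M) _ ∈ Q.asIdeal
      have h3 := neg_mem (hγ (algebraMap (𝓞 K) (𝓞 M) z))
      rwa [show γ • algebraMap (𝓞 K) (𝓞 M) z = algebraMap (𝓞 K) (𝓞 M) z from
        RingOfIntegers.ext (γ.commutes (z : K)), neg_sub, ← map_pow, ← map_sub] at h3
    refine ⟨hN, below K (s⁻¹ • Q), spl_of hK.three hpp ((FrameAux.nat_below Q p).2 hQ)
      ((FrameAux.nat_below _ p).2 (FrameAux.nat_mem _ Q hQ)) hN fun e => ?_⟩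
    obtain ⟨n, hn⟩ := FrobeniusDensity.exists_int_of_absNorm hpp e a
    have h3 : algebraMap (𝓞 K) (𝓞 M) (a - n) ∈ (s⁻¹ • Q).asIdeal := hn
    rw [smul_asIdeal, Ideal.mem_inv_pointwise_smul_iff, map_sub, smul_sub, ← hy] at h3
    have h4 : s • algebraMap (𝓞 K) (𝓞 M) n = n := by
      simp [← MulSemiringAction.toRingHom_apply]
    rw [h4] at h3
    have h5 := add_mem (hγ (s • y - n)) (Q.asIdeal.pow_mem_of_mem h3 p hpp.pos)
    have h6 : γ • (n : 𝓞 M) = n := by simp [← MulSemiringAction.toRingHom_apply]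
    rw [sub_add_cancel, smul_sub, h2, h6] at h5
    refine hB p hp.le hpp _ Q.isPrime hQ ?_
    have h7 := sub_mem h5 h3
    rwa [sub_sub_sub_cancel_right] at h7

end Pool.Agent.CD
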