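import Pool.Agent.Lib.MP_ca56d1_nt.CD.Fld

/-! The action of the Frobenius elements of good primes on the values. -/

namespace Pool.Agent.CD

open NumberField IsDedekindDomain Pool.Agent.Stark Pool.Agent.Stark.AR Pool.Agent.StarkD
  Pool.Agent.CU StarkStmt
open scoped IsMulCommutative Classical

variable {K : Type} [Field K] [NumberField K] {ρ : K →+* ℝ} {σ : K →+* ℂ}

theorem keyS (hL : LocA) (hD : DescSt) : KeySt ρ σ := by
  intro S N u M _ _ _ ι U hι hU hu ⟨B₁, hB₁⟩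
  have : Finite (Cl ρ S N) := GenAux.fin ρ S N
  have : Finite {ζ : M | Rt ζ} := (hL M).fin
  let f : Cl ρ S N × Cl ρ S N × {ζ : M | Rt ζ} × (M ≃ₐ[K] M) → M :=
    fun x => U x.1 - x.2.2.1 * x.2.2.2 (U x.2.1)
  obtain ⟨B₂, hB₂⟩ := (hL M).sep (Set.range U ∪ Set.range f)
    ((Set.finite_range U).union (Set.finite_range f))
  refine ⟨max B₁ B₂, fun p q hp hq c => ?_⟩
  obtain ⟨ξ, hξ, hO⟩ := hB₁ p q ((le_max_left _ _).trans_lt hp) hq c
  obtain ⟨-, q', hs⟩ := hq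
  obtain ⟨ξ', hξ', hd⟩ := hD p ξ hs.1 hξ
  have hU0 : U c ≠ 0 := fun h => hu c (by rw [← hU, h, map_zero])
  have hpQ : ∀ Q : Pr M, below K Q = q → (p : 𝓞 M) ∈ Q.asIdeal := fun Q hQ =>
    (FrameAux.nat_below Q p).1 (hQ ▸ FrameAux.mem_of_spl hs)
  have hT := fun Q hQ => hB₂ p ((le_max_right _ _).trans_lt hp) hs.1 Q (hpQ Q hQ)
  have key : ∀ Q : Pr M, below K Q = q → ∃ ζ : M, ι ζ = ξ' ∧
      U (c + cls ρ S N (pd q)) / U c ^ p - ζ ∈ pw (Q.valuation M) 1 := fun Q hQ => by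
    refine hd M ι Q _ (hpQ Q hQ) fun O h => ?_
    have h1 := hO O fun x => by
      have h2 := h (algebraMap (𝓞 K) (𝓞 M) x)
      rw [← hι, ← hQ]
      exact h2
    have h2 := (hL M).one ι Q O h _ hU0 (hT Q hQ _ (Or.inl ⟨c, rfl⟩))
    rw [hU] at h2
    rw [Cg] at h1 ⊢
    rw [map_div₀, map_pow, hU, hU, div_sub' (pow_ne_zero p (hu c)), map_div₀, map_pow, h2, one_pow,
      div_one, mul_comm]
    exact h1
  obtain ⟨Q₀, hQ₀⟩ := below_surj (K := M) q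
  obtain ⟨ζ, hζ, -⟩ := key Q₀ hQ₀
  have hR : Rt ζ := Rt.of_map ι (hζ ▸ hξ')
  refine ⟨ζ, hR, fun Q γ hQ hγ => ?_⟩
  obtain ⟨ζ', hζ', h1⟩ := key Q hQ
  obtain rfl : ζ' = ζ := ι.injective (hζ'.trans hζ.symm)
  have h2 := hT Q hQ _ (Or.inl ⟨c, rfl⟩)
  have h3 : U c ^ p ∈ pw (Q.valuation M) 0 := ComplAux.mem_pw_zero.2 (by
    rw [og] at h2
    rw [ord_pow, h2, mul_zero])
  have h4 := ((hL M).frob K p Q γ hs.1.ne_zero hγ).2 _ (ComplAux.mem_pw_zero.2 h2.ge)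
  have h5 := pw_mul h1 h3
  have h6 := pw_mul (ComplAux.mem_pw_zero.2 (hR.og_eq Q).ge) h4
  rw [add_zero, sub_mul, div_mul_cancel₀ _ (pow_ne_zero p hU0)] at h5
  rw [zero_add] at h6
  have h7 : U (c + cls ρ S N (pd q)) - ζ' * γ (U c) ∈ pw (Q.valuation M) 1 := by
    convert sub_mem h5 h6 using 1
    ring
  have h8 := hT Q hQ _ (Or.inr ⟨(c + cls ρ S N (pd q), c, ⟨ζ', hR⟩, γ), rfl⟩)
  refine sub_eq_zero.1 ((mem_pw_iff.1 h7).resolve_right fun h => ?_)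
  exact absurd (h.trans_eq h8) (by norm_num)

end Pool.Agent.CD
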