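import Pool.Agent.Lib.MP_ca56d1_nt.CD.Fld

/-! An auxiliary prime of degree one with prescribed power residue symbols. -/

namespace Pool.Agent.CD

open NumberField IsDedekindDomain Pool.Agent.Stark Pool.Agent.Stark.AR Pool.Agent.StarkD
  Pool.Agent.CU StarkStmt
open scoped IsMulCommutative Classical

namespace KumAux

variable {K M : Type} [Field K] [NumberField K] [Field M] [NumberField M] [Algebra K M]

theorem le_norm {p : ℕ} (hp : p.Prime) {q : Pr K} (h : (p : 𝓞 K) ∈ q.asIdeal) :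
    p ≤ Ideal.absNorm q.asIdeal :=
  Nat.le_of_dvd (Nat.pos_of_ne_zero fun e => q.ne_bot (Ideal.absNorm_eq_zero_iff.1 e))
    (GenAux.dvd_norm hp h)

theorem down (Q : Pr M) (x : K) :
    algebraMap K M x ∈ pw (Q.valuation M) 1 ↔ x ∈ pw ((below K Q).valuation K) 1 := by
  have h1 := og_algebraMap Q x
  have h2 : (0 : ℤ) < eI K Q := by exact_mod_cast SplitAux.eI_pos (F := K) Q
  rw [og, og] at h1
  rw [mem_pw_iff, mem_pw_iff, h1, map_eq_zero]
  refine or_congr_right ⟨fun h => ?_, fun h => by nlinarith⟩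
  by_contra h3
  nlinarith

/-- Frobenius elements of degree one over `K` generating a given cyclic group. -/
theorem exFrob [IsGalois ℚ M] (γ : M ≃ₐ[K] M) (B : ℕ) : ∃ (p : ℕ) (Q : Pr M) (s : M ≃ₐ[K] M),
    B < p ∧ p.Prime ∧ (p : 𝓞 M) ∈ Q.asIdeal ∧ Fb p Q s ∧
      Subgroup.zpowers s = Subgroup.zpowers γ := by
  obtain ⟨p, P, s, h1, h2, h3, h4, h5, h6⟩ := exists_frob (γ.restrictScalars ℚ) B
  obtain ⟨k, hk⟩ : s ∈ Subgroup.zpowers (γ.restrictScalars ℚ) := h6 ▸ Subgroup.mem_zpowers s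
  have h7 : AlgEquiv.restrictScalarsHom ℚ (γ ^ k) = s := (map_zpow _ _ _).trans hk
  have h0 : P ≠ ⊥ := by
    rintro rfl
    exact h2.ne_zero (by simpa using h4)
  refine ⟨p, ⟨P, h3, h0⟩, γ ^ k, h1, h2, h4, fun x => ?_,
    Subgroup.map_injective (AlgEquiv.restrictScalarsHom_injective ℚ) ?_⟩
  · have h10 : (γ ^ k) • x = s • x := by rw [← h7]; rfl
    rw [h10]
    exact h5 x
  · rw [MonoidHom.map_zpowers, MonoidHom.map_zpowers, h7]
    exact h6

theorem fix {s γ : M ≃ₐ[K] M} (h : Subgroup.zpowers s = Subgroup.zpowers γ) {z : M}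
    (hz : γ z = z) : s z = z :=
  (Subgroup.zpowers_le (H := MulAction.stabilizer (M ≃ₐ[K] M) z)).2 hz (h ▸ Subgroup.mem_zpowers s)

/-- The criterion of Euler. -/
theorem euler (hL : LocSt M) {p : ℕ} {Q : Pr M} {s : M ≃ₐ[K] M} (hp : p ≠ 0) (hs : Fb p Q s)
    {z : M} (hz : z ≠ 0) (h0 : og Q z = 0) : s z / z - z ^ (p - 1) ∈ pw (Q.valuation M) 1 := by
  have h1 := (hL.frob K p Q s hp hs).2 z (ComplAux.mem_pw_zero.2 h0.ge)
  have h2 : z⁻¹ ∈ pw (Q.valuation M) 0 := ComplAux.mem_pw_zero.2 (by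
    rw [og] at h0
    rw [ord_inv, h0, neg_zero])
  have h3 := AR.pw_mul h1 h2
  obtain ⟨k, rfl⟩ := Nat.exists_eq_succ_of_ne_zero hp
  rwa [add_zero, show (s z - z ^ k.succ) * z⁻¹ = s z / z - z ^ (k.succ - 1) by
    rw [Nat.succ_sub_one, pow_succ]
    field_simp] at h3

theorem og_root {r : ℕ} (hr : r ≠ 0) {Q : Pr M} {z : M} {e : K} (h : z ^ r = algebraMap K M e)
    (he : og (below K Q) e = 0) : og Q z = 0 := by
  have h1 := og_algebraMap Q e
  rw [← h, he, mul_zero, og, ord_pow] at h1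
  exact (mul_eq_zero.1 h1).resolve_left (Nat.cast_ne_zero.2 hr)

end KumAux

open KumAux

theorem kumS (hL : LocA) (hI : InertA) (hT : LiftA) : KumA := by
  intro K F _ _ _ _ _ _ S g l t hS hl
  obtain ⟨Lf, hLf⟩ := below_surj (K := F) l
  have ht : t ≠ 0 := by
    rintro rfl
    exact hl (by simp [og])
  have hl' : og Lf (algebraMap K F t) ≠ 0 := by
    rw [og_algebraMap, hLf]
    exact mul_ne_zero (by exact_mod_cast (SplitAux.eI_pos (F := K) Lf).ne') hl
  refine ⟨(discr F).natAbs + Nat.card (F ≃ₐ[K] F) + Ideal.absNorm Lf.asIdeal +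
    (og Lf (algebraMap K F t)).natAbs, fun r hB hr T => ?_⟩
  obtain ⟨T₀, hT₀⟩ := (Monoid.FG.fg_top : (⊤ : Submonoid (𝓞 K)ˣ).FG)
  let φ : F →+* ℂ := (IsAlgClosed.lift : F →ₐ[ℚ] ℂ).toRingHom
  choose rt hrt using fun e : K => IsAlgClosed.exists_pow_nat_eq (φ (algebraMap K F e)) hr.pos
  have hζ₀ := Complex.isPrimitiveRoot_exp r hr.ne_zero
  obtain ⟨M, _, _, _, _, _, ι, hM, hι, hz⟩ := exists_fld K φ
    (insert (Complex.exp (2 * Real.pi * Complex.I / r))
      (rt '' insert t ((fun u : (𝓞 K)ˣ => ((u : 𝓞 K) : K)) '' T₀)))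
    (((((T₀.finite_toSet.image _).insert _).image _)).insert _) (by
      rintro z (rfl | ⟨e, -, rfl⟩)
      · exact IsAlgebraic.of_pow hr.pos (by rw [hζ₀.pow_eq_one]; exact isAlgebraic_one)
      · refine IsAlgebraic.of_pow hr.pos ?_
        rw [hrt]
        exact (Algebra.IsAlgebraic.isAlgebraic (R := ℚ) _).algHom φ.toRatAlgHom)
  have hKM : IsGalois K M := IsGalois.tower_top_of_isGalois ℚ K M
  have hFM : IsGalois F M := IsGalois.tower_top_of_isGalois ℚ F M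
  obtain ⟨ζ, hζ⟩ := hz _ (Set.mem_insert _ _)
  have hζ' : IsPrimitiveRoot ζ r := IsPrimitiveRoot.of_map_of_injective (f := ι) (hζ ▸ hζ₀)
    ι.injective
  have hroot : ∀ e ∈ insert t ((fun u : (𝓞 K)ˣ => ((u : 𝓞 K) : K)) '' T₀),
      ∃ z : M, z ^ r = algebraMap K M e := by
    intro e he
    obtain ⟨z, h⟩ := hz _ (Set.mem_insert_of_mem _ ⟨e, he, rfl⟩)
    exact ⟨z, ι.injective (by rw [map_pow, h, hrt, IsScalarTower.algebraMap_apply K F M, hι])⟩
  obtain ⟨y, hy⟩ := hroot t (Set.mem_insert _ _)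
  obtain ⟨γ₀, hγ₀, hγ₁⟩ := hT K F M r ζ g hr
    ((Nat.Prime.coprime_iff_not_dvd hr).2 fun h => absurd
      (Nat.le_of_dvd (Int.natAbs_pos.2 (discr_ne_zero F)) h) (by omega))
    (fun h => absurd (Nat.le_of_dvd Nat.card_pos h) (by omega)) hζ'
  obtain ⟨h, hh, hh'⟩ := hI F M hFM r Lf (algebraMap K F t) y hr
    (fun h => absurd (le_norm hr h) (by omega))
    (fun h => absurd (Nat.le_of_dvd (Int.natAbs_pos.2 hl') (Int.natCast_dvd.1 h)) (by omega))
    (by rw [hy, IsScalarTower.algebraMap_apply K F M])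
  obtain ⟨γ, hγe⟩ : ∃ γ : M ≃ₐ[K] M, γ = γ₀ * h.restrictScalars K := ⟨_, rfl⟩
  have hγ : ∀ z, γ z = γ₀ (h z) := fun z => by rw [hγe]; rfl
  have g1 : AlgEquiv.restrictNormalHom F γ = g := by
    rw [hγe, map_mul, hγ₀, mul_eq_left]
    ext x
    apply (algebraMap F M).injective
    exact (AlgEquiv.restrictNormal_commutes (h.restrictScalars K) F x).trans (h.commutes x)
  have g2 : ∀ (z : M) (e : K), IsU e → z ^ r = algebraMap K M e → γ z = z := by
    intro z e he hze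
    rw [hγ, hh' z (algebraMap K F e) ⟨(map_ne_zero _).2 he.1, fun Q => by
      rw [og_algebraMap, he.2, mul_zero]⟩ (by rw [hze, IsScalarTower.algebraMap_apply K F M]),
      hγ₁ z e hze]
  have g3 : γ y ≠ y := by
    rw [hγ, hγ₁ (h y) t (by
      rw [← map_pow, hy, IsScalarTower.algebraMap_apply K F M, h.commutes])]
    exact hh
  have g4 : ∀ u : (𝓞 K)ˣ, ∃ z : M, z ^ r = algebraMap K M ((u : 𝓞 K) : K) := by
    intro u
    have hu : u ∈ Submonoid.closure (T₀ : Set (𝓞 K)ˣ) := hT₀ ▸ Submonoid.mem_top u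
    induction hu using Submonoid.closure_induction with
    | mem u hu => exact hroot _ (Set.mem_insert_of_mem _ ⟨u, hu, rfl⟩)
    | one => exact ⟨1, by simp⟩
    | mul u v _ _ hu hv =>
      obtain ⟨a, ha⟩ := hu
      obtain ⟨b, hb⟩ := hv
      exact ⟨a * b, by rw [mul_pow, ha, hb, ← map_mul]; rfl⟩
  obtain ⟨p, Q, s, p1, hp, hQ, hs, hsγ⟩ := exFrob γ
    (r + ∑ q ∈ S ∪ T ∪ (dv t).support, Ideal.absNorm q.asIdeal)
  have hq : below K Q ∉ S ∪ T ∪ (dv t).support := fun h => by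
    have h1 := le_norm hp ((FrameAux.nat_below (K := K) Q p).2 hQ)
    have h2 := Finset.single_le_sum (f := fun q : Pr K => Ideal.absNorm q.asIdeal)
      (fun _ _ => Nat.zero_le _) h
    omega
  simp only [Finset.mem_union, not_or, Finsupp.notMem_support_iff, dv_apply] at hq
  obtain ⟨hN, hfr⟩ := res_frob (H := F) hS s Q hp hQ hq.1.1 hs
  have hrQ : (r : 𝓞 M) ∉ Q.asIdeal := fun h => by
    obtain ⟨a, b, e⟩ := Nat.Coprime.cast (R := 𝓞 M)
      ((Nat.coprime_primes hp hr).2 (by omega))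
    exact Q.isPrime.ne_top ((Ideal.eq_top_iff_one _).2 (e ▸ add_mem (Ideal.mul_mem_left _ _ hQ)
      (Ideal.mul_mem_left _ _ h)))
  have hζ0 := hζ'.ne_zero hr.ne_zero
  have hd : r ∣ p - 1 := by
    have h1 := euler (hL M) hp.ne_zero hs hζ0 (Rt.og_eq ⟨r, hr.ne_zero, hζ'.pow_eq_one⟩ Q)
    rw [fix hsγ (g2 ζ 1 ⟨one_ne_zero, fun _ => by simp [og]⟩ (by rw [hζ'.pow_eq_one, map_one])),
      div_self hζ0] at h1
    exact hζ'.dvd_of_pow_eq_one _ ((hL M).root Q r _ hrQ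
      (by rw [← pow_mul, mul_comm, pow_mul, hζ'.pow_eq_one, one_pow])
      (by simpa using neg_mem h1))
  have key : ∀ (z : M) (e : K), e ≠ 0 → og (below K Q) e = 0 → z ^ r = algebraMap K M e →
      z ≠ 0 ∧ s z / z - algebraMap K M (e ^ ((p - 1) / r)) ∈ pw (Q.valuation M) 1 := by
    intro z e he h0 hze
    have hz0 : z ≠ 0 := by
      rintro rfl
      rw [zero_pow hr.ne_zero] at hze
      exact he ((map_eq_zero _).1 hze.symm)
    refine ⟨hz0, ?_⟩
    rw [map_pow, ← hze, ← pow_mul, Nat.mul_div_cancel' hd]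
    exact euler (hL M) hp.ne_zero hs hz0 (og_root hr.ne_zero hze h0)
  refine ⟨p, below K Q, hp, hN, hq.1.2, hd, fun e he => ?_, fun h1 => ?_, ?_⟩
  · obtain ⟨u, rfl⟩ := isU_iff.1 he
    obtain ⟨z, hz⟩ := g4 u
    obtain ⟨h1, h2⟩ := key z _ he.1 (he.2 _) hz
    rw [fix hsγ (g2 z _ he hz), div_self h1] at h2
    rw [← down, map_sub, map_one]
    simpa using neg_mem h2
  · obtain ⟨h2, h3⟩ := key y t ht hq.2 hy
    rw [← down, map_sub, map_one] at h1
    have h4 := (hL M).root Q r (s y / y) hrQ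
      (by rw [div_pow, ← map_pow, hy, s.commutes, div_self ((map_ne_zero _).2 ht)])
      (by simpa using add_mem h3 h1)
    exact g3 (fix hsγ.symm ((div_eq_one_iff_eq h2).1 h4))
  · rw [← hfr, ← g1, ← MonoidHom.map_zpowers, ← MonoidHom.map_zpowers, hsγ]

end Pool.Agent.CD
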