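import Pool.Agent.Lib.MP_ca56d1_nt.CD.Fld
import Pool.Agent.Lib.MP_ca56d1_nt.D.Cov

/-! The values lie in an abelian extension. -/

namespace Pool.Agent.CD

open NumberField IsDedekindDomain Pool.Agent.Stark Pool.Agent.Stark.AR Pool.Agent.StarkD
  Pool.Agent.CU StarkStmt
open scoped IsMulCommutative Classical

namespace LawAux

/-- The elements on which all automorphisms commute. -/
def ab (K M : Type) [Field K] [Field M] [Algebra K M] : IntermediateField K M where
  carrier := {x | ∀ γ η : M ≃ₐ[K] M, γ (η x) = η (γ x)}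
  mul_mem' := fun ha hb γ η => by simp only [map_mul, ha γ η, hb γ η]
  one_mem' := fun γ η => by simp only [map_one]
  add_mem' := fun ha hb γ η => by simp only [map_add, ha γ η, hb γ η]
  zero_mem' := fun γ η => by simp only [map_zero]
  algebraMap_mem' := fun x γ η => by simp only [AlgEquiv.commutes]
  inv_mem' := fun x hx γ η => by simp only [map_inv₀, hx γ η]

theorem mem_ab {K M : Type} [Field K] [Field M] [Algebra K M] {x : M} :
    x ∈ ab K M ↔ ∀ γ η : M ≃ₐ[K] M, γ (η x) = η (γ x) := Iff.rfl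

theorem ab_gal (K M : Type) [Field K] [Field M] [Algebra K M] [IsGalois K M] :
    IsAbelianGalois K (ab K M) := by
  have nrm : Normal K (ab K M) := by
    refine IntermediateField.normal_iff_forall_map_le'.2 fun s => ?_
    rintro _ ⟨x, hx, rfl⟩ γ η
    have h1 := hx γ (η * s)
    have h2 := hx γ s
    simp only [AlgEquiv.mul_apply] at h1
    change γ (η (s x)) = η (γ (s x))
    rw [h1, h2]
  exact
    { is_comm := ⟨fun g h => by
        obtain ⟨s, rfl⟩ := AlgEquiv.restrictNormalHom_surjective (F := K) (K₁ := ab K M) M g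
        obtain ⟨s', rfl⟩ := AlgEquiv.restrictNormalHom_surjective (F := K) (K₁ := ab K M) M h
        rw [← map_mul, ← map_mul]
        ext x
        rw [AlgEquiv.restrictNormalHom_apply, AlgEquiv.restrictNormalHom_apply]
        exact x.2 s s'⟩ }

theorem exists_unr (K F : Type) [Field K] [NumberField K] [Field F] [NumberField F]
    [Algebra K F] : ∃ S : Finset (Pr K), UnrO F S :=
  ⟨(ram_finite (F := K) (K := F)).toFinset.image (below K), fun Q hQ => by
    by_contra h
    exact hQ (Finset.mem_image_of_mem _ (by simpa using h))⟩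

end LawAux

variable {K : Type} [Field K] [NumberField K] {ρ : K →+* ℝ} {σ : K →+* ℂ}
  {H : Type} [Field H] [NumberField H] [Algebra K H] [IsAbelianGalois K H]

open LawAux in
theorem lawS (hL : LocA) (hP : PreSt ρ σ H) : LawSt ρ σ H := by
  intro S N u φ hS hR hφ hu hK
  obtain ⟨M, _, _, _, _, _, ι, U, hG, P⟩ := hP S N u φ hS hR hφ hu hK
  have hab := ab_gal K M
  have hH : ∀ y : H, algebraMap H M y ∈ ab K M := fun y γ η => by
    have h1 : ∀ (γ : M ≃ₐ[K] M) (y : H),
        γ (algebraMap H M y) = algebraMap H M (AlgEquiv.restrictNormalHom H γ y) :=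
      fun γ y => (AlgEquiv.restrictNormal_commutes γ H y).symm
    rw [h1, h1, h1, h1, ← AlgEquiv.mul_apply, ← AlgEquiv.mul_apply, mul_comm]
  let _ : Algebra H (ab K M) :=
    ((algebraMap H M).codRestrict (ab K M).toSubfield hH).toAlgebra
  have : IsScalarTower K H (ab K M) := IsScalarTower.of_algebraMap_eq fun x =>
    Subtype.ext (IsScalarTower.algebraMap_apply K H M x)
  let V : Cl ρ S N → ab K M := fun c => ⟨U c, fun γ η => P.comm γ η c⟩
  have hres : ∀ (γ : M ≃ₐ[K] M) (x : ab K M),
      ((AlgEquiv.restrictNormalHom (ab K M) γ x : ab K M) : M) = γ x :=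
    fun γ x => AlgEquiv.restrictNormal_commutes γ (ab K M) x
  have hrt : ∀ (γ : M ≃ₐ[K] M) c c', Rt (γ (U c) / U c') →
      Rt (AlgEquiv.restrictNormalHom (ab K M) γ (V c) / V c') := fun γ c c' h => by
    refine Rt.of_map (algebraMap (ab K M) M) ?_
    rw [map_div₀]
    change Rt (((AlgEquiv.restrictNormalHom (ab K M) γ (V c) : ab K M) : M) / U c')
    rw [hres]
    exact h
  refine ⟨ab K M, inferInstance, inferInstance, inferInstance, inferInstance, inferInstance,
    ι.comp (algebraMap (ab K M) M), V, hab, P.emb, P.val, fun g => ?_, ?_⟩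
  · obtain ⟨γ, rfl⟩ := AlgEquiv.restrictNormalHom_surjective (F := K) (K₁ := ab K M) M g
    obtain ⟨a, h1, h2⟩ := P.act γ
    refine ⟨a, h1.trans ?_, fun c => hrt γ _ _ (h2 c)⟩
    ext y
    apply (algebraMap H M).injective
    have e1 := AlgEquiv.restrictNormal_commutes γ H y
    have e2 := congrArg (fun z : ab K M => (z : M))
      (AlgEquiv.restrictNormal_commutes (AlgEquiv.restrictNormalHom (ab K M) γ) H y)
    simp only [hres] at e2
    exact e1.trans e2.symm
  · obtain ⟨B, hB⟩ := P.key
    obtain ⟨S₁, hS₁⟩ := exists_unr K (ab K M)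
    refine ⟨max B (S₁.sup fun q => Ideal.absNorm q.asIdeal), fun p q hp hq c => ?_⟩
    obtain ⟨Q, rfl⟩ := below_surj (K := M) q
    obtain ⟨γ, hγ⟩ := (hL M).exFb K Q
    rw [hq.1] at hγ
    obtain ⟨q', hq'⟩ := hq.2
    have h1 : below K Q ∉ S₁ := fun h => by
      have := Finset.le_sup (f := fun q : Pr K => Ideal.absNorm q.asIdeal) h
      simp only [hq.1] at this
      exact absurd ((le_max_right _ _).trans_lt hp) (not_lt.2 this)
    have h2 : (p : 𝓞 M) ∈ Q.asIdeal :=
      (FrameAux.nat_below (K := K) Q p).1 (hq.1 ▸ Ideal.absNorm_mem _)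
    rw [← (res_frob (H := ab K M) hS₁ γ Q hq'.1 h2 h1 hγ).2]
    exact hrt γ _ _ (hB p _ ((le_max_left _ _).trans_lt hp) hq c Q γ rfl hγ)

end Pool.Agent.CD
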