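import Pool.Agent.Lib.MP_ca56d1_nt.CD.Fld
import Pool.Agent.Lib.MP_ca56d1_nt.AR.CycF

/-! A lift of an automorphism that fixes all `r`-th roots of elements of the base field. -/

namespace Pool.Agent.CD

open NumberField IsDedekindDomain Pool.Agent.Stark Pool.Agent.Stark.AR Pool.Agent.StarkD
  Pool.Agent.CU StarkStmt
open scoped IsMulCommutative Classical

namespace LiftAux

open Polynomial IntermediateField

variable {F M : Type} [Field F] [NumberField F] [Field M] [NumberField M] [Algebra F M]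

theorem minpoly_eq {r : ℕ} [NeZero r] {ζ : M} (hr : r.Coprime (discr F).natAbs)
    (hζ : IsPrimitiveRoot ζ r) : minpoly F ζ = cyclotomic r F := by
  have h1 : IsCyclotomicExtension {r} F F⟮ζ⟯ :=
    hζ.intermediateField_adjoin_isCyclotomicExtension F
  have hi : IsIntegral F ζ := Algebra.IsIntegral.isIntegral ζ
  have h2 : Module.finrank F F⟮ζ⟯ = r.totient := CycFAux.finrank_eq hr
  rw [IntermediateField.adjoin.finrank hi] at h2
  have h3 : aeval ζ (cyclotomic r F) = 0 := by
    rw [aeval_def, ← eval_map, map_cyclotomic]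
    exact hζ.isRoot_cyclotomic (NeZero.pos r)
  symm
  refine eq_of_monic_of_dvd_of_natDegree_le (minpoly.monic hi) (cyclotomic.monic r F)
    (minpoly.dvd F ζ h3) ?_
  rw [natDegree_cyclotomic, h2]

theorem exists_aut [Normal F M] {r : ℕ} [NeZero r] {ζ ζ' : M} (hr : r.Coprime (discr F).natAbs)
    (hζ : IsPrimitiveRoot ζ r) (hζ' : IsPrimitiveRoot ζ' r) : ∃ h : M ≃ₐ[F] M, h ζ' = ζ :=
  IsConjRoot.exists_algEquiv (show minpoly F ζ = minpoly F ζ' by
    rw [minpoly_eq hr hζ, minpoly_eq hr hζ'])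

omit [NumberField M] in
theorem pow_apply {K : Type} [Field K] [Algebra K M] (g : M ≃ₐ[K] M) {z w : M} (hw : g w = w)
    (hz : g z = w * z) (k : ℕ) : (g ^ k) z = w ^ k * z := by
  induction k with
  | zero => simp
  | succ k ih => rw [pow_succ', AlgEquiv.mul_apply, ih, map_mul, map_pow, hw, hz, pow_succ,
      mul_assoc]

end LiftAux

theorem liftS : LiftA := by
  intro K F _ _ _ _ _ _ M _ _ _ _ _ _ r ζ g hp hr hc hζ
  have : NeZero r := ⟨hp.ne_zero⟩
  have : IsGalois F M := IsGalois.tower_top_of_isGalois K F M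
  obtain ⟨g0, hg0⟩ := AlgEquiv.restrictNormalHom_surjective (F := K) (K₁ := F) M g
  obtain ⟨h, hh⟩ := LiftAux.exists_aut hr hζ (hζ.map_of_injective g0.injective)
  set g1 : M ≃ₐ[K] M := h.restrictScalars K * g0 with hg1
  have h1 : g1 ζ = ζ := hh
  have h2 : AlgEquiv.restrictNormalHom F g1 = g := by
    rw [hg1, map_mul, hg0]
    have : AlgEquiv.restrictNormalHom F (h.restrictScalars K) = 1 := by
      ext x
      apply (algebraMap F M).injective
      exact (AlgEquiv.restrictNormal_commutes (h.restrictScalars K) F x).trans (h.commutes x)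
    rw [this, one_mul]
  obtain ⟨k, hk1, hk2⟩ := Nat.chineseRemainder ((Nat.Prime.coprime_iff_not_dvd hp).2 hc) 0 1
  refine ⟨g1 ^ k, ?_, fun z e hz => ?_⟩
  · rw [map_pow, h2]
    have h3 : k ≡ 1 [MOD orderOf g] := hk2.of_dvd (orderOf_dvd_natCard g)
    rw [pow_eq_pow_iff_modEq.2 h3, pow_one]
  · rcases eq_or_ne z 0 with rfl | h0
    · exact map_zero _
    have h3 : (g1 z / z) ^ r = 1 := by
      rw [div_pow, ← map_pow, hz, g1.commutes, ← hz, div_self (pow_ne_zero _ h0)]
    obtain ⟨i, -, hi⟩ := hζ.eq_pow_of_pow_eq_one h3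
    have h4 : g1 (g1 z / z) = g1 z / z := by rw [← hi, map_pow, h1]
    obtain ⟨j, rfl⟩ := (Nat.modEq_zero_iff_dvd).1 hk1
    rw [LiftAux.pow_apply g1 h4 (div_mul_cancel₀ _ h0).symm, pow_mul, h3, one_pow, one_mul]

end Pool.Agent.CD
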