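import Pool.Agent.Lib.MP_ca56d1_nt.CD.Fld
import Pool.Agent.Lib.MP_ca56d1_nt.D.Eig

/-! Elementary local facts about primes of number fields. -/

namespace Pool.Agent.CD

open NumberField IsDedekindDomain Pool.Agent.Stark Pool.Agent.Stark.AR Pool.Agent.StarkD
  Pool.Agent.CU StarkStmt
open scoped IsMulCommutative Classical

namespace LocAux

variable {M : Type} [Field M] [NumberField M] {ι : M →+* ℂ} {Q : Pr M} {O : ValuationSubring ℂ}

theorem mem1 (Q : Pr M) (x : 𝓞 M) : (x : M) ∈ pw (Q.valuation M) 1 ↔ x ∈ Q.asIdeal := by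
  simpa using ComplAux.int_mem_pw Q x 1

theorem mem0 (Q : Pr M) (x : 𝓞 M) : (x : M) ∈ pw (Q.valuation M) 0 :=
  ComplAux.mem_pw_zero.2 (og_nonneg Q x)

theorem frac {y : M} (hy : y ∈ pw (Q.valuation M) 0) :
    ∃ a b : 𝓞 M, b ∉ Q.asIdeal ∧ y * b = a := by
  obtain ⟨a, b, h⟩ := Q.exists_primeCompl_mul_eq_of_integer y (by simpa using mem_pw.1 hy)
  exact ⟨a, b, b.2, h⟩

theorem int_one (h : Over ι Q O) {b : 𝓞 M} (hb : b ∉ Q.asIdeal) : O.valuation (ι b) = 1 := by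
  refine le_antisymm (h b).1 (not_lt.1 fun h1 => ?_)
  obtain ⟨y, z, hz, h4⟩ := Q.isMaximal.exists_inv hb
  have h6 : O.valuation (ι y * ι b) < 1 := by
    rw [map_mul]
    exact mul_lt_one_of_nonneg_of_lt_one_right (h y).1 zero_le h1
  have h7 := O.valuation.map_add_lt h6 ((h z).2 hz)
  have h8 : (y : M) * b + z = 1 := by exact_mod_cast congrArg (algebraMap (𝓞 M) M) h4
  rw [← map_mul, ← map_add, h8, map_one, map_one] at h7
  exact lt_irrefl _ h7

theorem val_eq (h : Over ι Q O) {y : M} {a b : 𝓞 M} (hb : b ∉ Q.asIdeal) (e : y * b = a) :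
    O.valuation (ι y) = O.valuation (ι a) := by
  rw [← e, map_mul, map_mul, int_one h hb, mul_one]

theorem le (h : Over ι Q O) {y : M} (hy : y ∈ pw (Q.valuation M) 0) : O.valuation (ι y) ≤ 1 := by
  obtain ⟨a, b, hb, e⟩ := frac hy
  rw [val_eq h hb e]
  exact (h a).1

theorem lt (h : Over ι Q O) (y : M) : O.valuation (ι y) < 1 ↔ y ∈ pw (Q.valuation M) 1 := by
  refine ⟨fun h1 => ?_, fun hy => ?_⟩
  · by_contra hy
    rw [mem_pw_iff, not_or] at hy
    have h2 := le h (y := y⁻¹) (ComplAux.mem_pw_zero.2 (by rw [ord_inv]; omega))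
    have h3 := mul_lt_one_of_nonneg_of_lt_one_right h2 zero_le h1
    rw [← map_mul, ← map_mul, inv_mul_cancel₀ hy.1, map_one, map_one] at h3
    exact lt_irrefl _ h3
  · obtain ⟨a, b, hb, e⟩ := frac (ComplAux.pw_mono (by norm_num) hy)
    rw [val_eq h hb e]
    refine (h a).2 ((mem1 Q a).1 ?_)
    rw [← e]
    simpa using pw_mul hy (mem0 Q b)

theorem ex (ι : M →+* ℂ) (Q : Pr M) : ∃ O, Over ι Q O := by
  obtain ⟨O, h⟩ := FrameAux.exists_val ι Q
  refine ⟨O, fun x => ⟨not_lt.1 fun h1 => ?_, (h x).2⟩⟩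
  have hx : x ∉ Q.asIdeal := fun hx => lt_asymm h1 ((h x).2 hx)
  obtain ⟨y, z, hz, h4⟩ := Q.isMaximal.exists_inv hx
  have hy : y ∉ Q.asIdeal := fun hy => Q.isPrime.ne_top ((Ideal.eq_top_iff_one _).2
    (h4 ▸ add_mem (Ideal.mul_mem_right _ _ hy) hz))
  have h5 : 1 ≤ O.valuation (ι y) := not_lt.1 fun h6 => hy ((h y).1 h6)
  have h8 : (y : M) * x = 1 - z := by
    have h9 : (y : M) * x + z = 1 := by exact_mod_cast congrArg (algebraMap (𝓞 M) M) h4
    linear_combination h9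
  have h6 : O.valuation (ι y) * O.valuation (ι x) = 1 := by
    rw [← map_mul, ← map_mul, h8, map_sub, map_one]
    exact O.valuation.map_one_sub_of_lt ((h z).2 hz)
  have h7 := mul_le_mul_left h5 (O.valuation (ι x))
  rw [one_mul, h6] at h7
  exact absurd h1 (not_lt.2 h7)

theorem le_norm {p : ℕ} (hp : p.Prime) (h : (p : 𝓞 M) ∈ Q.asIdeal) :
    p ≤ Ideal.absNorm Q.asIdeal := by
  have h1 : ((p : ℕ) : M) ∈ pw (Q.valuation M) 1 := by simpa using (mem1 Q _).2 h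
  have h2 : (((Ideal.absNorm Q.asIdeal : ℕ) : ℤ) : M) ∈ pw (Q.valuation M) 1 := by
    simpa using (mem1 Q _).2 (Ideal.absNorm_mem Q.asIdeal)
  have h3 := FrobAux.two_le_absNorm Q
  exact Nat.le_of_dvd (by omega) (Int.natCast_dvd_natCast.1 (EigAux.dvd_of_mem hp h1 h2))

theorem sep (T : Set M) (hT : T.Finite) : ∃ B : ℕ, ∀ p : ℕ, B < p → p.Prime → ∀ Q : Pr M,
    (p : 𝓞 M) ∈ Q.asIdeal → ∀ t ∈ T, og Q t = 0 := by
  have h1 := hT.biUnion fun t _ => og_finite t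
  refine ⟨h1.toFinset.sup fun r => Ideal.absNorm r.asIdeal, fun p hB hp Q hQ t ht => ?_⟩
  by_contra h
  have h2 := Finset.le_sup (f := fun r : Pr M => Ideal.absNorm r.asIdeal)
    (h1.mem_toFinset.2 (Set.mem_biUnion ht h))
  have h3 := le_norm hp hQ
  omega

theorem root (Q : Pr M) (n : ℕ) (ζ : M) (hn : (n : 𝓞 M) ∉ Q.asIdeal) (h1 : ζ ^ n = 1)
    (h2 : ζ - 1 ∈ pw (Q.valuation M) 1) : ζ = 1 := by
  by_contra h
  have h0 : ζ ∈ pw (Q.valuation M) 0 := by
    have h3 := add_mem (ComplAux.pw_mono (show (0 : ℤ) ≤ 1 by norm_num) h2) (EigAux.int_mem 1)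
    simpa using h3
  have h3 : ∀ i : ℕ, ζ ^ i - 1 ∈ pw (Q.valuation M) 1 := fun i => by
    induction i with
    | zero => simp
    | succ i ih =>
      have h4 := pw_mul ih h0
      rw [add_zero] at h4
      convert add_mem h4 h2 using 1
      ring
  have h4 := neg_mem (sum_mem (fun i (_ : i ∈ Finset.range n) => h3 i))
  rw [Finset.sum_sub_distrib, geom_sum_eq h, h1] at h4
  refine hn ((mem1 Q _).1 ?_)
  simpa using h4

theorem frob {K : Type} [Field K] [NumberField K] [Algebra K M] {p : ℕ} {γ : M ≃ₐ[K] M}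
    (hp : p ≠ 0) (h : Fb p Q γ) :
    γ • Q = Q ∧ ∀ y ∈ pw (Q.valuation M) 0, γ y - y ^ p ∈ pw (Q.valuation M) 1 := by
  refine ⟨HeightOneSpectrum.ext ((γ • Q).isMaximal.eq_of_le Q.isPrime.ne_top fun x hx => ?_),
    fun y hy => ?_⟩
  · rw [smul_asIdeal, Ideal.mem_pointwise_smul_iff_inv_smul_mem] at hx
    have h1 := add_mem (h (γ⁻¹ • x)) (Ideal.pow_mem_of_mem _ hx p (Nat.pos_of_ne_zero hp))
    rwa [sub_add_cancel, smul_inv_smul] at h1
  · obtain ⟨a, b, hb, e⟩ := frac hy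
    have b1 : b ^ p ∉ Q.asIdeal := fun h1 => hb (Q.isPrime.mem_of_pow_mem p h1)
    have b2 : γ • b ∉ Q.asIdeal := fun h1 => b1 (by simpa using sub_mem h1 (h b))
    have b3 : γ • b * b ^ p ∉ Q.asIdeal := fun h1 => (Q.isPrime.mem_or_mem h1).elim b2 b1
    have b4 : γ • b * b ^ p ≠ 0 := fun h1 => b3 (h1 ▸ zero_mem _)
    have b5 : og Q ((γ • b * b ^ p : 𝓞 M) : M) = 0 :=
      le_antisymm (not_lt.1 fun h1 => b3 ((og_pos_iff Q b4).1 h1)) (og_nonneg Q _)
    refine EigAux.cancel (RingOfIntegers.coe_ne_zero_iff.2 b4) b5 ?_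
    have h1 := (mem1 Q _).2 (sub_mem (Ideal.mul_mem_right (b ^ p) _ (h a))
      (Ideal.mul_mem_left _ (a ^ p) (h b)))
    rw [zero_add]
    convert h1 using 1
    have e1 : γ y * γ b = γ a := by rw [← map_mul, e]
    have e2 : y ^ p * (b : M) ^ p = (a : M) ^ p := by rw [← mul_pow, e]
    push_cast
    rw [AlgEquiv.smul_def, AlgEquiv.smul_def, ← e1, ← e2]
    ring

end LocAux

open LocAux in
theorem locS : LocA := fun M _ _ =>
  { ex := ex
    le := fun _ _ _ h _ hy => le h hy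
    lt := fun _ _ _ h y => lt h y
    one := fun _ Q _ h y h0 h1 => le_antisymm (le h (ComplAux.mem_pw_zero.2 h1.ge))
      (not_lt.1 fun h2 => by
        have h3 := (mem_pw_iff.1 ((lt h y).1 h2)).resolve_left h0
        rw [og] at h1
        omega)
    sep := sep
    root := root
    fin := (Embeddings.finite_of_norm_le M ℂ 1).subset fun ζ h =>
      ⟨by
        obtain ⟨n, h1, h2⟩ := h
        exact IsIntegral.of_pow (Nat.pos_of_ne_zero h1) (h2 ▸ isIntegral_one),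
      fun φ => (Rt.norm_eq (Rt.map φ h)).le⟩
    frob := fun _ _ _ _ _ _ _ hp h => frob hp h
    exFb := fun K _ _ _ _ Q => by
      obtain ⟨P, h1, h2, h3⟩ := isFrob_frob (L := M) (below K Q)
      obtain ⟨Q0, rfl, h4⟩ := SplitAux.of_mem (q := below K Q) (P := P) ⟨h1, h2⟩
      obtain ⟨δ, rfl⟩ := (gal K M).trans inferInstance Q0 Q h4
      exact ⟨_, FrameAux.frob_conj δ _ Q0 h3⟩ }

end Pool.Agent.CD
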