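import Pool.Agent.Lib.MP_ca56d1_nt.CD.Fld

/-! The action of the Galois group of a large field on the values. -/

namespace Pool.Agent.CD

open NumberField IsDedekindDomain Pool.Agent.Stark Pool.Agent.Stark.AR Pool.Agent.StarkD
  Pool.Agent.CU StarkStmt
open scoped IsMulCommutative Classical

variable {K : Type} [Field K] [NumberField K] {ρ : K →+* ℝ} {σ : K →+* ℂ}
  {H : Type} [Field H] [NumberField H] [Algebra K H] [IsAbelianGalois K H]

namespace PreAux

variable {M : Type} [Field M] [NumberField M] [Algebra K M]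

omit [NumberField K] [NumberField M] in
/-- Automorphisms commute on roots of unity. -/
theorem rt_comm {z : M} (h : Rt z) (γ η : M ≃ₐ[K] M) : γ (η z) = η (γ z) := by
  obtain ⟨n, h1, h2⟩ := h
  have : NeZero (orderOf z) :=
    ⟨(isOfFinOrder_iff_pow_eq_one.2 ⟨n, Nat.pos_of_ne_zero h1, h2⟩).orderOf_pos.ne'⟩
  have key : ∀ γ : M ≃ₐ[K] M, ∃ a : ℕ, γ z = z ^ a := fun γ => by
    obtain ⟨a, -, ha⟩ := (IsPrimitiveRoot.orderOf z).eq_pow_of_pow_eq_one (ξ := γ z)
      (by rw [← map_pow, pow_orderOf_eq_one, map_one])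
    exact ⟨a, ha.symm⟩
  obtain ⟨a, ha⟩ := key γ
  obtain ⟨b, hb⟩ := key η
  rw [ha, hb, map_pow, map_pow, ha, hb, ← pow_mul, ← pow_mul, mul_comm]

/-- Large Frobenius elements that move `δ` generate the Galois group. -/
theorem gen (hM : IsGalois ℚ M) {δ : M} (h0 : ∃ γ : M ≃ₐ[K] M, γ δ ≠ δ) (B : ℕ)
    (A : Submonoid (M ≃ₐ[K] M)) (h : ∀ p : ℕ, B < p → p.Prime → ∀ (Q : Pr M) (γ : M ≃ₐ[K] M),
      (p : 𝓞 M) ∈ Q.asIdeal → Fb p Q γ → γ δ ≠ δ → γ ∈ A) (γ : M ≃ₐ[K] M) : γ ∈ A := by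
  have key : ∀ γ : M ≃ₐ[K] M, γ δ ≠ δ → γ ∈ A := fun γ hγ => by
    obtain ⟨p, P, s, h1, h2, h3, h4, h5, h6⟩ := exists_frob (γ.restrictScalars ℚ) B
    obtain ⟨k, hk⟩ : s ∈ Subgroup.zpowers (γ.restrictScalars ℚ) := h6 ▸ Subgroup.mem_zpowers s
    have h7 : AlgEquiv.restrictScalarsHom ℚ (γ ^ k) = s := (map_zpow _ _ _).trans hk
    have h0 : P ≠ ⊥ := by
      rintro rfl
      exact h2.ne_zero (by simpa using h4)
    have h8 : Subgroup.zpowers (γ ^ k) = Subgroup.zpowers γ := by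
      refine Subgroup.map_injective (AlgEquiv.restrictScalarsHom_injective ℚ) ?_
      rw [MonoidHom.map_zpowers, MonoidHom.map_zpowers, h7]
      exact h6
    have h9 : γ ∈ Subgroup.zpowers (γ ^ k) := h8 ▸ Subgroup.mem_zpowers γ
    refine Submonoid.powers_le.2 (h p h1 h2 ⟨P, h3, h0⟩ (γ ^ k) h4 (fun x => ?_) fun e => hγ ?_)
      (mem_powers_iff_mem_zpowers.2 h9)
    · have h10 : (γ ^ k) • x = s • x := by rw [← h7]; rfl
      rw [h10]
      exact h5 x
    · exact (Subgroup.zpowers_le (H := MulAction.stabilizer (M ≃ₐ[K] M) δ)).2 e h9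
  obtain ⟨η, hη⟩ := h0
  by_cases hγ : γ δ = δ
  · rw [← mul_inv_cancel_right γ η]
    refine mul_mem (key _ fun e => hη (γ.injective (e.trans hγ.symm))) (key _ fun e => hη ?_)
    conv_lhs => rw [← e]
    exact η.apply_symm_apply δ
  · exact key γ hγ

end PreAux

open PreAux in
theorem preS (hG : GoodSt (K := K)) (hY : KeySt ρ σ) : PreSt ρ σ H := by
  intro S N u φ hS hR hφ hu hK
  have := GenAux.fin ρ S N
  obtain ⟨M, _, _, _, _, _, ι, hM, hι, hT⟩ := exists_fld K φ (Set.range u) (Set.finite_range u)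
    (by rintro _ ⟨c, rfl⟩; exact (hu c).2)
  have : IsGalois K M := IsGalois.tower_top_of_isGalois ℚ K M
  choose U hU using fun c => hT (u c) ⟨c, rfl⟩
  have h0 : ∀ c, U c ≠ 0 := fun c e => (hu c).1 (by rw [← hU, e, map_zero])
  obtain ⟨δ, -, hδ, B, hB⟩ := hG M hM
  obtain ⟨B', hB'⟩ := hY S N u M ι U
    (fun x => by rw [IsScalarTower.algebraMap_apply K H M, hι, hφ]) hU (fun c => (hu c).1) hK
  have key : ∀ p q, B' < p → Gd p q → ∀ c (Q : Pr M) (γ : M ≃ₐ[K] M), below K Q = q →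
      Fb p Q γ → Rt (γ (U c) / U (c + cls ρ S N (pd q))) := fun p q hp hq c Q γ hQ hγ => by
    obtain ⟨ζ, h1, h2⟩ := hB' p q hp hq c
    rw [h2 Q γ hQ hγ, div_mul_cancel_right₀ ((map_ne_zero γ).2 (h0 c))]
    exact h1.inv
  have hA := ArtH.artS (σ' := ρ) (H := H)
  have act : ∀ γ : M ≃ₐ[K] M, ∃ a, art H a = AlgEquiv.restrictNormalHom H γ ∧
      ∀ c, Rt (γ (U c) / U (c + a)) :=
    gen hM hδ (B + B' + ∑ q ∈ S, Ideal.absNorm q.asIdeal)
      { carrier := {γ | ∃ a, art H a = AlgEquiv.restrictNormalHom H γ ∧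
          ∀ c, Rt (γ (U c) / U (c + a))}
        one_mem' := ⟨0, by simpa using hA.add S N hR 0 0, fun c => by
          rw [add_zero, AlgEquiv.one_apply, div_self (h0 c)]
          exact Rt.one⟩
        mul_mem' := by
          rintro γ η ⟨a, a1, a2⟩ ⟨b, b1, b2⟩
          refine ⟨b + a, by rw [hA.add S N hR, a1, b1, map_mul, mul_comm], fun c => ?_⟩
          have h1 := (b2 c).map γ
          rw [map_div₀] at h1
          exact add_assoc c b a ▸ h1.trans (a2 _) } fun p hp hpp Q γ hQ hγ hd => by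
      have h1 := hB p (by omega) hpp Q γ hQ hγ hd
      have h2 : below K Q ∉ S := fun h => by
        have h3 := Finset.single_le_sum (f := fun q : Pr K => Ideal.absNorm q.asIdeal)
          (fun _ _ => Nat.zero_le _) h
        have h4 := h1.1
        omega
      exact ⟨_, (hA.prime S N hR _ h2).trans (res_frob hS γ Q hpp hQ h2 hγ).2.symm,
        fun c => key p _ (by omega) h1 c Q γ rfl hγ⟩
  have hX : ∀ (γ : M ≃ₐ[K] M) (x : M), (∃ c, Rt (x / U c)) → ∃ c, Rt (γ x / U c) := by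
    rintro γ x ⟨c, h1⟩
    obtain ⟨a, -, h2⟩ := act γ
    have h3 := h1.map γ
    rw [map_div₀] at h3
    exact ⟨_, h3.trans (h2 c)⟩
  have comm : ∀ γ η : M ≃ₐ[K] M, ∀ x, (∃ c, Rt (x / U c)) → η (γ x) = γ (η x) :=
    gen hM hδ (B + B')
      { carrier := {γ | ∀ η : M ≃ₐ[K] M, ∀ x, (∃ c, Rt (x / U c)) → η (γ x) = γ (η x)}
        one_mem' := fun _ _ _ => rfl
        mul_mem' := fun {γ γ'} h h' η x hx =>
          (h η _ (hX γ' x hx)).trans (congrArg γ (h' η x hx)) } fun p hp hpp Q γ hQ hγ hd η x hx => by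
      obtain ⟨c, h1⟩ := hX η x hx
      obtain ⟨ζ, h2, h3⟩ := hB' p _ (by omega) (hB p (by omega) hpp Q γ hQ hγ hd) c
      have h4 := mul_left_cancel₀ h2.ne_zero ((h3 _ _ (GalAux.below_smul η Q)
        (FrameAux.frob_conj η γ Q hγ)).symm.trans (h3 Q γ rfl hγ))
      have h5 : (η * γ * η⁻¹) (η x / U c) = γ (η x / U c) := by
        rw [AlgEquiv.mul_apply, AlgEquiv.mul_apply, rt_comm h1 γ η⁻¹]
        exact η.apply_symm_apply _
      rw [map_div₀, map_div₀, h4, div_left_inj' ((map_ne_zero γ).2 (h0 c)), AlgEquiv.mul_apply,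
        AlgEquiv.mul_apply] at h5
      rw [← h5]
      exact congrArg (fun y => η (γ y)) (η.symm_apply_apply x).symm
  exact ⟨M, inferInstance, inferInstance, inferInstance, inferInstance, inferInstance, ι, U, this,
    hι, hU, act, fun γ η c => comm η γ _ ⟨c, by rw [div_self (h0 c)]; exact Rt.one⟩, B', key⟩

end Pool.Agent.CD
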