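import Pool.Agent.Lib.MP_ca56d1_nt.CD.Fld
import Pool.Agent.Lib.MP_ca56d1_nt.D.Eig

/-! The ray class group of the auxiliary level. -/

namespace Pool.Agent.CD

open NumberField IsDedekindDomain Pool.Agent.Stark Pool.Agent.Stark.AR Pool.Agent.StarkD
  Pool.Agent.CU StarkStmt
open scoped IsMulCommutative Classical

namespace RayAux

section Loc

variable {k : Type*} [Field k] {w : Valuation k (WithZero (Multiplicative ℤ))}

theorem mul_mem0 {x y : k} {j : ℤ} (hx : x ∈ pw w 0) (hy : y ∈ pw w j) : x * y ∈ pw w j := by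
  have := pw_mul hx hy
  rwa [zero_add] at this

theorem one_mem0 : (1 : k) ∈ pw w 0 := by simpa using EigAux.int_mem (w := w) 1

theorem pow_mem0 {x : k} (hx : x ∈ pw w 0) (n : ℕ) : x ^ n ∈ pw w 0 := by
  induction n with
  | zero => simpa using one_mem0
  | succ n ih => rw [pow_succ]; exact mul_mem0 ih hx

theorem pow_sub_one {x : k} (hx : x - 1 ∈ pw w 1) (n : ℕ) : x ^ n - 1 ∈ pw w 1 := by
  have h0 : x ∈ pw w 0 := by
    simpa using add_mem (ComplAux.pw_mono zero_le_one hx) one_mem0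
  induction n with
  | zero => simp
  | succ n ih =>
    have := add_mem (mul_mem0 h0 ih) hx
    convert this using 1
    ring

theorem step {p : ℕ} (hp : (p : k) ∈ pw w 1) {x : k} {j : ℤ} (hj : 1 ≤ j)
    (hx : x - 1 ∈ pw w j) : x ^ p - 1 ∈ pw w (j + 1) := by
  have h1 : ∑ i ∈ Finset.range p, (x ^ i - 1) ∈ pw w 1 :=
    sum_mem fun i _ => pow_sub_one (ComplAux.pw_mono hj hx) i
  have h2 := pw_mul hx (add_mem h1 hp)
  rw [Finset.sum_sub_distrib, Finset.sum_const, Finset.card_range, nsmul_eq_mul, mul_one,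
    sub_add_cancel, mul_geom_sum] at h2
  exact h2

theorem steps {p : ℕ} (hp : (p : k) ∈ pw w 1) {x : k} (hx : x - 1 ∈ pw w 1) (N : ℕ) :
    x ^ p ^ N - 1 ∈ pw w ((N : ℤ) + 1) := by
  induction N with
  | zero => simpa using hx
  | succ N ih =>
    rw [pow_succ, pow_mul]
    push_cast
    exact step hp (by omega) ih

theorem exists_res {p : ℕ} (hp : p.Prime) (h : (p : k) ∈ pw w 1)
    (hr : ∀ y ∈ pw w 0, ∃ n : ℤ, y - n ∈ pw w 1) :
    ∃ ψ : k → ZMod p, ψ 1 = 1 ∧ (∀ x ∈ pw w 0, ∀ y ∈ pw w 0, ψ x = ψ y ↔ x - y ∈ pw w 1) ∧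
      (∀ x ∈ pw w 0, ∀ y ∈ pw w 0, ψ (x * y) = ψ x * ψ y) ∧
      ∀ x ∈ pw w 0, ∀ n : ℕ, ψ (x ^ n) = ψ x ^ n := by
  choose! f hf using hr
  have key : ∀ y ∈ pw w 0, ∀ n : ℤ, (f y : ZMod p) = n ↔ y - n ∈ pw w 1 := fun y hy n => by
    rw [ZMod.intCast_eq_intCast_iff_dvd_sub]
    constructor
    · rintro ⟨c, hc⟩
      have h1 := sub_mem (hf y hy) (mul_mem0 (EigAux.int_mem c) h)
      have h2 : (n : k) = f y + p * c := by
        rw [show n = f y + p * c by omega]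
        push_cast
        rfl
      convert h1 using 1
      rw [h2]
      ring
    · intro h1
      refine EigAux.dvd_of_mem hp h ?_
      have h2 := sub_mem (hf y hy) h1
      convert h2 using 1
      push_cast
      ring
  have h1 : ((f 1 : ℤ) : ZMod p) = 1 := by
    simpa using (key 1 one_mem0 1).2 (by simp)
  have hm : ∀ x ∈ pw w 0, ∀ y ∈ pw w 0, ((f (x * y) : ℤ) : ZMod p) = f x * f y := by
    intro x hx y hy
    rw [← Int.cast_mul, key _ (mul_mem0 hx hy)]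
    have := add_mem (mul_mem0 hx (hf y hy)) (mul_mem0 (EigAux.int_mem (f y)) (hf x hx))
    convert this using 1
    push_cast
    ring
  refine ⟨fun y => f y, h1, fun x hx y hy => ?_, hm, fun x hx n => ?_⟩
  · rw [key x hx]
    constructor
    · intro h2
      have := sub_mem h2 (hf y hy)
      convert this using 1
      ring
    · intro h2
      have := add_mem h2 (hf y hy)
      convert this using 1
      ring
  · induction n with
    | zero => simpa using h1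
    | succ n ih =>
      beta_reduce at ih ⊢
      rw [pow_succ, hm _ (pow_mem0 hx n) _ hx, ih, pow_succ]

end Loc

theorem grp {p r : ℕ} [Fact p.Prime] (hr : r ∣ p - 1) {a b : ZMod p} (ha : a ≠ 0) (hb : b ≠ 0)
    (h : a ^ ((p - 1) / r) ≠ 1) : ∃ m j : ℕ, ¬ r ∣ m ∧ b ^ m = a ^ j := by
  let A := Units.mk0 a ha
  let B := Units.mk0 b hb
  have h1 : B ^ (Subgroup.zpowers A).index ∈ Subgroup.zpowers A := Subgroup.pow_index_mem _ B
  rw [← mem_powers_iff_mem_zpowers] at h1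
  obtain ⟨j, hj⟩ := h1
  refine ⟨(Subgroup.zpowers A).index, j, ?_, by simpa [A, B] using (congrArg Units.val hj).symm⟩
  rintro ⟨c, hc⟩
  have h2 := (Subgroup.zpowers A).index_mul_card
  rw [Nat.card_zpowers, Nat.card_eq_fintype_card, ZMod.card_units, hc] at h2
  have h3 : r ≠ 0 := by
    rintro rfl
    have := (Fact.out : p.Prime).two_le
    omega
  have h4 : (p - 1) / r = orderOf A * c := by
    rw [← h2, mul_assoc, Nat.mul_div_cancel_left _ (Nat.pos_of_ne_zero h3), mul_comm]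
  apply h
  have h5 : A ^ ((p - 1) / r) = 1 := by rw [h4, pow_mul, pow_orderOf_eq_one, one_pow]
  simpa [A] using congrArg Units.val h5

variable {K : Type} [Field K] [NumberField K] {ρ : K →+* ℝ}

theorem ray_pow {S : Finset (Pr K)} {N : ℕ} {a : K} (h : Ray S N a) (n : ℕ) : Ray S N (a ^ n) := by
  induction n with
  | zero => simpa using Ray.one S N
  | succ n ih => rw [pow_succ]; exact ih.mul h

theorem dv_pow (a : K) (n : ℕ) : dv (a ^ n) = n • dv a :=
  Finsupp.ext fun q => by simp [og, ord_pow]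

theorem cls_congr {S : Finset (Pr K)} {N : ℕ} {D D' : Dv K} (h : ∀ q ∉ S, D q = D' q) :
    cls ρ S N D = cls ρ S N D' :=
  cls_eq.2 ⟨1, Ray.one S N, by simp, fun q hq => by simp [og, h q hq]⟩

theorem cls_ray {S : Finset (Pr K)} {N : ℕ} {a : K} (h : Ray S N a) (h' : 0 < ρ a) :
    cls ρ S N (dv a) = 0 := by
  rw [← map_zero (cls ρ S N)]
  exact (cls_eq.2 ⟨a, h, h', fun q _ => by simp⟩).symm

theorem of_cls {S : Finset (Pr K)} {N : ℕ} {D : Dv K} (h : cls ρ S N D = 0) :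
    ∃ b : K, Ray S N b ∧ 0 < ρ b ∧ ∀ q ∉ S, og q b = D q := by
  rw [← map_zero (cls ρ S N)] at h
  obtain ⟨b, h1, h2, h3⟩ := cls_eq.1 h.symm
  exact ⟨b, h1, h2, fun q hq => by simpa using (h3 q hq).symm⟩

variable {S : Finset (Pr K)} {N : ℕ} {l q : Pr K} {t : K} {p r : ℕ}

theorem app (h : Aux ρ S N l q t p r) (S' : Finset (Pr K)) (N' : ℕ) (hS : S ⊆ S') (hl : l ∈ S') :
    ∃ a : K, PS S' a ∧ Ray (S'.erase l) N' (a / t) ∧ 0 < ρ a ∧ Ray S N a := by
  have t0 := h.ray.1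
  obtain ⟨y, hy, -⟩ := approx_strong S' (fun s => emb s (if s = l then 1 else t))
    (((max N N' : ℕ) : ℤ) + 1)
  have h1 : ∀ s ∈ S', y - (if s = l then 1 else t) ∈
      pw (s.valuation K) (((max N N' : ℕ) : ℤ) + 1) := fun s hs => by
    have := hy s hs
    rwa [← map_sub, ComplAux.emb_mem_pw] at this
  have h2 := h1 l hl
  rw [if_pos rfl] at h2
  have y0 : y ≠ 0 := by
    rintro rfl
    have h3 := neg_mem (ComplAux.pw_mono (i := 1) (by omega) h2)
    rw [zero_sub, neg_neg] at h3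
    exact EigAux.one_notMem h3
  have h3 : Ray {l} (max N N') y := ⟨y0, fun s hs => by rwa [Finset.mem_singleton.1 hs]⟩
  have h4 : Ray (S'.erase l) (max N N') (y / t) := ⟨div_ne_zero y0 t0, fun s hs => by
    obtain ⟨h5, h6⟩ := Finset.mem_erase.1 hs
    have h7 := h1 s h6
    rw [if_neg h5] at h7
    rw [show y / t - 1 = (y - t) / t by field_simp]
    refine ComplAux.pw_div t0 ?_
    have h8 := h.supp s h5
    rw [og] at h8
    rwa [h8, zero_add]⟩
  obtain ⟨b, h5, h6⟩ := RayTAux.sgn S' (max N N') fun φ => 0 < φ y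
  have h7 : Ray {l} (max N N') (y * b) :=
    h3.mul (h5.mono (Finset.singleton_subset_iff.2 hl) le_rfl)
  have h8 : Ray (S'.erase l) (max N N') (y * b / t) := by
    rw [mul_div_right_comm]
    exact h4.mul (h5.mono (Finset.erase_subset _ _) le_rfl)
  have h9 : Ray (S.erase l) N (y * b) := by
    have := (h8.mono (Finset.erase_subset_erase l hS) (le_max_left _ _)).mul h.ray
    rwa [div_mul_cancel₀ _ t0] at this
  refine ⟨y * b, ⟨h7.1, fun s hs => ?_⟩, h8.mono le_rfl (le_max_right _ _), ?_, h7.1,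
    fun s hs => ?_⟩
  · by_cases e : s = l
    · exact h7.og_eq (Finset.mem_singleton.2 e)
    · have h10 := h8.og_eq (Finset.mem_erase.2 ⟨e, hs⟩)
      have h11 := h.supp s e
      rw [og] at *
      rw [ord_div h7.1 t0] at h10
      omega
  · rw [map_mul]
    by_cases e : 0 < ρ y
    · exact mul_pos e ((h6 ρ).2 e)
    · exact mul_pos_of_neg_of_neg (lt_of_le_of_ne (not_lt.1 e) ((map_ne_zero ρ).2 y0))
        (lt_of_le_of_ne (not_lt.1 fun e' => e ((h6 ρ).1 e')) ((map_ne_zero ρ).2 h5.1))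
  · by_cases e : s = l
    · exact (h7.mono le_rfl (le_max_left _ _)).2 s (Finset.mem_singleton.2 e)
    · exact h9.2 s (Finset.mem_erase.2 ⟨e, hs⟩)

theorem p_mem (h : Aux ρ S N l q t p r) : (p : K) ∈ pw (q.valuation K) 1 := by
  have h1 := (ComplAux.int_mem_pw q (p : 𝓞 K) 1).2 (by
    rw [pow_one, ← h.norm]
    exact Ideal.absNorm_mem _)
  rwa [GenAux.coe_nat] at h1

theorem mem0 {x : K} (hx : og q x = 0) : x ∈ pw (q.valuation K) 0 :=
  ComplAux.mem_pw_zero.2 hx.ge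

/-- The residue map at the auxiliary prime. -/
theorem res (h : Aux ρ S N l q t p r) : ∃ ψ : K → ZMod p,
    (∀ x y, og q x = 0 → og q y = 0 → (ψ x = ψ y ↔ x - y ∈ pw (q.valuation K) 1)) ∧
    (∀ x y, og q x = 0 → og q y = 0 → ψ (x * y) = ψ x * ψ y) ∧
    (∀ x, og q x = 0 → ∀ n : ℕ, ψ (x ^ n) = ψ x ^ n) ∧
    (∀ x, og q x = 0 → ∀ n : ℕ, (ψ x ^ n = 1 ↔ x ^ n - 1 ∈ pw (q.valuation K) 1)) ∧
    (∀ x, x ≠ 0 → og q x = 0 → ψ x ≠ 0) ∧
    ∀ a, og q a = 0 → a / t - 1 ∈ pw (q.valuation K) 1 → ψ a ^ ((p - 1) / r) ≠ 1 := by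
  have := Fact.mk h.pp
  obtain ⟨ψ, h1, h2, h3, h4⟩ := exists_res (w := q.valuation K) h.pp (p_mem h) fun y hy => by
    obtain ⟨n, hn⟩ := EigAux.res_loc h.pp ((rc_wv q).trans h.norm)
      ((ComplAux.emb_mem_pw q y 0).2 hy)
    refine ⟨n, (ComplAux.emb_mem_pw q _ 1).1 ?_⟩
    rwa [map_sub, map_intCast]
  have h5 : ∀ x, og q x = 0 → ∀ n : ℕ, (ψ x ^ n = 1 ↔ x ^ n - 1 ∈ pw (q.valuation K) 1) :=
    fun x hx n => by rw [← h4 x (mem0 hx), ← h2 _ (pow_mem0 (mem0 hx) n) _ one_mem0, h1]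
  refine ⟨ψ, fun x y hx hy => h2 x (mem0 hx) y (mem0 hy), fun x y hx hy =>
    h3 x (mem0 hx) y (mem0 hy), fun x hx => h4 x (mem0 hx), h5, fun x x0 hx e => ?_,
    fun a ha e => ?_⟩
  · have h6 : og q x⁻¹ = 0 := by
      rw [og] at *
      rw [ord_inv, hx, neg_zero]
    have h7 := h3 x (mem0 hx) _ (mem0 h6)
    rw [mul_inv_cancel₀ x0, h1, e, zero_mul] at h7
    exact one_ne_zero h7
  · have ht := h.supp q h.ne
    have h6 := mul_mem0 (mem0 ht) e
    rw [mul_sub, mul_div_cancel₀ _ h.ray.1, mul_one] at h6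
    rw [(h2 a (mem0 ha) t (mem0 ht)).2 h6]
    exact fun e' => h.npow ((h5 t ht _).1 e')

theorem ord (h : Aux ρ S N l q t p r) : r ∣ Nat.card (Cl ρ (insert q S) N) := by
  have := Fact.mk h.pp
  have := Fact.mk h.pr
  obtain ⟨ψ, -, h2, h3, h4, h5, h6⟩ := res h
  have hs : insert q S ⊆ insert l (insert q S) := Finset.subset_insert _ _
  have hq : q ∈ insert q S := Finset.mem_insert_self _ _
  obtain ⟨a, a1, a2, -, -⟩ := app h (insert l (insert q S)) 0
    ((Finset.subset_insert _ _).trans hs) (Finset.mem_insert_self _ _)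
  have a3 := a1.2 q (hs hq)
  have a4 := h6 a a3 (by simpa using a2.2 q (Finset.mem_erase.2 ⟨h.ne, hs hq⟩))
  set n := Nat.card (Cl ρ (insert q S) N) with hn
  obtain ⟨b, b1, -, b3⟩ := of_cls (ρ := ρ) (S := insert q S) (N := N) (D := dv (a ^ n)) (by
    rw [dv_pow, map_nsmul]
    exact card_nsmul_eq_zero')
  have e1 : IsU (a ^ n / b) := ⟨div_ne_zero (pow_ne_zero _ a1.1) b1.1, fun s => by
    rw [og, ord_div (pow_ne_zero _ a1.1) b1.1]
    by_cases hs' : s ∈ insert q S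
    · have h7 := a1.2 s (hs hs')
      have h8 := b1.og_eq hs'
      rw [og] at h7 h8
      rw [ord_pow, h7, h8]
      simp
    · have h7 := b3 s hs'
      rw [dv_apply, og, og] at h7
      rw [h7, sub_self]⟩
  have e2 := (h4 _ (e1.2 q) _).2 (h.unit _ e1)
  have b4 : ψ b = 1 := by
    simpa using (h4 b (b1.og_eq hq) 1).2 (by
      rw [pow_one]
      exact ComplAux.pw_mono (by omega) (b1.2 q hq))
  have e3 := h2 _ _ (e1.2 q) (b1.og_eq hq)
  rw [div_mul_cancel₀ _ b1.1, b4, mul_one, h3 a a3] at e3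
  rw [← e3, ← pow_mul, mul_comm, pow_mul] at e2
  have e4 : (ψ a ^ ((p - 1) / r)) ^ r = 1 := by
    rw [← pow_mul, Nat.div_mul_cancel h.dvd]
    exact ZMod.pow_card_sub_one_eq_one (h5 a a1.1 a3)
  rw [← orderOf_eq_prime e4 a4]
  exact orderOf_dvd_of_pow_eq_one e2

theorem gen (h : Aux ρ S N l q t p r) (κ : Cl ρ (insert q S) N →+ ZMod r)
    (S' : Finset (Pr K)) (N' : ℕ) (hs : insert q S ⊆ S') (hl : l ∈ S')
    (hκ : ∀ a : K, PS S' a → Ray (S'.erase l) N' (a / t) → 0 < ρ a →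
      κ (cls ρ (insert q S) N (dv a)) = 0) : κ = 0 := by
  have := Fact.mk h.pp
  have := Fact.mk h.pr
  obtain ⟨ψ, h1, -, h3, -, h5, h6⟩ := res h
  have hq : q ∈ insert q S := Finset.mem_insert_self _ _
  obtain ⟨a, a1, a2, a5, a6⟩ := app h S' N' ((Finset.subset_insert _ _).trans hs) hl
  have a3 := a1.2 q (hs hq)
  have a4 := h6 a a3 (ComplAux.pw_mono (by omega) (a2.2 q (Finset.mem_erase.2 ⟨h.ne, hs hq⟩)))
  have a7 := hκ a a1 a2 a5
  refine AddMonoidHom.ext fun c => ?_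
  set n := Nat.card (Cl ρ S N) with hn
  obtain ⟨b, b1, b2, b3⟩ := of_cls (ρ := ρ) (S := S) (N := N) (D := n • c.out.erase q) (by
    rw [map_nsmul]
    exact card_nsmul_eq_zero')
  have b4 : og q b = 0 := by simpa using b3 q h.notMem
  have b5 : cls ρ (insert q S) N (dv b) = n • c := by
    conv_rhs => rw [← cls_out c, ← map_nsmul]
    refine cls_congr fun s hs' => ?_
    rw [Finset.mem_insert, not_or] at hs'
    rw [dv_apply, b3 s hs'.2, Finsupp.smul_apply, Finsupp.smul_apply, Finsupp.erase_ne hs'.1]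
  obtain ⟨m, j, hm, e1⟩ := grp h.dvd (h5 a a1.1 a3) (h5 b b1.1 b4) a4
  have hp : ∀ x : K, og q x = 0 → ∀ i : ℕ, og q (x ^ i) = 0 := fun x hx i => by
    rw [og] at *
    rw [ord_pow, hx, mul_zero]
  rw [← h3 a a3, ← h3 b b4, h1 _ _ (hp b b4 m) (hp a a3 j)] at e1
  have aj : a ^ j ≠ 0 := pow_ne_zero _ a1.1
  have x1 : Ray S N (b ^ m / a ^ j) := (ray_pow b1 m).div (ray_pow a6 j)
  have x2 : b ^ m / a ^ j - 1 ∈ pw (q.valuation K) 1 := by
    rw [show b ^ m / a ^ j - 1 = (b ^ m - a ^ j) / a ^ j by field_simp]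
    refine ComplAux.pw_div aj ?_
    have h8 := hp a a3 j
    rw [og] at h8
    rwa [h8, zero_add]
  have x3 : Ray (insert q S) N ((b ^ m / a ^ j) ^ p ^ N) := ⟨pow_ne_zero _ x1.1, fun s hs' => by
    rcases Finset.mem_insert.1 hs' with rfl | hs'
    · exact steps (p_mem h) x2 N
    · exact (ray_pow x1 _).2 s hs'⟩
  have x4 := congrArg κ (cls_ray (ρ := ρ) x3 (by
    rw [map_pow, map_div₀, map_pow, map_pow]
    positivity))
  rw [dv_pow, div_eq_mul_inv, dv_mul (pow_ne_zero _ b1.1) (inv_ne_zero aj), dv_inv, dv_pow, dv_pow]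
    at x4
  simp only [map_nsmul, map_add, map_neg, b5, a7, map_zero, smul_zero, neg_zero, add_zero,
    nsmul_eq_mul, Nat.cast_pow] at x4
  have p0 : (p : ZMod r) ≠ 0 := fun e => by
    have h7 := (ZMod.natCast_eq_zero_iff _ _).1 e
    have h8 := (Nat.dvd_sub_iff_right h.pp.one_le h7).1 h.dvd
    exact h.pr.one_lt.ne' (Nat.dvd_one.1 h8)
  have m0 : (m : ZMod r) ≠ 0 := fun e => hm ((ZMod.natCast_eq_zero_iff _ _).1 e)
  have n0 : (n : ZMod r) ≠ 0 := fun e => h.card ((ZMod.natCast_eq_zero_iff _ _).1 e)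
  simpa [p0, m0, n0] using x4

end RayAux

variable {K : Type} [Field K] [NumberField K] {ρ : K →+* ℝ}

theorem rayS : RaySt ρ :=
  ⟨fun _ _ _ _ _ _ _ h => RayAux.ord h, fun _ _ _ _ _ _ _ h => RayAux.gen h⟩

end Pool.Agent.CD
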