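import Pool.Agent.Lib.MP_ca56d1_nt.CD.Fld
import Pool.Agent.Lib.MP_ca56d1_nt.Kum

/-! Descent of the `W`-th power of an element moved by roots of unity. -/

namespace Pool.Agent.CD

open NumberField IsDedekindDomain Pool.Agent.Stark Pool.Agent.Stark.AR Pool.Agent.StarkD
  Pool.Agent.CU StarkStmt
open scoped IsMulCommutative Classical

namespace SahAux

theorem rt_iff {R : Type*} [Monoid R] {z : R} : Rt z ↔ IsOfFinOrder z := by
  rw [isOfFinOrder_iff_pow_eq_one]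
  exact ⟨fun ⟨n, h1, h2⟩ => ⟨n, Nat.pos_of_ne_zero h1, h2⟩, fun ⟨n, h1, h2⟩ => ⟨n, h1.ne', h2⟩⟩

/-- A ring endomorphism raises a root of unity to a power. -/
theorem map_eq_pow {Ω G : Type*} [Field Ω] [FunLike G Ω Ω] [RingHomClass G Ω Ω] (s : G) {ω : Ω}
    (h : Rt ω) : ∃ a : ℕ, s ω = ω ^ a := by
  have h0 : orderOf ω ≠ 0 := (rt_iff.1 h).orderOf_pos.ne'
  have : NeZero (orderOf ω) := ⟨h0⟩
  obtain ⟨a, -, ha⟩ := (IsPrimitiveRoot.orderOf ω).eq_pow_of_pow_eq_one (ξ := s ω)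
    (by rw [← map_pow, pow_orderOf_eq_one, map_one])
  exact ⟨a, ha.symm⟩

theorem comm_rt {Ω G : Type*} [Field Ω] [FunLike G Ω Ω] [RingHomClass G Ω Ω] (s t : G) {ω : Ω}
    (h : Rt ω) : s (t ω) = t (s ω) := by
  obtain ⟨a, ha⟩ := map_eq_pow s h
  obtain ⟨b, hb⟩ := map_eq_pow t h
  rw [ha, hb, map_pow, map_pow, ha, hb, ← pow_mul, ← pow_mul, mul_comm]

variable {H F : Type} [Field H] [NumberField H] [Field F] [NumberField F] [Algebra H F]

/-- The exponents whose power descends up to a root of unity. -/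
def expo (H : Type) [Field H] [Algebra H F] (V : F) (hV : V ≠ 0) : AddSubgroup ℤ where
  carrier := {k | ∃ θ : F, Rt θ ∧ ∀ g : F ≃ₐ[H] F, g (V ^ k / θ) = V ^ k / θ}
  zero_mem' := ⟨1, Rt.one, fun g => by simp⟩
  add_mem' := by
    rintro a b ⟨θ, h1, h2⟩ ⟨θ', h3, h4⟩
    refine ⟨θ * θ', h1.mul h3, fun g => ?_⟩
    rw [zpow_add₀ hV, mul_div_mul_comm, map_mul, h2, h4]
  neg_mem' := by
    rintro a ⟨θ, h1, h2⟩
    refine ⟨θ⁻¹, h1.inv, fun g => ?_⟩
    rw [zpow_neg, inv_div_inv, ← inv_div, map_inv₀, h2]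

theorem descend [IsGalois H F] (hc : ∀ (g d : F ≃ₐ[H] F) (x : F), g (d x) = d (g x)) (V : F)
    (h : ∀ g : F ≃ₐ[H] F, Rt (g V / V)) :
    ∃ ε : H, Rt (algebraMap H F ε / V ^ Units.torsionOrder H) := by
  have hV : V ≠ 0 := fun e => (h 1).ne_zero (by rw [e, div_zero])
  obtain ⟨z, hz, hz'⟩ := exists_prim F
  have hn : Units.torsionOrder F ≠ 0 := Units.torsionOrder_ne_zero F
  have hzr : Rt z := ⟨_, hn, hz.pow_eq_one⟩
  choose x hx using fun d : F ≃ₐ[H] F => map_eq_pow d hzr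
  have hact : ∀ (d : F ≃ₐ[H] F) (θ : F), Rt θ → d θ = θ ^ x d := fun d θ hθ => by
    obtain ⟨m, rfl⟩ := hz' θ (rt_iff.1 hθ)
    rw [map_pow, hx, ← pow_mul, ← pow_mul, mul_comm]
  have hgV : ∀ g : F ≃ₐ[H] F, g V = g V / V * V := fun g => (div_mul_cancel₀ _ hV).symm
  have h1 : ((Units.torsionOrder F : ℕ) : ℤ) ∈ expo H V hV := by
    refine ⟨1, Rt.one, fun g => ?_⟩
    obtain ⟨m, hm⟩ := hz' _ (rt_iff.1 (h g))
    rw [div_one, zpow_natCast, map_pow, hgV g, mul_pow, hm, ← pow_mul, mul_comm m, pow_mul,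
      hz.pow_eq_one, one_pow, one_mul]
  have h2 : ∀ d : F ≃ₐ[H] F, (x d : ℤ) - 1 ∈ expo H V hV := fun d => by
    refine ⟨d V / V, h d, fun g => ?_⟩
    have e1 : d (g V) = (g V / V) ^ x d * d V := by
      conv_lhs => rw [hgV g, map_mul, hact d _ (h g)]
    have g0 : g V ≠ 0 := (map_ne_zero g).2 hV
    have d0 : d V ≠ 0 := (map_ne_zero d).2 hV
    rw [zpow_sub₀ hV, zpow_one, zpow_natCast, map_div₀, map_div₀, map_div₀, map_pow, hc g d, e1,
      div_pow]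
    have := pow_ne_zero (x d) hV
    have := pow_ne_zero (x d) g0
    field_simp
  obtain ⟨e, he⟩ := Int.subgroup_cyclic (expo H V hV)
  have hm : ∀ k : ℤ, k ∈ expo H V hV ↔ e ∣ k := fun k => by
    rw [he, AddSubgroup.mem_closure_singleton]
    exact ⟨fun ⟨a, ha⟩ => ⟨a, by rw [← ha, smul_eq_mul, mul_comm]⟩,
      fun ⟨a, ha⟩ => ⟨a, by rw [ha, smul_eq_mul, mul_comm]⟩⟩
  obtain ⟨m, hm1⟩ := Int.natAbs_dvd_natAbs.2 ((hm _).1 h1)
  rw [Int.natAbs_natCast] at hm1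
  have he0 : e.natAbs ≠ 0 := fun e0 => hn (by rw [hm1, e0, zero_mul])
  have hp : IsPrimitiveRoot (z ^ m) e.natAbs :=
    hz.pow (Nat.pos_of_ne_zero hn) (by rw [hm1, mul_comm])
  have hfix : ∀ d : F ≃ₐ[H] F, d (z ^ m) = z ^ m := fun d => by
    have h3 : ((e.natAbs : ℕ) : ℤ) ∣ (x d : ℤ) - 1 := Int.natAbs_dvd.2 ((hm _).1 (h2 d))
    have h4 := (hp.zpow_eq_one_iff_dvd _).2 h3
    have h5 : z ^ m ≠ 0 := (hzr.pow m).ne_zero
    rw [zpow_sub₀ h5, zpow_one, zpow_natCast, div_eq_one_iff_eq h5] at h4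
    rw [hact d _ (hzr.pow m), h4]
  obtain ⟨w, hw⟩ := (IsGalois.mem_range_algebraMap_iff_fixed (F := H) (z ^ m)).2 hfix
  have hw' : IsPrimitiveRoot w e.natAbs :=
    IsPrimitiveRoot.of_map_of_injective (f := algebraMap H F) (hw ▸ hp)
      (algebraMap H F).injective
  have h6 : e ∣ ((Units.torsionOrder H : ℕ) : ℤ) :=
    Int.natAbs_dvd.1 (Int.natCast_dvd_natCast.2 (dvd_torsionOrder he0 hw'))
  obtain ⟨θ, h7, h8⟩ := (hm _).2 h6
  obtain ⟨ε, hε⟩ := (IsGalois.mem_range_algebraMap_iff_fixed (F := H) _).2 h8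
  refine ⟨ε, ?_⟩
  rw [hε, zpow_natCast, div_div_cancel_left' (pow_ne_zero _ hV)]
  exact h7.inv

end SahAux

open SahAux in
theorem sahS : SahA := by
  intro K F _ _ _ _ _ hab H _ _ _ _ _ V h
  have : IsGalois H F := IsGalois.tower_top_of_isGalois K H F
  have hK : ∀ (g d : F ≃ₐ[K] F) (x : F), g (d x) = d (g x) := fun g d x => by
    rw [← AlgEquiv.mul_apply, ← AlgEquiv.mul_apply, mul_comm]
  obtain ⟨ε, hε⟩ := descend (H := H)
    (fun g d x => hK (g.restrictScalars K) (d.restrictScalars K) x) V h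
  refine ⟨ε, hε, fun β hβ => ?_⟩
  let j : F →ₐ[H] AlgebraicClosure H := IsAlgClosed.lift
  let _ : Algebra F (AlgebraicClosure H) := j.toRingHom.toAlgebra
  have hj : ∀ y : H, algebraMap F (AlgebraicClosure H) (algebraMap H F y) = algebraMap H _ y :=
    fun y => j.commutes y
  have : IsScalarTower K F (AlgebraicClosure H) := IsScalarTower.of_algebraMap_eq fun y => by
    rw [IsScalarTower.algebraMap_apply K H F, hj, ← IsScalarTower.algebraMap_apply]
  have hF : ∀ (s t : AlgebraicClosure H ≃ₐ[K] AlgebraicClosure H) (y : F),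
      s (t (algebraMap F _ y)) = t (s (algebraMap F _ y)) := fun s t y => by
    simp only [← AlgEquiv.restrictNormal_commutes _ F]
    rw [hK]
  have hV : V ≠ 0 := fun e => (h 1).ne_zero (by rw [e, div_zero])
  have hV' : algebraMap F (AlgebraicClosure H) V ≠ 0 := (map_ne_zero _).2 hV
  have hω : Rt (β / algebraMap F (AlgebraicClosure H) V) := by
    refine Rt.of_pow (Units.torsionOrder_ne_zero H) ?_
    rw [div_pow, hβ, ← hj, ← map_pow, ← map_div₀]
    exact hε.map _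
  refine abelian_of_comm β (fun s t y => ?_) fun s t => ?_
  · rw [← hj, hF]
  · rw [← div_mul_cancel₀ β hV', map_mul, map_mul, map_mul, map_mul, hF, comm_rt s t hω]

end Pool.Agent.CD
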