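import Pool.Agent.Lib.MP_ca56d1_nt.CD.Fld
import Pool.Agent.Lib.MP_ca56d1_nt.D.Sign

/-! The reciprocity law with its sign at the real place of a complex cubic field. -/

namespace Pool.Agent.CD

open NumberField IsDedekindDomain Pool.Agent.Stark Pool.Agent.Stark.AR Pool.Agent.StarkD
  Pool.Agent.CU StarkStmt
open scoped IsMulCommutative Classical

variable {K : Type} [Field K] [NumberField K] {ρ : K →+* ℝ} {σ : K →+* ℂ}
  {H : Type} [Field H] [NumberField H] [Algebra K H] [IsAbelianGalois K H]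

namespace SignCAux

theorem exists_cj (ρ : K →+* ℝ) : ∃ τ : H ≃ₐ[K] H, IsCj ρ τ := by
  obtain ⟨ψ, hψ⟩ := SignAux.ext_emb (H := H) ρ
  obtain ⟨τ, hτ⟩ := ComplexEmbedding.exists_comp_symm_eq_of_comp_eq (k := K) ψ
    (ComplexEmbedding.conjugate ψ) (by
      ext x
      simp [hψ])
  have hτ' : ∀ y, ψ (τ⁻¹ y) = (starRingEnd ℂ) (ψ y) := fun y => RingHom.congr_fun hτ y
  refine ⟨τ⁻¹, fun ψ' hψ' y => ?_⟩
  obtain ⟨g, hg⟩ := ComplexEmbedding.exists_comp_symm_eq_of_comp_eq (k := K) ψ ψ' (by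
    ext x
    simp [hψ, hψ'])
  have hg' : ∀ y, ψ (g⁻¹ y) = ψ' y := fun y => RingHom.congr_fun hg y
  rw [← hg', ← hg', ← hτ', ← AlgEquiv.mul_apply, mul_comm, AlgEquiv.mul_apply]

omit [IsAbelianGalois K H] in
theorem noRam (h : CC ρ σ) {τ : H ≃ₐ[K] H} (hτ : IsCj ρ τ) (χ : K →+* ℝ) :
    ¬ RamR (IntermediateField.fixedField (Subgroup.zpowers τ)) χ := by
  rw [RamR, not_not, real_eq h χ]
  obtain ⟨ψ, hψ⟩ := SignAux.ext_emb (H := H) ρ
  have hr : ComplexEmbedding.IsReal
      (ψ.comp (algebraMap (IntermediateField.fixedField (Subgroup.zpowers τ)) H)) := by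
    refine ComplexEmbedding.isReal_iff.2 (RingHom.ext fun y => ?_)
    have h1 : τ (y : H) = y := y.2 ⟨τ, Subgroup.mem_zpowers τ⟩
    have h2 := hτ ψ hψ y
    rw [h1] at h2
    exact h2.symm
  refine ⟨hr.embedding, RingHom.ext fun x => Complex.ofReal_injective ?_⟩
  rw [RingHom.comp_apply, hr.coe_embedding_apply]
  exact hψ x

end SignCAux

theorem signS (hK : CC ρ σ) : SignSt ρ H := by
  intro S hS
  obtain ⟨N, hN⟩ := hRec K H S hS
  obtain ⟨τ, hτ⟩ := SignCAux.exists_cj (H := H) ρ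
  have hT := hTow K H (IntermediateField.fixedField (Subgroup.zpowers τ))
  obtain ⟨N', hN'⟩ := hRec K (IntermediateField.fixedField (Subgroup.zpowers τ)) S (hT.bot S hS)
  refine ⟨max N N', τ, fun a ha hp => hN a (ha.mono subset_rfl (le_max_left _ _))
    fun χ _ => pos_of hK hp χ, hτ, fun a ha => SignAux.mem_two hτ ?_⟩
  have h3 := hN' a (ha.mono subset_rfl (le_max_right _ _))
    fun χ hχ => absurd hχ (SignCAux.noRam hK hτ χ)
  have h4 : AlgEquiv.restrictNormalHom (IntermediateField.fixedField (Subgroup.zpowers τ))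
      (ev (fr K H) (dv a)) = 1 := by
    rw [← h3]
    refine (map_ev (Γ' := IntermediateField.fixedField (Subgroup.zpowers τ) ≃ₐ[K]
        IntermediateField.fixedField (Subgroup.zpowers τ))
      (AlgEquiv.restrictNormalHom (IntermediateField.fixedField (Subgroup.zpowers τ))) (fr K H)
      (dv a)).trans (ev_congr fun q hq => ?_)
    have hq' : q ∉ S := fun h => hq (ha.og_eq h)
    ext x
    have h5 := hT.res inferInstance S hS q hq' x
    have h6 := AlgEquiv.restrictNormal_commutes (fr K H q)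
      (IntermediateField.fixedField (Subgroup.zpowers τ)) x
    exact h6.trans h5
  rwa [← MonoidHom.mem_ker, IntermediateField.restrictNormalHom_ker,
    IntermediateField.fixingSubgroup_fixedField] at h4

end Pool.Agent.CD
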