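import Pool.Agent.Lib.MP_ca56d1_nt.CD.Fld

/-! The ramification index in an abelian extension. -/

namespace Pool.Agent.CD

open NumberField IsDedekindDomain Pool.Agent.Stark Pool.Agent.Stark.AR Pool.Agent.StarkD
  Pool.Agent.CU StarkStmt
open scoped IsMulCommutative Classical

namespace TameAux

variable {R G : Type*} [CommRing R] [Group G] [MulSemiringAction G R] {Q : Ideal R}

theorem smul_pow_mem {σ : G} (h : ∀ x ∈ Q, σ • x ∈ Q) (n : ℕ) {y : R} (hy : y ∈ Q ^ n) :
    σ • y ∈ Q ^ n := by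
  have h1 : Q.map (MulSemiringAction.toRingHom G R σ) ≤ Q :=
    Ideal.map_le_iff_le_comap.2 fun x hx => h x hx
  have h2 := Ideal.mem_map_of_mem (MulSemiringAction.toRingHom G R σ) hy
  rw [Ideal.map_pow] at h2
  exact Ideal.pow_right_mono h1 n h2

variable [IsDedekindDomain R] [hP : Q.IsPrime]

/-- The inertia element acts trivially on the graded pieces. -/
theorem lev (hQ : Q ≠ ⊥) {g f : G} {r N : ℕ} (hr : r.Prime) (hgr : g ^ r = 1)
    (hc : g * f = f * g) (hg : ∀ x : R, g • x - x ∈ Q) (hf : ∀ x : R, f • x - x ^ N ∈ Q)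
    (hN0 : N ≠ 0) (hN : ¬ r ∣ N - 1) (n : ℕ) : ∀ y ∈ Q ^ n, g • y - y ∈ Q ^ (n + 1) := by
  have sg : ∀ x ∈ Q, g • x ∈ Q := fun x hx => by simpa using Q.add_mem (hg x) hx
  have sf : ∀ x ∈ Q, f • x ∈ Q := fun x hx => by
    simpa using Q.add_mem (hf x) (Q.pow_mem_of_mem hx N (Nat.pos_of_ne_zero hN0))
  have sf' : ∀ x ∈ Q, f⁻¹ • x ∈ Q := fun x hx => by
    have h1 := hf (f⁻¹ • x)
    rw [smul_inv_smul] at h1
    exact hP.mem_of_pow_mem N (by simpa using Q.sub_mem hx h1)
  have mul : ∀ {a b : R}, a ∈ Q ^ n → b ∈ Q → a * b ∈ Q ^ (n + 1) := fun ha hb => by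
    rw [pow_succ]
    exact Ideal.mul_mem_mul ha hb
  obtain ⟨w, hw, hw'⟩ := Ideal.exists_mem_pow_notMem_pow_succ Q hQ hP.ne_top n
  obtain ⟨t, e, he, hte⟩ :=
    Ideal.exists_mul_add_mem_pow_succ hQ w (g • w) hw hw' (smul_pow_mem sg n hw)
  have hA : ∀ y ∈ Q ^ n, g • y - y * t ∈ Q ^ (n + 1) := fun y hy => by
    obtain ⟨d, e', he', rfl⟩ := Ideal.exists_mul_add_mem_pow_succ hQ w y hw hw' hy
    have h1 := add_mem (add_mem (mul hw (Q.mul_mem_left t (hg d))) (Ideal.mul_mem_right (g • d) _ he))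
      (sub_mem (smul_pow_mem sg _ he') (Ideal.mul_mem_right t _ he'))
    convert h1 using 1
    rw [smul_add, smul_mul', ← hte]
    ring
  have hB : ∀ k : ℕ, g ^ k • w ∈ Q ^ n ∧ g ^ k • w - w * t ^ k ∈ Q ^ (n + 1) := fun k => by
    induction k with
    | zero => simpa using hw
    | succ k ih =>
      rw [pow_succ' g, mul_smul]
      refine ⟨smul_pow_mem sg n ih.1, ?_⟩
      convert add_mem (hA _ ih.1) (Ideal.mul_mem_right t _ ih.2) using 1
      ring
  have h1 : 1 - t ^ r ∈ Q := Ideal.mem_prime_of_mul_mem_pow hQ hw' (by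
    have := (hB r).2
    rw [hgr, one_smul] at this
    convert this using 1
    ring)
  have h2 : f • w ∉ Q ^ (n + 1) := fun h => hw' (by simpa using smul_pow_mem sf' _ h)
  have h3 : f • t - t ∈ Q := Ideal.mem_prime_of_mul_mem_pow hQ h2 (by
    have h4 := hA _ (smul_pow_mem sf n hw)
    rw [smul_smul, hc, mul_smul, ← hte, smul_add, smul_mul'] at h4
    convert sub_mem h4 (smul_pow_mem sf _ he) using 1
    ring)
  have h4 : t - 1 ∈ Q := by
    have h5 : Ideal.Quotient.mk Q t ^ r = 1 := by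
      rw [← map_pow, ← map_one (Ideal.Quotient.mk Q)]
      exact (Ideal.Quotient.eq.2 h1).symm
    have h6 : Ideal.Quotient.mk Q t ^ N = Ideal.Quotient.mk Q t := by
      rw [← map_pow]
      exact (Ideal.Quotient.eq.2 (hf t)).symm.trans (Ideal.Quotient.eq.2 h3)
    have h7 : Ideal.Quotient.mk Q t ≠ 0 := fun h => by
      rw [h, zero_pow hr.ne_zero] at h5
      exact zero_ne_one h5
    have h8 : Ideal.Quotient.mk Q t ^ (N - 1) = 1 := by
      apply mul_right_cancel₀ h7
      rw [← pow_succ, Nat.sub_add_cancel (Nat.pos_of_ne_zero hN0), h6, one_mul]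
    have h9 := (pow_eq_one_iff_of_coprime ((Nat.Prime.coprime_iff_not_dvd hr).2 hN)).1 ⟨h5, h8⟩
    rw [← map_one (Ideal.Quotient.mk Q)] at h9
    exact Ideal.Quotient.eq.1 h9
  intro y hy
  convert add_mem (hA y hy) (mul hy h4) using 1
  ring

/-- An element of order prime to the residue characteristic that acts trivially on all graded
pieces acts trivially. -/
theorem triv {g : G} {r : ℕ} (hgr : g ^ r = 1) (hr : (r : R) ∉ Q)
    (h : ∀ n, ∀ y ∈ Q ^ n, g • y - y ∈ Q ^ (n + 1)) (x : R) : g • x = x := by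
  have key : ∀ n, ∀ x : R, g • x - x ∈ Q ^ n := fun n => by
    induction n with
    | zero => simp
    | succ n ih =>
      intro x
      have h1 : ∀ i : ℕ, g ^ i • x - x ∈ Q ^ n := fun i => by
        induction i with
        | zero => simp
        | succ i ii =>
          rw [pow_succ' g, mul_smul]
          simpa using add_mem (ih (g ^ i • x)) ii
      have h2 : ∀ m : ℕ, g • (∑ i ∈ Finset.range m, (g ^ i • x - x)) -
          ∑ i ∈ Finset.range m, (g ^ i • x - x) = g ^ m • x - x - m * (g • x - x) := fun m => by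
        induction m with
        | zero => simp
        | succ m im =>
          rw [Finset.sum_range_succ, smul_add, smul_sub, pow_succ' g, mul_smul]
          push_cast
          linear_combination im
      have h3 := h n _ (Ideal.sum_mem _ fun i (_ : i ∈ Finset.range r) => h1 i)
      rw [h2, hgr, one_smul, sub_self, zero_sub, neg_mem_iff] at h3
      exact (Ideal.IsPrime.mul_mem_pow Q h3).resolve_left hr
  have h1 : g • x - x ∈ ⨅ n, Q ^ n := Ideal.mem_iInf.2 fun n => key n x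
  rw [Ideal.iInf_pow_eq_bot_of_isDomain Q hP.ne_top, Ideal.mem_bot] at h1
  exact sub_eq_zero.1 h1

theorem dvd_norm {K : Type} [Field K] [NumberField K] (q : Pr K) {r : ℕ} (hr : r.Prime)
    (h : (r : 𝓞 K) ∈ q.asIdeal) : r ∣ Ideal.absNorm q.asIdeal := by
  have h1 := Ideal.absNorm_dvd_absNorm_of_le ((Ideal.span_singleton_le_iff_mem _).2 h)
  rw [Ideal.absNorm_span_natCast] at h1
  obtain ⟨k, -, hk⟩ := (Nat.dvd_prime_pow hr).1 h1
  have h2 := FrobAux.two_le_absNorm q
  rw [hk] at h2 ⊢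
  refine dvd_pow_self r ?_
  rintro rfl
  simp at h2

end TameAux

theorem tameS : TameA := by
  intro K F _ _ _ _ _ hab Q r hr h1 h2 h3
  have hG := IsGaloisGroup.of_isFractionRing (F ≃ₐ[K] F) (𝓞 K) (𝓞 F) K F
  have h0 := SplitAux.lies (F := K) Q
  have hP := Q.isPrime
  have hP' := (below K Q).isPrime
  have hfin : Finite (𝓞 K ⧸ (below K Q).asIdeal) :=
    Ideal.finiteQuotientOfFreeOfNeBot _ (below K Q).ne_bot
  have h4 := Ideal.card_inertia_eq_ramificationIdxIn (G := F ≃ₐ[K] F) (below K Q).asIdeal Q.asIdeal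
  rw [Ideal.ramificationIdxIn_eq_ramificationIdx _ Q.asIdeal (F ≃ₐ[K] F)] at h4
  rw [eI, ← h4] at h3
  have := Fact.mk hr
  obtain ⟨⟨g, hg⟩, ho⟩ := exists_prime_orderOf_dvd_card' r h3
  rw [Subgroup.orderOf_mk] at ho
  have hgr : g ^ r = 1 := ho ▸ pow_orderOf_eq_one g
  have hrQ : (r : 𝓞 F) ∉ Q.asIdeal := fun h => h1 (TameAux.dvd_norm _ hr (by
    rw [h0.over, Ideal.under_def, Ideal.mem_comap, map_natCast]
    exact h))
  have hN := FrobAux.two_le_absNorm (below K Q)
  have h5 := TameAux.triv hgr hrQ (TameAux.lev Q.ne_bot hr hgr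
    (IsMulCommutative.is_comm.comm g (fr K F (below K Q))) hg
    ((hFr K F).spec hab Q) (by omega) h2)
  have h6 : g = 1 := hG.faithful.eq_of_smul_eq_smul fun x => by
    rw [h5 x, one_smul]
  rw [h6, orderOf_one] at ho
  exact hr.one_lt.ne ho

end Pool.Agent.CD
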