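import Pool.Agent.Lib.MP_ca56d1_nt.CD.Asm
import Pool.Agent.Lib.MP_ca56d1_nt.CD.Dec
import Pool.Agent.Lib.MP_ca56d1_nt.CD.DenG
import Pool.Agent.Lib.MP_ca56d1_nt.CD.Desc
import Pool.Agent.Lib.MP_ca56d1_nt.CD.Dist
import Pool.Agent.Lib.MP_ca56d1_nt.CD.Div
import Pool.Agent.Lib.MP_ca56d1_nt.CD.End
import Pool.Agent.Lib.MP_ca56d1_nt.CD.EpsB
import Pool.Agent.Lib.MP_ca56d1_nt.CD.Fib
import Pool.Agent.Lib.MP_ca56d1_nt.CD.Good
import Pool.Agent.Lib.MP_ca56d1_nt.CD.Inert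
import Pool.Agent.Lib.MP_ca56d1_nt.CD.Key
import Pool.Agent.Lib.MP_ca56d1_nt.CD.Kum
import Pool.Agent.Lib.MP_ca56d1_nt.CD.Law
import Pool.Agent.Lib.MP_ca56d1_nt.CD.Lift
import Pool.Agent.Lib.MP_ca56d1_nt.CD.Loc
import Pool.Agent.Lib.MP_ca56d1_nt.CD.Pre
import Pool.Agent.Lib.MP_ca56d1_nt.CD.Ray
import Pool.Agent.Lib.MP_ca56d1_nt.CD.Sah
import Pool.Agent.Lib.MP_ca56d1_nt.CD.Sign
import Pool.Agent.Lib.MP_ca56d1_nt.CD.Tame
import Pool.Agent.Lib.MP_ca56d1_nt.CD.Unit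
import Pool.Agent.Lib.MP_ca56d1_nt.CL.Sys

/-! The conjecture over a complex cubic field from the analytic and the valuation parts. -/

namespace Pool.Agent.CD

open NumberField IsDedekindDomain Pool.Agent.Stark Pool.Agent.Stark.AR Pool.Agent.StarkD
  Pool.Agent.CU StarkStmt
open scoped IsMulCommutative Classical

variable {K : Type} [Field K] [NumberField K] {ρ : K →+* ℝ} {σ : K →+* ℂ}
  {H : Type} [Field H] [NumberField H] [Algebra K H] [IsAbelianGalois K H]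

theorem stark_of_csys (hK : CC ρ σ) {u : ∀ (S : Finset (Pr K)) (N : ℕ), Cl ρ S N → ℂ}
    (hu : CSys ρ σ u) (S : Finset (Pr K)) (hne : S.Nonempty) (hUn : UnrO H S) (φ : H →+* ℂ)
    (hφ : ∀ x : K, φ (algebraMap K H x) = σ x) : Stark K S (InfinitePlace.mk φ) :=
  have hG := goodS locS hK
  have hW : LawSt ρ σ H := lawS locS (preS hG (keyS locS (descS locS)))
  asm (signS hK) (epsB hW sahS) (unitS tameS (kumS locS (inertS locS) liftS) hW distS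
    (divS hK fibS decS (denS locS hG) rayS)) (endS hK) hu S hne hUn φ hφ

theorem stark_of_parts (h3 : Module.finrank ℚ K = 3)
    (h : ∀ (ρ : K →+* ℝ) (σ : K →+* ℂ), CC ρ σ → BasSt ρ σ ∧ PartU ρ σ ∧ CU.PartC ρ σ)
    (S : Finset (Pr K)) (hne : S.Nonempty) (hUn : UnrO H S) (P : InfinitePlace H)
    (hP : (P.comap (algebraMap K H)).IsComplex) : Stark K S P := by
  rw [← P.mk_embedding] at hP ⊢
  obtain ⟨ρ, hK⟩ := exists_cc h3 (P.embedding.comp (algebraMap K H)) hP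
  obtain ⟨h1, h2, h4⟩ := h _ _ hK
  obtain ⟨u, hu⟩ := CL.csys hK (goodS locS hK) h1 h2 h4
  exact stark_of_csys hK hu S hne hUn _ fun _ => rfl

end Pool.Agent.CD
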