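import Pool.Agent.Lib.MP_ca56d1_nt.CD.Fld

/-! An inertia element that moves an `r`-th root and fixes the `r`-th roots of units. -/

namespace Pool.Agent.CD

open NumberField IsDedekindDomain Pool.Agent.Stark Pool.Agent.Stark.AR Pool.Agent.StarkD
  Pool.Agent.CU StarkStmt
open scoped IsMulCommutative Classical

namespace InertAux

theorem eq_of_pow {R : Type*} [CommRing R] [IsDomain R] {Q : Ideal R} (hQ : Q.IsPrime) {m : ℕ}
    {a b : R} (h : a ^ m = b ^ m) (ha : a ∉ Q) (hm : (m : R) ∉ Q) (hab : a - b ∈ Q) : a = b := by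
  by_contra hne
  have h1 := (Commute.all a b).geom_sum₂_mul m
  rw [h, sub_self] at h1
  have h2 := (mul_eq_zero.1 h1).resolve_right (sub_ne_zero.2 hne)
  have h3 : Ideal.Quotient.mk Q a = Ideal.Quotient.mk Q b := Ideal.Quotient.eq.2 hab
  have h4 := congrArg (Ideal.Quotient.mk Q) h2
  simp only [map_sum, map_mul, map_pow, map_zero, ← h3] at h4
  rw [geom_sum₂_self] at h4
  have h5 : (m : R) * a ^ (m - 1) ∈ Q := by
    rw [← Ideal.Quotient.eq_zero_iff_mem, map_mul, map_pow, map_natCast]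
    exact h4
  rcases hQ.mem_or_mem h5 with h6 | h6
  · exact hm h6
  · exact ha (hQ.mem_of_pow_mem _ h6)

variable {K F : Type} [Field K] [NumberField K] [Field F] [NumberField F] [Algebra K F]

theorem card_eq [IsGalois K F] (Q : Pr F) :
    Nat.card {g : F ≃ₐ[K] F // ∀ x : 𝓞 F, g • x - x ∈ Q.asIdeal} = eI K Q := by
  have hG := IsGaloisGroup.of_isFractionRing (F ≃ₐ[K] F) (𝓞 K) (𝓞 F) K F
  have h0 := SplitAux.lies (F := K) Q
  have h1 := Q.isPrime
  have h2 := (below K Q).isPrime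
  have hfin : Finite (𝓞 K ⧸ (below K Q).asIdeal) :=
    Ideal.finiteQuotientOfFreeOfNeBot _ (below K Q).ne_bot
  have h3 := Ideal.card_inertia_eq_ramificationIdxIn (G := F ≃ₐ[K] F) (below K Q).asIdeal Q.asIdeal
  rw [Ideal.ramificationIdxIn_eq_ramificationIdx _ Q.asIdeal (F ≃ₐ[K] F)] at h3
  rw [eI, ← h3]
  rfl

theorem fix_unit (Q : Pr F) {r : ℕ} (hr : r ≠ 0) (hQ : (r : 𝓞 F) ∉ Q.asIdeal) (h : F ≃ₐ[K] F)
    (hh : ∀ x : 𝓞 F, h • x - x ∈ Q.asIdeal) (z : F) (e : K) (he : IsU e)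
    (hz : z ^ r = algebraMap K F e) : h z = z := by
  obtain ⟨u, rfl⟩ := isU_iff.1 he
  have e1 : z ^ r = ((algebraMap (𝓞 K) (𝓞 F) u : 𝓞 F) : F) := hz
  have hi : IsIntegral ℤ z := IsIntegral.of_pow (Nat.pos_of_ne_zero hr)
    (e1 ▸ (algebraMap (𝓞 K) (𝓞 F) u).isIntegral_coe)
  obtain ⟨w, rfl⟩ : ∃ w : 𝓞 F, (w : F) = z := ⟨⟨z, hi⟩, rfl⟩
  have e2 : w ^ r = algebraMap (𝓞 K) (𝓞 F) u := RingOfIntegers.ext e1
  have hw : w ∉ Q.asIdeal := fun hw => Q.isPrime.ne_top (Ideal.eq_top_of_isUnit_mem _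
    (e2 ▸ Q.asIdeal.pow_mem_of_mem hw r (Nat.pos_of_ne_zero hr)) (u.isUnit.map _))
  have e3 : w ^ r = (h • w) ^ r := by
    apply RingOfIntegers.ext
    change (w : F) ^ r = h (w : F) ^ r
    rw [← map_pow h, hz, AlgEquiv.commutes]
  have e4 := eq_of_pow Q.isPrime e3 hw hQ (by
    have := Q.asIdeal.neg_mem (hh w)
    rwa [neg_sub] at this)
  exact (congrArg (fun y : 𝓞 F => (y : F)) e4).symm

theorem eI_eq [IsGalois K F] (Q : Pr F) (E : IntermediateField K F)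
    (hE : ∀ g : F ≃ₐ[K] F, (∀ x : 𝓞 F, g • x - x ∈ Q.asIdeal) → ∀ y ∈ E, g y = y) :
    eI E Q = eI K Q := by
  rw [← card_eq, ← card_eq]
  refine Nat.card_eq_of_bijective (fun g => ⟨g.1.restrictScalars K, g.2⟩) ⟨?_, ?_⟩
  · intro g g' h
    exact Subtype.ext (AlgEquiv.restrictScalars_injective K (congrArg Subtype.val h))
  · intro g
    exact ⟨⟨AlgEquiv.ofRingEquiv (f := g.1.toRingEquiv) fun y => hE g.1 g.2 y.1 y.2, g.2⟩, rfl⟩

end InertAux

open InertAux

set_option linter.unusedVariables false in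
theorem inertS (hL : LocA) : InertA := by
  intro K F _ _ _ _ _ hG r l t y hr hl ht hy
  obtain ⟨Q, rfl⟩ := below_surj (K := F) l
  have hQ : (r : 𝓞 F) ∉ Q.asIdeal := fun h => hl (by
    change algebraMap (𝓞 K) (𝓞 F) r ∈ Q.asIdeal
    rwa [map_natCast])
  by_contra hc
  have h1 : ∀ g : F ≃ₐ[K] F, (∀ x : 𝓞 F, g • x - x ∈ Q.asIdeal) → g y = y := fun g hg => by
    by_contra hne
    exact hc ⟨g, hne, fix_unit Q hr.ne_zero hQ g hg⟩
  have h2 := eI_eq Q (IntermediateField.adjoin K {y}) fun g hg z hz => by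
    have h3 : IntermediateField.adjoin K {y} ≤ IntermediateField.fixedField (Subgroup.zpowers g) := by
      rw [IntermediateField.adjoin_simple_le_iff, IntermediateField.mem_fixedField_iff]
      rintro _ ⟨n, rfl⟩
      exact MulAction.mem_stabilizer_iff.1
        (Subgroup.zpow_mem (MulAction.stabilizer (F ≃ₐ[K] F) y) (h1 g hg) n)
    exact (IntermediateField.mem_fixedField_iff _ _).1 (h3 hz) g (Subgroup.mem_zpowers g)
  have h3 := og_algebraMap Q (⟨y, IntermediateField.mem_adjoin_simple_self K y⟩ :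
    IntermediateField.adjoin K {y})
  have h4 := og_algebraMap Q t
  have h5 : og Q (y ^ r) = r * og Q y := by rw [og, og, ord_pow]
  have e0 : (eI K Q : ℤ) ≠ 0 := by exact_mod_cast (SplitAux.eI_pos Q).ne'
  change og Q y = _ at h3
  rw [← hy, h5, h3, h2, mul_left_comm] at h4
  exact ht ⟨_, (mul_left_cancel₀ e0 h4).symm⟩

end Pool.Agent.CD
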