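import Pool.Agent.Lib.MP_ca56d1_nt.CD.Gal
import Pool.Agent.Lib.MP_ca56d1_nt.CU.U.All
import Pool.Agent.Lib.MP_ca56d1_nt.CU.O.All
import Pool.Agent.Lib.MP_ca56d1_nt.CV.Lvl
import Pool.Agent.Lib.MP_ca56d1_nt.CV.CycB

/-! The rank one abelian Stark conjecture for complex cubic fields at the complex place. -/

namespace Pool.Agent.CD

open NumberField IsDedekindDomain Pool.Agent.Stark Pool.Agent.Stark.AR Pool.Agent.CU StarkStmt

variable {K : Type} [Field K] [NumberField K]
  {H : Type} [Field H] [NumberField H] [Algebra K H] [IsAbelianGalois K H]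

theorem stark_cc (h3 : Module.finrank ℚ K = 3) (S : Finset (Pr K)) (hne : S.Nonempty)
    (hUn : UnrO H S) (P : InfinitePlace H) (hP : (P.comap (algebraMap K H)).IsComplex) :
    Stark K S P :=
  stark_of_parts h3 (fun _ σ hK => ⟨basSt hK, partU hK, CV.partC_of cycB (partU hK)
    (partO_of hK (basSt hK) (lpSt σ) (admSt hK) (modSt hK) (hatSt hK) (partU hK))⟩) S hne hUn P hP

end Pool.Agent.CD
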