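import Pool.Agent.Lib.MP_ca56d1_nt.CD.Defs
import Pool.Agent.Lib.MP_ca56d1_nt.D.ArtH

/-! Statements of the steps of the Galois side over a complex cubic field. -/

namespace Pool.Agent.CD

open NumberField IsDedekindDomain Pool.Agent.Stark Pool.Agent.Stark.AR Pool.Agent.StarkD
  Pool.Agent.CU StarkStmt
open scoped IsMulCommutative Classical

/-! ### One number field -/

section One

variable (M : Type) [Field M] [NumberField M]

/-- Valuation rings of the complex numbers over a prime; elementary local facts. -/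
structure LocSt : Prop where
  ex : ∀ (ι : M →+* ℂ) (Q : Pr M), ∃ O, Over ι Q O
  le : ∀ (ι : M →+* ℂ) (Q : Pr M) O, Over ι Q O → ∀ y ∈ pw (Q.valuation M) 0,
    O.valuation (ι y) ≤ 1
  lt : ∀ (ι : M →+* ℂ) (Q : Pr M) O, Over ι Q O → ∀ y,
    O.valuation (ι y) < 1 ↔ y ∈ pw (Q.valuation M) 1
  one : ∀ (ι : M →+* ℂ) (Q : Pr M) O, Over ι Q O → ∀ y, y ≠ 0 → og Q y = 0 →
    O.valuation (ι y) = 1
  sep : ∀ T : Set M, T.Finite → ∃ B : ℕ, ∀ p : ℕ, B < p → p.Prime → ∀ Q : Pr M,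
    (p : 𝓞 M) ∈ Q.asIdeal → ∀ t ∈ T, og Q t = 0
  root : ∀ (Q : Pr M) (n : ℕ) (ζ : M), (n : 𝓞 M) ∉ Q.asIdeal → ζ ^ n = 1 →
    ζ - 1 ∈ pw (Q.valuation M) 1 → ζ = 1
  fin : {ζ : M | Rt ζ}.Finite
  frob : ∀ (K : Type) [Field K] [NumberField K] [Algebra K M] (p : ℕ) (Q : Pr M)
    (γ : M ≃ₐ[K] M), p ≠ 0 → Fb p Q γ →
    γ • Q = Q ∧ ∀ y ∈ pw (Q.valuation M) 0, γ y - y ^ p ∈ pw (Q.valuation M) 1
  exFb : ∀ (K : Type) [Field K] [NumberField K] [Algebra K M] [IsGalois K M] (Q : Pr M),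
    ∃ γ : M ≃ₐ[K] M, Fb (Ideal.absNorm (below K Q).asIdeal) Q γ

end One

/-- `LocSt` for all number fields. -/
def LocA : Prop := ∀ (M : Type) [Field M] [NumberField M], LocSt M

/-- Descent of a root of unity that does not depend on the valuation ring. -/
def DescSt : Prop :=
  ∀ (p : ℕ) (ξ : ℂ), p.Prime → Mu ξ → ∃ ξ' : ℂ, Mu ξ' ∧
    ∀ (M : Type) [Field M] [NumberField M] (ι : M →+* ℂ) (Q : Pr M) (y : M),
      (p : 𝓞 M) ∈ Q.asIdeal → (∀ O, Over ι Q O → Cg O (ι y) ξ) →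
      ∃ ζ : M, ι ζ = ξ' ∧ y - ζ ∈ pw (Q.valuation M) 1

/-- A stabiliser of order divisible by `r`, or a character of order `r`. -/
def FibSt : Prop :=
  ∀ {C G : Type} [AddCommGroup C] [Finite C] [CommGroup G] [Finite G] (ar : C → G) (m : C → ℤ)
    (r : ℕ), r.Prime → (∀ a b, ar (a + b) = ar a * ar b) → ¬ r ∣ Nat.card G → r ∣ Nat.card C →
    (∀ g, (r : ℤ) ∣ ∑ᶠ c ∈ {c | ar c = g}, m c) ∨
    ∃ κ : C →+ ZMod r, κ ≠ 0 ∧ ∀ a, (∀ c, m (c + a) = m c) → κ a = 0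

/-! ### Arbitrary base field -/

section Gen

variable (K F : Type) [Field K] [NumberField K] [Field F] [NumberField F] [Algebra K F]

/-- The ramification index in an abelian extension. -/
def TameSt : Prop :=
  IsAbelianGalois K F → ∀ (Q : Pr F) (r : ℕ), r.Prime →
    ¬ r ∣ Ideal.absNorm (below K Q).asIdeal → ¬ r ∣ Ideal.absNorm (below K Q).asIdeal - 1 →
    ¬ r ∣ eI K Q

/-- The reciprocity law modulo a decomposition group. -/
def DecSt : Prop :=
  ∀ [IsAbelianGalois K F] (S : Finset (Pr K)) (Q : Pr F), UnrO F S → below K Q ∈ S →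
    ∃ N, ∀ x : K, Ray (S.erase (below K Q)) N x → Pos x → artD F S (dv x) • Q = Q

/-- An inertia element that moves an `r`-th root. -/
def InertSt : Prop :=
  IsGalois K F → ∀ (r : ℕ) (l : Pr K) (t : K) (y : F), r.Prime → (r : 𝓞 K) ∉ l.asIdeal →
    ¬ (r : ℤ) ∣ og l t → y ^ r = algebraMap K F t → ∃ h : F ≃ₐ[K] F, h y ≠ y ∧
      ∀ (z : F) (e : K), IsU e → z ^ r = algebraMap K F e → h z = z

/-- A lift that fixes all `r`-th roots. -/
def LiftSt : Prop :=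
  ∀ [IsGalois K F] (M : Type) [Field M] [NumberField M] [Algebra K M] [Algebra F M]
    [IsScalarTower K F M] [IsGalois K M] (r : ℕ) (ζ : M) (g : F ≃ₐ[K] F), r.Prime →
    r.Coprime (discr F).natAbs → ¬ r ∣ Nat.card (F ≃ₐ[K] F) → IsPrimitiveRoot ζ r →
    ∃ γ : M ≃ₐ[K] M, AlgEquiv.restrictNormalHom F γ = g ∧
      ∀ (z : M) (e : K), z ^ r = algebraMap K M e → γ z = z

/-- An auxiliary prime of degree one with prescribed power residue symbols. -/
def KumSt : Prop :=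
  ∀ [IsAbelianGalois K F] (S : Finset (Pr K)) (g : F ≃ₐ[K] F) (l : Pr K) (t : K), UnrO F S →
    og l t ≠ 0 → ∃ B : ℕ, ∀ r : ℕ, B < r → r.Prime → ∀ T : Finset (Pr K), ∃ (p : ℕ) (q : Pr K),
      p.Prime ∧ Ideal.absNorm q.asIdeal = p ∧ q ∉ T ∧ r ∣ p - 1 ∧
      (∀ e, IsU e → e ^ ((p - 1) / r) - 1 ∈ pw (q.valuation K) 1) ∧
      t ^ ((p - 1) / r) - 1 ∉ pw (q.valuation K) 1 ∧
      Subgroup.zpowers (fr K F q) = Subgroup.zpowers g

/-- Descent of the `W`-th power and the abelian condition. -/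
def SahSt : Prop :=
  IsAbelianGalois K F → ∀ (H : Type) [Field H] [NumberField H] [Algebra K H] [Algebra H F]
    [IsScalarTower K H F] (V : F), (∀ g : F ≃ₐ[H] F, Rt (g V / V)) →
    ∃ ε : H, Rt (algebraMap H F ε / V ^ Units.torsionOrder H) ∧
      AbelRoot K (Units.torsionOrder H) ε

end Gen

/-- `TameSt` for all extensions. -/
def TameA : Prop :=
  ∀ (K F : Type) [Field K] [NumberField K] [Field F] [NumberField F] [Algebra K F], TameSt K F

/-- `DecSt` for all extensions. -/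
def DecA : Prop :=
  ∀ (K F : Type) [Field K] [NumberField K] [Field F] [NumberField F] [Algebra K F], DecSt K F

/-- `InertSt` for all extensions. -/
def InertA : Prop :=
  ∀ (K F : Type) [Field K] [NumberField K] [Field F] [NumberField F] [Algebra K F], InertSt K F

/-- `LiftSt` for all extensions. -/
def LiftA : Prop :=
  ∀ (K F : Type) [Field K] [NumberField K] [Field F] [NumberField F] [Algebra K F], LiftSt K F

/-- `KumSt` for all extensions. -/
def KumA : Prop :=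
  ∀ (K F : Type) [Field K] [NumberField K] [Field F] [NumberField F] [Algebra K F], KumSt K F

/-- `SahSt` for all extensions. -/
def SahA : Prop :=
  ∀ (K F : Type) [Field K] [NumberField K] [Field F] [NumberField F] [Algebra K F], SahSt K F

/-! ### The cubic field -/

section Cub

variable {K : Type} [Field K] [NumberField K] (ρ : K →+* ℝ) (σ : K →+* ℂ)

/-- Frobenius elements that exchange the two other conjugates belong to good primes. -/
def GoodSt : Prop :=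
  ∀ (M : Type) [Field M] [NumberField M] [Algebra K M], IsGalois ℚ M → ∃ δ : M,
    (∀ γ : M ≃ₐ[K] M, γ δ = δ ∨ γ δ = -δ) ∧ (∃ γ : M ≃ₐ[K] M, γ δ ≠ δ) ∧
    ∃ B : ℕ, ∀ p : ℕ, B < p → p.Prime → ∀ (Q : Pr M) (γ : M ≃ₐ[K] M), (p : 𝓞 M) ∈ Q.asIdeal →
      Fb p Q γ → γ δ ≠ δ → Gd p (below K Q)

/-- A ray class function of odd order that is trivial on good primes is trivial. -/
def DenGSt : Prop :=
  ∀ (S : Finset (Pr K)) (N B : ℕ) {Γ : Type} [CommGroup Γ] [Finite Γ] (d : Pr K → Γ),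
    Odd (Nat.card Γ) → (∀ a : K, Ray S N a → 0 < ρ a → ev d (dv a) = 1) →
    (∀ p q, B < p → Gd p q → d q = 1) → ∀ q ∉ S, d q = 1

/-- The ray class group of the auxiliary level. -/
structure RaySt : Prop where
  ord : ∀ S N l q t p r, Aux ρ S N l q t p r → r ∣ Nat.card (Cl ρ (insert q S) N)
  gen : ∀ S N l q t p r, Aux ρ S N l q t p r → ∀ (κ : Cl ρ (insert q S) N →+ ZMod r)
    (S' : Finset (Pr K)) (N' : ℕ), insert q S ⊆ S' → l ∈ S' →
    (∀ a : K, PS S' a → Ray (S'.erase l) N' (a / t) → 0 < ρ a →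
      κ (cls ρ (insert q S) N (dv a)) = 0) → κ = 0

/-- The action of the Frobenius elements of good primes. -/
def KeySt : Prop :=
  ∀ (S : Finset (Pr K)) (N : ℕ) (u : Cl ρ S N → ℂ) (M : Type) [Field M] [NumberField M]
    [Algebra K M] (ι : M →+* ℂ) (U : Cl ρ S N → M), (∀ x : K, ι (algebraMap K M x) = σ x) →
    (∀ c, ι (U c) = u c) → (∀ c, u c ≠ 0) → Kr σ u →
    ∃ B : ℕ, ∀ p q, B < p → Gd p q → ∀ c, ∃ ζ : M, Rt ζ ∧ ∀ (Q : Pr M) (γ : M ≃ₐ[K] M),
      below K Q = q → Fb p Q γ → U (c + cls ρ S N (pd q)) = ζ * γ (U c)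

variable (H : Type) [Field H] [NumberField H] [Algebra K H] [IsAbelianGalois K H]

/-- The action of the Galois group of a large field. -/
def PreSt : Prop :=
  ∀ (S : Finset (Pr K)) (N : ℕ) (u : Cl ρ S N → ℂ) (φ : H →+* ℂ), UnrO H S → Rec H ρ S N →
    (∀ x : K, φ (algebraMap K H x) = σ x) → (∀ c, u c ≠ 0 ∧ IsAlgebraic ℚ (u c)) → Kr σ u →
    ∃ (M : Type) (_ : Field M) (_ : NumberField M) (_ : Algebra K M) (_ : Algebra H M)
      (_ : IsScalarTower K H M) (ι : M →+* ℂ) (U : Cl ρ S N → M), IsGalois K M ∧ Pre φ u ι U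

/-- The reciprocity law for the values. -/
def LawSt : Prop :=
  ∀ (S : Finset (Pr K)) (N : ℕ) (u : Cl ρ S N → ℂ) (φ : H →+* ℂ), UnrO H S → Rec H ρ S N →
    (∀ x : K, φ (algebraMap K H x) = σ x) → (∀ c, u c ≠ 0 ∧ IsAlgebraic ℚ (u c)) → Kr σ u →
    ∃ (F : Type) (_ : Field F) (_ : NumberField F) (_ : Algebra K F) (_ : Algebra H F)
      (_ : IsScalarTower K H F) (ψ : F →+* ℂ) (U : Cl ρ S N → F),
      IsAbelianGalois K F ∧ Law φ u ψ U

/-- The reciprocity law with its sign at the real place. -/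
def SignSt : Prop :=
  ∀ S : Finset (Pr K), UnrO H S → ∃ (N : ℕ) (τ : H ≃ₐ[K] H), Rec H ρ S N ∧ IsCj ρ τ ∧
    ∀ a : K, Ray S N a → ev (fr K H) (dv a) = 1 ∨ ev (fr K H) (dv a) = τ

/-- The element of `H` attached to the values. -/
def EpsSt : Prop :=
  ∀ (S : Finset (Pr K)) (N : ℕ) (u : Cl ρ S N → ℂ) (φ : H →+* ℂ), UnrO H S → Rec H ρ S N →
    (∀ x : K, φ (algebraMap K H x) = σ x) → (∀ c, u c ≠ 0 ∧ IsAlgebraic ℚ (u c)) → Kr σ u →
    ∃ ε : H, Stv φ u ε ∧ AbelRoot K (Units.torsionOrder H) ε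

/-- The distribution relation over the fibres of the Artin map. -/
def DistSt : Prop :=
  ∀ u, CSys ρ σ u → ∀ (S : Finset (Pr K)) (N : ℕ), S.Nonempty → Rec H ρ S N → ∀ q ∉ S, ∀ g,
    Rt (pv H (u (insert q S) N) g / (pv H (u S N) g / pv H (u S N) (g * (fr K H q)⁻¹)))

/-- Divisibility of the valuations at the auxiliary level. -/
def DivSt : Prop :=
  ∀ (S : Finset (Pr K)) (N : ℕ) (l q : Pr K) (t : K) (p r : ℕ) (u : Cl ρ (insert q S) N → ℂ)
    (φ : H →+* ℂ) (F : Type) [Field F] [NumberField F] [Algebra K F] [Algebra H F]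
    [IsScalarTower K H F] [IsAbelianGalois K F] (ψ : F →+* ℂ) (U : Cl ρ (insert q S) N → F),
    Aux ρ S N l q t p r → Rec H ρ (insert q S) N → ¬ r ∣ Nat.card (H ≃ₐ[K] H) → Law φ u ψ U →
    ∀ Q : Pr F, below K Q = l → ∀ g, (r : ℤ) ∣ og Q (pv H U g)

/-- The valuations of the conjugates agree. -/
def UnitSt : Prop :=
  ∀ u, CSys ρ σ u → ∀ (S : Finset (Pr K)) (N : ℕ) (φ : H →+* ℂ) (ε : H), S.Nonempty → UnrO H S →
    Rec H ρ S N → (∀ x : K, φ (algebraMap K H x) = σ x) → Stv φ (u S N) ε →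
    ∀ (Q : Pr H) (g : H ≃ₐ[K] H), og Q (g ε) = og Q ε

/-- The end of the proof. -/
def EndSt : Prop :=
  ∀ u, CSys ρ σ u → ∀ (S : Finset (Pr K)) (N : ℕ) (φ : H →+* ℂ) (ε : H) (τ : H ≃ₐ[K] H),
    S.Nonempty → Rec H ρ S N → IsCj ρ τ →
    (∀ a : K, Ray S N a → ev (fr K H) (dv a) = 1 ∨ ev (fr K H) (dv a) = τ) →
    (∀ x : K, φ (algebraMap K H x) = σ x) → Stv φ (u S N) ε →
    (∀ (Q : Pr H) (g : H ≃ₐ[K] H), og Q (g ε) = og Q ε) →
    AbelRoot K (Units.torsionOrder H) ε → Stark K S (InfinitePlace.mk φ)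

end Cub

end Pool.Agent.CD
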