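import Pool.Agent.Lib.MP_ca56d1_nt.CD.Fld

/-! The valuations of the conjugates of the element attached to the values agree. -/

namespace Pool.Agent.CD

open NumberField IsDedekindDomain Pool.Agent.Stark Pool.Agent.Stark.AR Pool.Agent.StarkD
  Pool.Agent.CU StarkStmt
open scoped IsMulCommutative Classical

variable {K : Type} [Field K] [NumberField K] {ρ : K →+* ℝ} {σ : K →+* ℂ}
  {H : Type} [Field H] [NumberField H] [Algebra K H] [IsAbelianGalois K H]

namespace UnitAux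

theorem exists_pi (ρ : K →+* ℝ) (S : Finset (Pr K)) (N : ℕ) (l : Pr K) :
    ∃ t : K, (∀ s, s ≠ l → og s t = 0) ∧ og l t ≠ 0 ∧ Ray (S.erase l) N t ∧ 0 < ρ t := by
  have := GenAux.fin ρ (S.erase l) N
  have h0 : cls ρ (S.erase l) N 0 =
      cls ρ (S.erase l) N (Nat.card (Cl ρ (S.erase l) N) • pd l) := by
    rw [map_nsmul, card_nsmul_eq_zero', map_zero]
  obtain ⟨t, h1, h2, h3⟩ := cls_eq.1 h0
  refine ⟨t, fun s hs => ?_, ?_, h1, h2⟩
  · by_cases h : s ∈ S.erase l
    · exact h1.og_eq h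
    · simpa [Finsupp.single_eq_of_ne hs] using (h3 s h).symm
  · have h4 := h3 l (Finset.notMem_erase l S)
    simp only [Finsupp.smul_apply, Finsupp.single_eq_same, Finsupp.zero_apply, zero_add,
      nsmul_eq_mul, mul_one] at h4
    rw [← h4]
    exact_mod_cast Nat.card_pos.ne'

theorem not_dvd {r n : ℕ} (h0 : n ≠ 0) (h : n < r) : ¬ r ∣ n := fun e =>
  absurd (Nat.le_of_dvd (Nat.pos_of_ne_zero h0) e) (by omega)

end UnitAux

open UnitAux in
theorem unitS (hT : TameA) (hU : KumA) (hW : LawSt ρ σ H) (hD : DistSt ρ σ H) (hV : DivSt ρ H) :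
    CD.UnitSt ρ σ H := by
  intro u hu S N φ ε hS hUn hR hφ hε Q g₀
  have hε0 : ∀ g : H ≃ₐ[K] H, g ε ≠ 0 := fun g e => (hε g).ne_zero (by rw [e, map_zero, zero_div])
  let v : (H ≃ₐ[K] H) → ℤ := fun g => og Q (g ε)
  let G₀ : Subgroup (H ≃ₐ[K] H) :=
    { carrier := {a | ∀ g, v (g * a) = v g}
      one_mem' := fun g => by rw [mul_one]
      mul_mem' := fun {a b} ha hb g => by rw [← mul_assoc, hb, ha]
      inv_mem' := fun {a} ha g => by rw [← ha, inv_mul_cancel_right] }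
  suffices h : g₀ ∈ G₀ by
    have h1 := h 1
    rw [one_mul] at h1
    exact h1
  obtain ⟨t, t1, t2, t3, t4⟩ := exists_pi ρ S N (below K Q)
  obtain ⟨B, hB⟩ := hU K H S g₀ (below K Q) t hUn t2
  have := GenAux.fin ρ S N
  obtain ⟨C, hC⟩ := (Set.finite_range
    fun x : (H ≃ₐ[K] H) × (H ≃ₐ[K] H) => (v x.1 - v x.2).natAbs).bddAbove
  obtain ⟨r, hr1, hr⟩ := Nat.exists_infinite_primes (B + C + Nat.card (Cl ρ S N) +
    Nat.card (H ≃ₐ[K] H) + Ideal.absNorm (below K Q).asIdeal + 3)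
  obtain ⟨p, q, q1, q2, q3, q4, q5, q6, q7⟩ := hB r (by omega) hr (insert (below K Q) S)
  rw [Finset.mem_insert, not_or] at q3
  have hA : Aux ρ S N (below K Q) q t p r :=
    ⟨q1, hr, by omega, q2, q4, q3.2, q3.1, t1, t3, t4, q5, q6,
      not_dvd Nat.card_pos.ne' (by omega)⟩
  have hR1 : Rec H ρ (insert q S) N := fun a ha =>
    hR a (ha.mono (Finset.subset_insert _ _) le_rfl)
  obtain ⟨F, _, _, _, _, _, ψ, U, hab, hL⟩ := hW (insert q S) N (u _ N) φ
    (fun Q' h => hUn Q' fun h' => h (Finset.mem_insert_of_mem h')) hR1 hφ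
    (hu.alg _ _ (Finset.insert_nonempty _ _)) (hu.kron _ _ (Finset.insert_nonempty _ _))
  obtain ⟨Q₁, hQ₁⟩ := below_surj (K := F) Q
  have hb : below K Q₁ = below K Q := by rw [← (hTow K F H).below_below, hQ₁]
  have h2 := FrobAux.two_le_absNorm (below K Q)
  have he : ¬ r ∣ eI H Q₁ := fun e => hT K F hab Q₁ r hr
    (hb ▸ not_dvd (by omega) (by omega)) (hb ▸ not_dvd (by omega) (by omega))
    ((hTow K F H).eI_mul Q₁ ▸ e.mul_right _)
  have := GenAux.fin ρ (insert q S) N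
  have key : (fr K H q)⁻¹ ∈ G₀ := fun g => by
    have h3 := hV S N _ q t p r _ φ F ψ U hA hR1 (not_dvd Nat.card_pos.ne' (by omega)) hL Q₁ hb g
    have h4 : ψ (pv H U g) = pv H (u (insert q S) N) g :=
      (ψ.toMonoidHom.map_finprod_mem U (Set.toFinite _)).trans
        (finprod_mem_congr rfl fun c _ => hL.val c)
    have h5 := (hD u hu S N hS hR q q3.2 g).pow (Units.torsionOrder H)
    have h6 := (hε g).div (hε (g * (fr K H q)⁻¹))
    have h7 : Rt (pv H U g ^ Units.torsionOrder H /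
        algebraMap H F (g ε / (g * (fr K H q)⁻¹) ε)) := by
      refine Rt.of_map ψ ?_
      rw [map_div₀, map_pow, h4, hL.emb, map_div₀]
      rw [div_pow, div_pow] at h5
      rw [div_div_div_comm] at h6
      exact h5.trans h6.symm
    have h8 := h7.og_div Q₁
    rw [og_algebraMap, hQ₁, og, og, ord_pow, ord_div (hε0 _) (hε0 _)] at h8
    have h9 : (r : ℤ) ∣ v g - v (g * (fr K H q)⁻¹) :=
      ((Nat.prime_iff_prime_int.1 hr).dvd_or_dvd (h8 ▸ h3.mul_left _)).resolve_left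
        fun e => he (Int.natCast_dvd_natCast.1 e)
    have h10 : (v g - v (g * (fr K H q)⁻¹)).natAbs ≤ C := hC ⟨(g, g * (fr K H q)⁻¹), rfl⟩
    have h11 := Int.eq_zero_of_dvd_of_natAbs_lt_natAbs h9 (by rw [Int.natAbs_natCast]; omega)
    omega
  rw [← Subgroup.zpowers_le, ← q7, Subgroup.zpowers_le]
  exact G₀.inv_mem_iff.1 key

end Pool.Agent.CD
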